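import Pool.Agent.H.MP_83e36b_nt.nr.Defs

/-! Subgroups and quotients of groups with a series with alternating factors. -/

set_option autoImplicit false

namespace NR83

universe v

private theorem grp1_simple {n : ℕ} (hn : 5 ≤ n) : IsSimpleGroup (alternatingGroup (Fin n)) :=
  alternatingGroup.isSimpleGroup (by rwa [Nat.card_eq_fintype_card, Fintype.card_fin])

/-- transport along an isomorphism -/
theorem AltSeries.congr {G K : Type v} [Group G] [Group K] (hG : AltSeries G) (e : G ≃* K) :
    AltSeries K := by
  cases hG with
  | one =>
    have : Subsingleton K := e.symm.injective.subsingleton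
    exact AltSeries.one K
  | ext _ H n hn h6 f p hf hp hfp hH =>
    refine AltSeries.ext K H n hn h6 (e.toMonoidHom.comp f) (p.comp e.symm.toMonoidHom)
      (e.injective.comp hf) (hp.comp e.symm.surjective) ?_ hH
    ext x
    constructor
    · rintro ⟨h, rfl⟩
      rw [MonoidHom.mem_ker]
      have h1 : f h ∈ p.ker := by
        rw [← hfp]
        exact ⟨h, rfl⟩
      show p (e.symm (e (f h))) = 1
      rw [e.symm_apply_apply]
      exact h1
    · intro hx
      have h1 : e.symm x ∈ f.range := by
        rw [hfp]
        exact hx
      obtain ⟨h, hh⟩ := h1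
      refine ⟨h, ?_⟩
      show e (f h) = x
      rw [hh, e.apply_symm_apply]

/-- Induction: for `G = ext H n f p` let `K → G` be injective with normal image.  The image of `K`
in `A_n` is normal, so it is trivial or everything (`alternatingGroup.isSimpleGroup`).  In the
first case `K` embeds in `H`; in the second apply `AltSeries.ext` to the kernel of `K → A_n`, which
embeds in `H` with normal image. -/
theorem AltSeries.of_injective {G K : Type v} [Group G] [Group K] (hG : AltSeries G) (j : K →* G)
    (hj : Function.Injective j) (hn : j.range.Normal) : AltSeries K := by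
  induction hG generalizing K with
  | one =>
    have : Subsingleton K := hj.subsingleton
    exact AltSeries.one K
  | ext G H n hn5 h6 f p hf hp hfp hH ih =>
    have hsimple := grp1_simple hn5
    set φ : K →* alternatingGroup (Fin n) := p.comp j with hφ
    have hφn : φ.range.Normal := by
      rw [hφ, MonoidHom.range_comp]
      exact hn.map p hp
    -- the kernel embeds in `H`
    have hlift : ∀ x : φ.ker, ∃ h : H, f h = j x := by
      intro x
      have h1 : j x ∈ f.range := by
        rw [hfp]
        exact x.2
      exact h1
    choose g hg using hlift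
    let j' : φ.ker →* H :=
      { toFun := g
        map_one' := hf (by rw [hg, map_one]; simp)
        map_mul' := fun x y => hf (by rw [map_mul, hg, hg, hg]; simp) }
    have hj' : ∀ x : φ.ker, f (j' x) = j x := hg
    have hinj : Function.Injective j' := by
      intro x y hxy
      apply Subtype.ext
      apply hj
      rw [← hj', ← hj', hxy]
    have hrange : j'.range = j.range.comap f := by
      ext h
      rw [Subgroup.mem_comap]
      constructor
      · rintro ⟨x, rfl⟩
        exact ⟨x, (hj' x).symm⟩
      · rintro ⟨x, hx⟩
        have h1 : x ∈ φ.ker := by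
          rw [MonoidHom.mem_ker]
          show p (j x) = 1
          rw [hx]
          have h2 : f h ∈ p.ker := by
            rw [← hfp]
            exact ⟨h, rfl⟩
          exact h2
        refine ⟨⟨x, h1⟩, hf ?_⟩
        rw [hj', hx]
    have hker : AltSeries φ.ker := by
      refine ih j' hinj ?_
      rw [hrange]
      exact hn.comap f
    rcases hφn.eq_bot_or_eq_top with h | h
    · have h1 : φ.ker = ⊤ := by
        rw [MonoidHom.range_eq_bot_iff] at h
        rw [h]
        exact MonoidHom.ker_one
      exact hker.congr ((MulEquiv.subgroupCongr h1).trans Subgroup.topEquiv)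
    · refine AltSeries.ext K φ.ker n hn5 h6 φ.ker.subtype φ φ.ker.subtype_injective
        (MonoidHom.range_eq_top.1 h) (Subgroup.range_subtype _) hker

/-- Induction: for `G = ext H n f p` and `q : G → Q` surjective, `q (f H)` is normal in `Q` and a
quotient of `H`, and `Q / q (f H)` is a quotient of `A_n`, so it is trivial or `≅ A_n`. -/
theorem AltSeries.of_surjective {G Q : Type v} [Group G] [Group Q] (hG : AltSeries G) (q : G →* Q)
    (hq : Function.Surjective q) : AltSeries Q := by
  induction hG generalizing Q with
  | one =>
    have : Subsingleton Q := hq.subsingleton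
    exact AltSeries.one Q
  | ext G H n hn5 h6 f p hf hp hfp hH ih =>
    have hsimple := grp1_simple hn5
    have hM : AltSeries (q.comp f).range := ih (q.comp f).rangeRestrict
      (q.comp f).rangeRestrict_surjective
    have hL : (q.ker.map p).Normal := (inferInstance : q.ker.Normal).map p hp
    rcases hL.eq_bot_or_eq_top with h | h
    · have hle : q.ker ≤ p.ker := by
        rwa [Subgroup.map_eq_bot_iff] at h
      set p' : Q →* alternatingGroup (Fin n) := q.liftOfSurjective hq ⟨p, hle⟩ with hp'
      have hpq : ∀ x, p' (q x) = p x := fun x =>
        MonoidHom.liftOfRightInverse_comp_apply q _ _ ⟨p, hle⟩ x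
      refine AltSeries.ext Q (q.comp f).range n hn5 h6 (q.comp f).range.subtype p'
        (q.comp f).range.subtype_injective ?_ ?_ hM
      · intro y
        obtain ⟨x, rfl⟩ := hp y
        exact ⟨q x, hpq x⟩
      · rw [Subgroup.range_subtype]
        ext y
        constructor
        · rintro ⟨h, rfl⟩
          rw [MonoidHom.mem_ker]
          show p' (q (f h)) = 1
          rw [hpq]
          have h2 : f h ∈ p.ker := by
            rw [← hfp]
            exact ⟨h, rfl⟩
          exact h2
        · intro hy
          obtain ⟨x, rfl⟩ := hq y
          rw [MonoidHom.mem_ker, hpq] at hy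
          have h2 : x ∈ f.range := by
            rw [hfp]
            exact hy
          obtain ⟨h, rfl⟩ := h2
          exact ⟨h, rfl⟩
    · have h1 : (q.comp f).range = ⊤ := by
        rw [eq_top_iff]
        intro y _
        obtain ⟨x, rfl⟩ := hq y
        have h2 : p x ∈ q.ker.map p := by
          rw [h]
          exact Subgroup.mem_top _
        obtain ⟨l, hl, hlx⟩ := h2
        have h3 : x * l⁻¹ ∈ f.range := by
          rw [hfp, MonoidHom.mem_ker, map_mul, map_inv, hlx, mul_inv_cancel]
        obtain ⟨h', hh'⟩ := h3
        refine ⟨h', ?_⟩
        show q (f h') = q x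
        have hl1 : q l = 1 := hl
        rw [hh', map_mul, map_inv, hl1, inv_one, mul_one]
      exact hM.congr ((MulEquiv.subgroupCongr h1).trans Subgroup.topEquiv)

/-- a simple group with a series with alternating factors is alternating -/
theorem AltSeries.of_simple {G : Type v} [Group G] (hG : AltSeries G) (hs : IsSimpleGroup G) :
    ∃ n : ℕ, 5 ≤ n ∧ n ≠ 6 ∧ Nonempty (G ≃* alternatingGroup (Fin n)) := by
  cases hG with
  | one => exact absurd ‹Subsingleton G› (not_subsingleton_iff_nontrivial.2 inferInstance)
  | ext _ H n hn h6 f p hf hp hfp hH =>
    refine ⟨n, hn, h6, ?_⟩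
    have hsimple := grp1_simple hn
    rcases (inferInstance : p.ker.Normal).eq_bot_or_eq_top with h | h
    · exact ⟨MulEquiv.ofBijective p ⟨(MonoidHom.ker_eq_bot_iff p).1 h, hp⟩⟩
    · exfalso
      obtain ⟨a, b, hab⟩ := exists_pair_ne (alternatingGroup (Fin n))
      have h1 : ∀ x, p x = 1 := by
        intro x
        have : x ∈ p.ker := by
          rw [h]
          exact Subgroup.mem_top x
        exact this
      obtain ⟨x, rfl⟩ := hp a
      obtain ⟨y, rfl⟩ := hp b
      exact hab (by rw [h1, h1])

end NR83
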