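import Pool.Agent.H.MP_83e36b_nt.nr.SDefs
import Pool.Agent.H.MP_83e36b_nt.cm.Final

/-! Weyl towers: definition. -/

set_option autoImplicit false

namespace NR83

open CM83

universe v

/-- `Tower G N`: the subgroup `N` has a chain `1 = N_0 ≤ N_1 ≤ ... ≤ N_r = N` of normal subgroups of
`G` such that for every `i`
* either the composition factors of `N_i / N_{i-1}` are alternating groups `A_n`, `n ≥ 5`, `n ≠ 6`,
* or there are the Weyl group `W` of a root system without component of type `E_8`, a finite set `I`
  and a homomorphism of `G / N_{i-1}` to the wreath product of `W` with the permutations of `I`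
  (given by the action on `I` and the cocycle `M`), which maps `N_i / N_{i-1}` isomorphically
  onto `(W^+)^I`, `W^+` the rotation subgroup. -/
inductive Tower : (G : Type v) → [Group G] → Subgroup G → Prop
  | bot (G : Type v) [Group G] : Tower G ⊥
  | alt (G : Type v) [Group G] (N N₁ : Subgroup G) [N₁.Normal] (hle : N₁ ≤ N) (h : AltSeries N₁)
      (hT : Tower (G ⧸ N₁) (N.map (QuotientGroup.mk' N₁))) : Tower G N
  | weyl (G : Type v) [Group G] (N N₁ : Subgroup G) [N₁.Normal] (hle : N₁ ≤ N) (I : Type v)
      [Finite I] [MulAction G I] (m : ℕ) (A : Matrix (Fin m) (Fin m) ℤ) (hA : NoE8 A)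
      (M : G → I → Matrix (Fin m) (Fin m) ℤ) (hM : Coc N₁ I A M)
      (hT : Tower (G ⧸ N₁) (N.map (QuotientGroup.mk' N₁))) : Tower G N

end NR83
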