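import Pool.Agent.H.MP_83e36b_nt.nr.Defs
import Pool.Agent.H.MP_83e36b_nt.cm.XDefs

/-! Auxiliary definitions for the reduction of Noether's problem. -/

set_option autoImplicit false

namespace NR83

open CM83

universe u v w

/-- the fixed field of an action of `G` by automorphisms over `k` -/
noncomputable def fixF {k : Type u} [Field k] {E : Type w} [Field E] [Algebra k E] {G : Type v}
    [Group G] (α : G →* (E ≃ₐ[k] E)) : IntermediateField k E :=
  IntermediateField.fixedField α.range

theorem mem_fixF {k : Type u} [Field k] {E : Type w} [Field E] [Algebra k E] {G : Type v}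
    [Group G] (α : G →* (E ≃ₐ[k] E)) (x : E) : x ∈ fixF α ↔ ∀ g, α g x = x := by
  unfold fixF
  rw [IntermediateField.mem_fixedField_iff]
  constructor
  · intro h g
    exact h _ ⟨g, rfl⟩
  · rintro h _ ⟨g, rfl⟩
    exact h g

/-- The automorphisms of the group `T` act through the Weyl group of the matrix `A`, the inner
ones through the rotation group, which is identified with `T`. -/
structure IsWS (T : Type) [Group T] {m : ℕ} (A : Matrix (Fin m) (Fin m) ℤ)
    (Φ : MulAut T → Matrix (Fin m) (Fin m) ℤ) : Prop where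
  one : Φ 1 = 1
  mul : ∀ φ ψ, Φ (φ * ψ) = Φ ψ * Φ φ
  weyl : ∀ φ, Φ φ ∈ weylMat A
  rot : ∀ t, Φ (MulAut.conj t) ∈ rotMat A
  onto : ∀ R ∈ rotMat A, ∃ t, Φ (MulAut.conj t) = R
  inj : ∀ t, Φ (MulAut.conj t) = 1 → t = 1

/-- A normal subgroup `N` of `G` which is the product of commuting subgroups `S j ≅ T` permuted
by `G`. -/
structure Blocks (T : Type) [Group T] {G : Type v} [Group G] (N : Subgroup G) (I : Type v)
    [MulAction G I] where
  S : I → Subgroup G
  conj : ∀ (g : G) (j : I), ∀ x ∈ S j, g * x * g⁻¹ ∈ S (g • j)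
  θ : ∀ j, S j ≃* T
  comm : ∀ i j, i ≠ j → ∀ x ∈ S i, ∀ y ∈ S j, x * y = y * x
  gen : N = ⨆ j, S j
  fix : ∀ g ∈ N, ∀ j : I, g • j = j
  cent : ∀ g ∈ N, (∀ h ∈ N, g * h = h * g) → g = 1

/-- A cocycle of matrices on the index set `I` with values in the Weyl group of `A`, which
identifies the normal subgroup `N` with the product of copies of the rotation group. -/
structure Coc {G : Type v} [Group G] (N : Subgroup G) (I : Type v) [MulAction G I] {m : ℕ}
    (A : Matrix (Fin m) (Fin m) ℤ) (M : G → I → Matrix (Fin m) (Fin m) ℤ) : Prop where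
  one : ∀ j, M 1 j = 1
  mul : ∀ g h j, M (g * h) j = M h j * M g (h • j)
  weyl : ∀ g j, M g j ∈ weylMat A
  fix : ∀ g ∈ N, ∀ j : I, g • j = j ∧ M g j ∈ rotMat A
  rot : ∀ R : I → Matrix (Fin m) (Fin m) ℤ, (∀ j, R j ∈ rotMat A) → ∃ g ∈ N, ∀ j, M g j = R j
  inj : ∀ g ∈ N, (∀ j, M g j = 1) → g = 1

end NR83
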