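import Pool.Agent.H.MP_83e36b_nt.nr.Grp1
import Pool.Agent.H.MP_83e36b_nt.nr.Base

/-! Minimal normal subgroups. -/

set_option autoImplicit false

namespace NR83

universe v

/-- the conjugate subgroup -/
private def Grp2_cj {G : Type v} [Group G] (g : G) (S : Subgroup G) : Subgroup G :=
  S.map (MulAut.conj g).toMonoidHom

private theorem Grp2_mem {G : Type v} [Group G] {g x : G} {S : Subgroup G} :
    x ∈ Grp2_cj g S ↔ g⁻¹ * x * g ∈ S := by
  unfold Grp2_cj
  rw [Subgroup.mem_map]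
  constructor
  · rintro ⟨y, hy, rfl⟩
    have h1 : g⁻¹ * (MulAut.conj g).toMonoidHom y * g = y := by
      simp [MulAut.conj_apply, mul_assoc]
    rw [h1]
    exact hy
  · intro h
    refine ⟨_, h, ?_⟩
    simp [MulAut.conj_apply, mul_assoc]

private theorem Grp2_one {G : Type v} [Group G] (S : Subgroup G) : Grp2_cj 1 S = S := by
  ext x
  rw [Grp2_mem]
  simp

private theorem Grp2_mul {G : Type v} [Group G] (g h : G) (S : Subgroup G) :
    Grp2_cj (g * h) S = Grp2_cj g (Grp2_cj h S) := by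
  ext x
  rw [Grp2_mem, Grp2_mem, Grp2_mem]
  have h1 : (g * h)⁻¹ * x * (g * h) = h⁻¹ * (g⁻¹ * x * g) * h := by
    rw [mul_inv_rev]
    simp only [mul_assoc]
  rw [h1]

/-- the conjugates -/
private def Grp2_I {G : Type v} [Group G] (S₀ : Subgroup G) : Type v :=
  {S : Subgroup G // ∃ g : G, S = Grp2_cj g S₀}

private instance Grp2_act {G : Type v} [Group G] (S₀ : Subgroup G) : MulAction G (Grp2_I S₀) where
  smul g j := ⟨Grp2_cj g j.1, by
    obtain ⟨h, hh⟩ := j.2
    exact ⟨g * h, by rw [Grp2_mul, ← hh]⟩⟩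
  one_smul j := Subtype.ext (Grp2_one j.1)
  mul_smul g h j := Subtype.ext (Grp2_mul g h j.1)

private theorem Grp2_smul {G : Type v} [Group G] {S₀ : Subgroup G} (g : G) (j : Grp2_I S₀) :
    (g • j).1 = Grp2_cj g j.1 := rfl

/-- a nontrivial subgroup of `N₁` normalised by `N₁` -/
private def Grp2_P {G : Type v} [Group G] (N₁ S : Subgroup G) : Prop :=
  S ≤ N₁ ∧ S ≠ ⊥ ∧ ∀ n ∈ N₁, ∀ x ∈ S, n * x * n⁻¹ ∈ S

private theorem Grp2_P_cj {G : Type v} [Group G] {N₁ S : Subgroup G} (hN : N₁.Normal)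
    (h : Grp2_P N₁ S) (g : G) : Grp2_P N₁ (Grp2_cj g S) := by
  obtain ⟨h1, h2, h3⟩ := h
  refine ⟨fun x hx => ?_, fun hbot => ?_, fun n hn x hx => ?_⟩
  · rw [Grp2_mem] at hx
    have h4 := hN.conj_mem _ (h1 hx) g
    have h5 : g * (g⁻¹ * x * g) * g⁻¹ = x := by group
    rwa [h5] at h4
  · apply h2
    rw [eq_bot_iff]
    intro x hx
    have h4 : g * x * g⁻¹ ∈ Grp2_cj g S := by
      rw [Grp2_mem]
      have h5 : g⁻¹ * (g * x * g⁻¹) * g = x := by group
      rwa [h5]
    rw [hbot, Subgroup.mem_bot] at h4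
    rw [Subgroup.mem_bot]
    have h5 : x = g⁻¹ * (g * x * g⁻¹) * g := by group
    rw [h5, h4]
    group
  · rw [Grp2_mem] at hx ⊢
    have h4 := hN.conj_mem n hn g⁻¹
    rw [inv_inv] at h4
    have h5 := h3 _ h4 _ hx
    have h6 : g⁻¹ * n * g * (g⁻¹ * x * g) * (g⁻¹ * n * g)⁻¹ = g⁻¹ * (n * x * n⁻¹) * g := by group
    rwa [h6] at h5

private theorem Grp2_le {G : Type v} [Group G] {S R : Subgroup G} {g : G}
    (h : S ≤ Grp2_cj g⁻¹ R) : Grp2_cj g S ≤ R := by
  intro x hx
  rw [Grp2_mem] at hx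
  have h1 := h hx
  rw [Grp2_mem] at h1
  have h2 : (g⁻¹)⁻¹ * (g⁻¹ * x * g) * g⁻¹ = x := by group
  rwa [h2] at h1

private theorem Grp2_le' {G : Type v} [Group G] {S R : Subgroup G} {g : G}
    (h : R ≤ Grp2_cj g S) : Grp2_cj g⁻¹ R ≤ S := by
  apply Grp2_le
  rwa [inv_inv]

private theorem Grp2_min_cj {G : Type v} [Group G] {N₁ S : Subgroup G} (hN : N₁.Normal)
    (h : Minimal (Grp2_P N₁) S) (g : G) : Minimal (Grp2_P N₁) (Grp2_cj g S) := by
  refine ⟨Grp2_P_cj hN h.1 g, fun R hR hle => ?_⟩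
  exact Grp2_le (h.2 (Grp2_P_cj hN hR g⁻¹) (Grp2_le' hle))

private theorem Grp2_min_I {G : Type v} [Group G] {N₁ S : Subgroup G} (hN : N₁.Normal)
    (h : Minimal (Grp2_P N₁) S) (j : Grp2_I S) : Minimal (Grp2_P N₁) j.1 := by
  obtain ⟨g, hg⟩ := j.2
  rw [hg]
  exact Grp2_min_cj hN h g

private theorem Grp2_comm {G : Type v} [Group G] {N₁ R S : Subgroup G}
    (hR : Minimal (Grp2_P N₁) R) (hS : Minimal (Grp2_P N₁) S) (hne : R ≠ S) {x y : G}
    (hx : x ∈ R) (hy : y ∈ S) : x * y = y * x := by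
  have h1 : R ⊓ S = ⊥ := by
    by_contra hcon
    have h2 : Grp2_P N₁ (R ⊓ S) := by
      refine ⟨inf_le_left.trans hR.1.1, hcon, fun n hn x hx => ?_⟩
      exact ⟨hR.1.2.2 n hn x hx.1, hS.1.2.2 n hn x hx.2⟩
    have h3 := hR.2 h2 inf_le_left
    have h4 := hS.2 h2 inf_le_right
    exact hne (le_antisymm (h3.trans inf_le_right) (h4.trans inf_le_left))
  have h2 : x * y * x⁻¹ * y⁻¹ ∈ R ⊓ S := by
    refine ⟨?_, ?_⟩
    · have h3 := hR.1.2.2 y (hS.1.1 hy) x⁻¹ (R.inv_mem hx)
      have h4 : x * y * x⁻¹ * y⁻¹ = x * (y * x⁻¹ * y⁻¹) := by group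
      rw [h4]
      exact R.mul_mem hx h3
    · have h3 := hS.1.2.2 x (hR.1.1 hx) y hy
      exact S.mul_mem h3 (S.inv_mem hy)
  rw [h1, Subgroup.mem_bot] at h2
  have h3 : x * y = x * y * x⁻¹ * y⁻¹ * (y * x) := by group
  rw [h3, h2, one_mul]

/-- the join of the conjugates -/
private theorem Grp2_gen {G : Type v} [Group G] {N N₁ S : Subgroup G}
    (h₁ : Minimal (fun M : Subgroup G => M.Normal ∧ M ≤ N ∧ M ≠ ⊥) N₁)
    (h : Minimal (Grp2_P N₁) S) : N₁ = ⨆ j : Grp2_I S, j.1 := by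
  have hN := h₁.1.1
  have hle : ∀ j : Grp2_I S, j.1 ≤ N₁ := fun j => (Grp2_min_I hN h j).1.1
  have hJ : (⨆ j : Grp2_I S, j.1) ≤ N₁ := iSup_le hle
  have hconj : ∀ g : G, ∀ x ∈ (⨆ j : Grp2_I S, j.1), g * x * g⁻¹ ∈ (⨆ j : Grp2_I S, j.1) := by
    intro g x hx
    have h1 : (⨆ j : Grp2_I S, j.1) ≤ Grp2_cj g⁻¹ (⨆ j : Grp2_I S, j.1) := by
      refine iSup_le fun j y hy => ?_
      rw [Grp2_mem, inv_inv]
      refine Subgroup.mem_iSup_of_mem (g • j) ?_
      rw [Grp2_smul, Grp2_mem]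
      have h5 : g⁻¹ * (g * y * g⁻¹) * g = y := by group
      rwa [h5]
    have h2 := h1 hx
    rwa [Grp2_mem, inv_inv] at h2
  have hP : (⨆ j : Grp2_I S, j.1).Normal ∧ (⨆ j : Grp2_I S, j.1) ≤ N ∧
      (⨆ j : Grp2_I S, j.1) ≠ ⊥ := by
    refine ⟨⟨fun x hx g => hconj g x hx⟩, hJ.trans h₁.1.2.1, fun hbot => ?_⟩
    have h2 : S ≤ ⊥ := by
      rw [← hbot]
      exact le_iSup (fun j : Grp2_I S => j.1) ⟨S, 1, (Grp2_one S).symm⟩
    exact h.1.2.1 (eq_bot_iff.2 h2)
  exact le_antisymm (h₁.2 hP hJ) hJ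

/-- normal subgroups of `S` are normalised by `N₁` -/
private theorem Grp2_simple {G : Type v} [Group G] {N N₁ S : Subgroup G}
    (h₁ : Minimal (fun M : Subgroup G => M.Normal ∧ M ≤ N ∧ M ≠ ⊥) N₁)
    (h : Minimal (Grp2_P N₁) S) : IsSimpleGroup S := by
  have hN := h₁.1.1
  have : Nontrivial S := (Subgroup.nontrivial_iff_ne_bot S).2 h.1.2.1
  refine ⟨fun H hH => ?_⟩
  by_cases hb : H = ⊥
  · exact Or.inl hb
  · right
    have hle : H.map S.subtype ≤ S := Subgroup.map_subtype_le H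
    have hnorm : ∀ n ∈ N₁, n ∈ Subgroup.normalizer ((H.map S.subtype : Subgroup G) : Set G) := by
      have h2 : N₁ ≤ Subgroup.normalizer ((H.map S.subtype : Subgroup G) : Set G) := by
        rw [Grp2_gen h₁ h]
        refine iSup_le fun j y hy => ?_
        by_cases hj : j.1 = S
        · rw [hj] at hy
          rw [Subgroup.mem_normalizer_iff]
          have key : ∀ z ∈ S, ∀ w ∈ H.map S.subtype, z * w * z⁻¹ ∈ H.map S.subtype := by
            rintro z hz w ⟨w', hw', rfl⟩
            refine ⟨⟨z, hz⟩ * w' * ⟨z, hz⟩⁻¹, hH.conj_mem w' hw' ⟨z, hz⟩, rfl⟩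
          intro w
          constructor
          · exact key y hy w
          · intro hw
            have h3 := key y⁻¹ (S.inv_mem hy) _ hw
            have h4 : y⁻¹ * (y * w * y⁻¹) * y⁻¹⁻¹ = w := by group
            rwa [h4] at h3
        · rw [Subgroup.mem_normalizer_iff]
          have hc : ∀ w ∈ S, y * w = w * y := fun w hw =>
            Grp2_comm (Grp2_min_I hN h j) h hj hy hw
          intro w
          constructor
          · intro hw
            rw [hc w (hle hw), mul_inv_cancel_right]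
            exact hw
          · intro hw
            have h3 := hc _ (hle hw)
            have h4 : w = y * w * y⁻¹ := by
              have h5 : y * (y * w * y⁻¹) * y⁻¹ = y * w * y⁻¹ := by
                rw [h3, mul_inv_cancel_right]
              have h6 : y * w * y⁻¹ = w := by
                have h7 : y⁻¹ * (y * (y * w * y⁻¹) * y⁻¹) * y = y⁻¹ * (y * w * y⁻¹) * y := by
                  rw [h5]
                have h8 : y⁻¹ * (y * (y * w * y⁻¹) * y⁻¹) * y = y * w * y⁻¹ := by group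
                have h9 : y⁻¹ * (y * w * y⁻¹) * y = w := by group
                rw [← h8, h7, h9]
              exact h6.symm
            rw [h4]
            exact hw
      exact h2
    have hP : Grp2_P N₁ (H.map S.subtype) := by
      refine ⟨hle.trans h.1.1, fun hbot => ?_, fun n hn x hx => ?_⟩
      · apply hb
        exact (Subgroup.map_eq_bot_iff_of_injective H (Subgroup.subtype_injective S)).1 hbot
      · exact (Subgroup.mem_normalizer_iff.1 (hnorm n hn) x).1 hx
    have h2 := h.2 hP hle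
    rw [eq_top_iff]
    intro x _
    obtain ⟨y, hy, hyx⟩ := h2 x.2
    have h3 : y = x := Subtype.ext hyx
    rwa [← h3]

/-- Proof: `N₁ ≤ N` is a minimal non-trivial normal subgroup of `G`, `S₀` a minimal non-trivial
normal subgroup of `N₁` and `I` the set of the conjugates of `S₀` in `G` (e.g. the subtype of
`Subgroup G`).  The conjugates are minimal normal subgroups of `N₁`; different ones intersect
trivially, so they commute; their join is normal in `G`, so it is `N₁`.  Normal subgroups of `S₀`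
are normal in `N₁`, so `S₀` is simple; by `AltSeries.of_injective`, `AltSeries.of_simple` it is
`≅ A_n`.  The centre of `N₁` is normal in `G`, so it is trivial or `N₁`; the latter is impossible
because `A_n` is not commutative. -/
theorem exists_blocks {G : Type v} [Group G] [Finite G] (N : Subgroup G) (hN : N.Normal)
    (hN0 : N ≠ ⊥) (hA : AltSeries N) :
    ∃ (N₁ : Subgroup G) (n : ℕ) (I : Type v) (_ : Finite I) (_ : MulAction G I),
      N₁.Normal ∧ N₁ ≤ N ∧ N₁ ≠ ⊥ ∧ 5 ≤ n ∧ n ≠ 6 ∧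
        Nonempty (Blocks (alternatingGroup (Fin n)) N₁ I) := by
  classical
  obtain ⟨N₁, h₁⟩ := exists_minimal_of_wellFoundedLT
    (fun M : Subgroup G => M.Normal ∧ M ≤ N ∧ M ≠ ⊥) ⟨N, hN, le_rfl, hN0⟩
  have hN₁ : N₁.Normal := h₁.1.1
  obtain ⟨S, hS⟩ := exists_minimal_of_wellFoundedLT (Grp2_P N₁)
    ⟨N₁, le_rfl, h₁.1.2.2, fun n hn x hx => N₁.mul_mem (N₁.mul_mem hn hx) (N₁.inv_mem hn)⟩
  have hA₁ : AltSeries N₁ := by
    refine hA.of_injective (Subgroup.inclusion h₁.1.2.1) (Subgroup.inclusion_injective _) ?_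
    refine ⟨fun x hx g => ?_⟩
    rw [MonoidHom.mem_range] at hx ⊢
    obtain ⟨y, rfl⟩ := hx
    refine ⟨⟨g.1 * y.1 * g.1⁻¹, hN₁.conj_mem y.1 y.2 g.1⟩, rfl⟩
  have hAS : AltSeries S := by
    refine hA₁.of_injective (Subgroup.inclusion hS.1.1) (Subgroup.inclusion_injective _) ?_
    refine ⟨fun x hx g => ?_⟩
    rw [MonoidHom.mem_range] at hx ⊢
    obtain ⟨y, rfl⟩ := hx
    refine ⟨⟨g.1 * y.1 * g.1⁻¹, hS.1.2.2 g.1 g.2 y.1 y.2⟩, rfl⟩
  obtain ⟨n, hn5, hn6, ⟨e⟩⟩ := AltSeries.of_simple hAS (Grp2_simple h₁ hS)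
  -- the group is not commutative
  have hnc : ¬ ∀ x ∈ S, ∀ y ∈ S, x * y = y * x := by
    intro hcon
    have hc := alternatingGroup.center_eq_bot (α := Fin n) (by simp; omega)
    have := alternatingGroup.nontrivial_of_three_le_card (α := Fin n) (by simp; omega)
    obtain ⟨a, ha⟩ := exists_ne (1 : alternatingGroup (Fin n))
    apply ha
    have h2 : a ∈ Subgroup.center (alternatingGroup (Fin n)) := by
      rw [Subgroup.mem_center_iff]
      intro b
      apply e.symm.injective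
      rw [map_mul, map_mul]
      exact Subtype.ext (hcon _ (e.symm b).2 _ (e.symm a).2)
    rw [hc, Subgroup.mem_bot] at h2
    exact h2
  refine ⟨N₁, n, Grp2_I S, ?_, Grp2_act S, hN₁, h₁.1.2.1, h₁.1.2.2, hn5, hn6, ⟨?_⟩⟩
  · unfold Grp2_I
    infer_instance
  · have eq1 : ∀ j : Grp2_I S, Nonempty (j.1 ≃* alternatingGroup (Fin n)) := by
      intro j
      obtain ⟨g, hg⟩ := j.2
      have e1 : S ≃* Grp2_cj g S := (MulAut.conj g).subgroupMap S
      have e2 : j.1 ≃* Grp2_cj g S := MulEquiv.subgroupCongr hg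
      exact ⟨(e2.trans e1.symm).trans e⟩
    exact
      { S := fun j => j.1
        conj := fun g j x hx => by
          rw [Grp2_smul, Grp2_mem]
          have h5 : g⁻¹ * (g * x * g⁻¹) * g = x := by group
          rwa [h5]
        θ := fun j => Classical.choice (eq1 j)
        comm := fun i j hij x hx y hy =>
          Grp2_comm (Grp2_min_I hN₁ hS i) (Grp2_min_I hN₁ hS j)
            (fun h => hij (Subtype.ext h)) hx hy
        gen := Grp2_gen h₁ hS
        fix := fun g hg j => by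
          apply Subtype.ext
          rw [Grp2_smul]
          have h2 := (Grp2_min_I hN₁ hS j).1.2.2
          ext x
          rw [Grp2_mem]
          constructor
          · intro hx
            have h3 := h2 g hg _ hx
            have h4 : g * (g⁻¹ * x * g) * g⁻¹ = x := by group
            rwa [h4] at h3
          · intro hx
            have h3 := h2 g⁻¹ (N₁.inv_mem hg) x hx
            rwa [inv_inv] at h3
        cent := fun g hg hgc => by
          by_contra hg1
          let Z : Subgroup G :=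
            { carrier := {z | z ∈ N₁ ∧ ∀ h ∈ N₁, z * h = h * z}
              mul_mem' := by
                rintro a b ⟨ha1, ha2⟩ ⟨hb1, hb2⟩
                refine ⟨N₁.mul_mem ha1 hb1, fun h hh => ?_⟩
                rw [mul_assoc, hb2 h hh, ← mul_assoc, ha2 h hh, mul_assoc]
              one_mem' := ⟨N₁.one_mem, fun h _ => by rw [one_mul, mul_one]⟩
              inv_mem' := by
                rintro a ⟨ha1, ha2⟩
                refine ⟨N₁.inv_mem ha1, fun h hh => ?_⟩
                have h3 := ha2 h hh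
                calc a⁻¹ * h = a⁻¹ * (h * a) * a⁻¹ := by group
                  _ = a⁻¹ * (a * h) * a⁻¹ := by rw [h3]
                  _ = h * a⁻¹ := by group }
          have hZ : ∀ z, z ∈ Z ↔ z ∈ N₁ ∧ ∀ h ∈ N₁, z * h = h * z := fun z => Iff.rfl
          have hZP : Z.Normal ∧ Z ≤ N ∧ Z ≠ ⊥ := by
            refine ⟨⟨fun z hz a => ?_⟩, fun z hz => h₁.1.2.1 ((hZ z).1 hz).1, fun hbot => ?_⟩
            · rw [hZ] at hz ⊢
              refine ⟨hN₁.conj_mem z hz.1 a, fun h hh => ?_⟩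
              have h3 := hN₁.conj_mem h hh a⁻¹
              rw [inv_inv] at h3
              have h4 := hz.2 _ h3
              calc a * z * a⁻¹ * h = a * (z * (a⁻¹ * h * a)) * a⁻¹ := by group
                _ = a * (a⁻¹ * h * a * z) * a⁻¹ := by rw [h4]
                _ = h * (a * z * a⁻¹) := by group
            · have h3 : g ∈ Z := (hZ g).2 ⟨hg, hgc⟩
              rw [hbot, Subgroup.mem_bot] at h3
              exact hg1 h3
          have h3 : N₁ ≤ Z := h₁.2 hZP (fun z hz => ((hZ z).1 hz).1)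
          apply hnc
          intro x hx y hy
          exact ((hZ x).1 (h3 (hS.1.1 hx))).2 y (hS.1.1 hy) }

end NR83
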