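import Pool.Agent.H.MP_83e36b_nt.nr.Base

/-! The cocycle of a family of commuting simple subgroups. -/

set_option autoImplicit false

namespace NR83

open CM83

universe v

private theorem g3_θ_congr {T : Type} [Group T] {G : Type v} [Group G] {N : Subgroup G}
    {I : Type v} [MulAction G I] (B : Blocks T N I) {i i' : I} (h : i = i') {z z' : G}
    (hz : z = z') (hm : z ∈ B.S i) (hm' : z' ∈ B.S i') :
    B.θ i ⟨z, hm⟩ = B.θ i' ⟨z', hm'⟩ := by
  subst h
  subst hz
  rfl

private theorem g3_conj_inv {T : Type} [Group T] {G : Type v} [Group G] {N : Subgroup G}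
    {I : Type v} [MulAction G I] (B : Blocks T N I) (g : G) (j : I) (y : G)
    (hy : y ∈ B.S (g • j)) : g⁻¹ * y * g ∈ B.S j := by
  have h := B.conj g⁻¹ (g • j) y hy
  rw [inv_smul_smul, inv_inv] at h
  exact h

/-- conjugation by `g` as an isomorphism `S j ≃* S (g • j)` -/
private noncomputable def g3_iso {T : Type} [Group T] {G : Type v} [Group G] {N : Subgroup G}
    {I : Type v} [MulAction G I] (B : Blocks T N I) (g : G) (j : I) :
    B.S j ≃* B.S (g • j) where
  toFun x := ⟨g * x.1 * g⁻¹, B.conj g j x.1 x.2⟩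
  invFun y := ⟨g⁻¹ * y.1 * g, g3_conj_inv B g j y.1 y.2⟩
  left_inv x := by
    apply Subtype.ext
    show g⁻¹ * (g * x.1 * g⁻¹) * g = x.1
    group
  right_inv y := by
    apply Subtype.ext
    show g * (g⁻¹ * y.1 * g) * g⁻¹ = y.1
    group
  map_mul' x y := by
    apply Subtype.ext
    show g * (x.1 * y.1) * g⁻¹ = (g * x.1 * g⁻¹) * (g * y.1 * g⁻¹)
    group

private noncomputable def g3_φ {T : Type} [Group T] {G : Type v} [Group G] {N : Subgroup G}
    {I : Type v} [MulAction G I] (B : Blocks T N I) (g : G) (j : I) : MulAut T :=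
  ((B.θ j).symm.trans (g3_iso B g j)).trans (B.θ (g • j))

private theorem g3_φ_apply {T : Type} [Group T] {G : Type v} [Group G] {N : Subgroup G}
    {I : Type v} [MulAction G I] (B : Blocks T N I) (g : G) (j : I) (t : T) :
    g3_φ B g j t = B.θ (g • j) ⟨g * ((B.θ j).symm t).1 * g⁻¹,
      B.conj g j _ ((B.θ j).symm t).2⟩ := rfl

private theorem g3_φ_one {T : Type} [Group T] {G : Type v} [Group G] {N : Subgroup G}
    {I : Type v} [MulAction G I] (B : Blocks T N I) (j : I) : g3_φ B 1 j = 1 := by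
  ext t
  rw [g3_φ_apply, MulAut.one_apply]
  rw [g3_θ_congr B (one_smul G j) (z' := ((B.θ j).symm t).1) (by group) _
    ((B.θ j).symm t).2]
  simp

private theorem g3_φ_mul {T : Type} [Group T] {G : Type v} [Group G] {N : Subgroup G}
    {I : Type v} [MulAction G I] (B : Blocks T N I) (g h : G) (j : I) :
    g3_φ B (g * h) j = g3_φ B g (h • j) * g3_φ B h j := by
  ext t
  rw [MulAut.mul_apply, g3_φ_apply, g3_φ_apply B g (h • j)]
  apply g3_θ_congr B (mul_smul g h j)
  rw [g3_φ_apply B h j, MulEquiv.symm_apply_apply]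
  group

/-- elements of `N` act on each block by inner automorphisms of the block -/
private theorem g3_inner {T : Type} [Group T] {G : Type v} [Group G] {N : Subgroup G}
    {I : Type v} [MulAction G I] (B : Blocks T N I) (g : G) (hg : g ∈ N) (j : I) :
    ∃ s ∈ B.S j, ∀ x ∈ B.S j, g * x * g⁻¹ = s * x * s⁻¹ := by
  have hg' : g ∈ ⨆ j, B.S j := by
    rw [← B.gen]
    exact hg
  refine Subgroup.iSup_induction B.S
    (C := fun g => ∃ s ∈ B.S j, ∀ x ∈ B.S j, g * x * g⁻¹ = s * x * s⁻¹) hg' ?_ ?_ ?_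
  · intro i y hy
    by_cases hij : i = j
    · subst hij
      exact ⟨y, hy, fun x _ => rfl⟩
    · refine ⟨1, (B.S j).one_mem, fun x hx => ?_⟩
      rw [B.comm i j hij y hy x hx]
      group
  · exact ⟨1, (B.S j).one_mem, fun x _ => rfl⟩
  · rintro a b ⟨s, hs, ha⟩ ⟨r, hr, hb⟩
    refine ⟨s * r, (B.S j).mul_mem hs hr, fun x hx => ?_⟩
    have hm : r * x * r⁻¹ ∈ B.S j :=
      (B.S j).mul_mem ((B.S j).mul_mem hr hx) ((B.S j).inv_mem hr)
    have h1 : a * b * x * (a * b)⁻¹ = a * (b * x * b⁻¹) * a⁻¹ := by group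
    rw [h1, hb x hx, ha _ hm]
    group

/-- an element of `N` acting on the blocks by prescribed inner automorphisms -/
private theorem g3_exists {T : Type} [Group T] {G : Type v} [Group G] {N : Subgroup G}
    {I : Type v} [Finite I] [MulAction G I] (B : Blocks T N I) (s : I → G)
    (hs : ∀ j, s j ∈ B.S j) :
    ∃ g ∈ N, ∀ j, ∀ x ∈ B.S j, g * x * g⁻¹ = s j * x * (s j)⁻¹ := by
  classical
  have hSN : ∀ j, B.S j ≤ N := fun j => (le_iSup B.S j).trans (le_of_eq B.gen.symm)
  have key : ∀ F : Finset I, ∃ g ∈ N,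
      (∀ j ∈ F, ∀ x ∈ B.S j, g * x * g⁻¹ = s j * x * (s j)⁻¹) ∧
      (∀ j, j ∉ F → ∀ x ∈ B.S j, g * x * g⁻¹ = x) := by
    intro F
    induction F using Finset.induction_on with
    | empty =>
      refine ⟨1, N.one_mem, fun j hj => absurd hj (Finset.notMem_empty j), fun j _ x _ => ?_⟩
      group
    | insert i F hi ih =>
      obtain ⟨g, hgN, h1, h2⟩ := ih
      refine ⟨g * s i, N.mul_mem hgN (hSN i (hs i)), ?_, ?_⟩
      · intro j hj x hx
        have e : g * s i * x * (g * s i)⁻¹ = g * (s i * x * (s i)⁻¹) * g⁻¹ := by group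
        rw [e]
        rcases Finset.mem_insert.1 hj with rfl | hj
        · exact h2 j hi _ ((B.S j).mul_mem ((B.S j).mul_mem (hs j) hx)
            ((B.S j).inv_mem (hs j)))
        · have hij : i ≠ j := fun h => hi (h ▸ hj)
          have e2 : s i * x * (s i)⁻¹ = x := by
            rw [B.comm i j hij _ (hs i) x hx]
            group
          rw [e2]
          exact h1 j hj x hx
      · intro j hj x hx
        have hjF : j ∉ F := fun h => hj (Finset.mem_insert_of_mem h)
        have hij : i ≠ j := fun h => hj (h ▸ Finset.mem_insert_self i F)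
        have e : g * s i * x * (g * s i)⁻¹ = g * (s i * x * (s i)⁻¹) * g⁻¹ := by group
        have e2 : s i * x * (s i)⁻¹ = x := by
          rw [B.comm i j hij _ (hs i) x hx]
          group
        rw [e, e2]
        exact h2 j hjF x hx
  have := Fintype.ofFinite I
  obtain ⟨g, hgN, h1, -⟩ := key Finset.univ
  exact ⟨g, hgN, fun j => h1 j (Finset.mem_univ j)⟩

/-- an element acting on `S j` like `s ∈ S j` gives the inner automorphism of `θ j s` -/
private theorem g3_φ_conj {T : Type} [Group T] {G : Type v} [Group G] {N : Subgroup G}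
    {I : Type v} [MulAction G I] (B : Blocks T N I) (g : G) (j : I) (hj : g • j = j)
    (s : G) (hs : s ∈ B.S j) (h : ∀ x ∈ B.S j, g * x * g⁻¹ = s * x * s⁻¹) :
    g3_φ B g j = MulAut.conj (B.θ j ⟨s, hs⟩) := by
  ext t
  rw [g3_φ_apply, MulAut.conj_apply]
  have hx := ((B.θ j).symm t).2
  have hm : s * ((B.θ j).symm t).1 * s⁻¹ ∈ B.S j :=
    (B.S j).mul_mem ((B.S j).mul_mem hs hx) ((B.S j).inv_mem hs)
  rw [g3_θ_congr B hj (h _ hx) _ hm]
  have : (⟨s * ((B.θ j).symm t).1 * s⁻¹, hm⟩ : B.S j)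
      = (⟨s, hs⟩ : B.S j) * (B.θ j).symm t * (⟨s, hs⟩ : B.S j)⁻¹ := rfl
  rw [this, map_mul, map_mul, map_inv, MulEquiv.apply_symm_apply]

/-- Proof: for `g : G`, `j : I` let `φ_{g,j} = θ_{g•j} ∘ (conjugation by g) ∘ θ_j⁻¹ : T ≃* T` and
`M g j = Φ φ_{g,j}`; `φ_{gh,j} = φ_{g,h•j} ∘ φ_{h,j}`.  For `g ∈ N` conjugation by `g` is, on each
`S j`, conjugation by an element of `S j` (`gen`, `comm`), so `M g j = Φ (conj t)`.  For `rot`, with
`R j = Φ (conj (t j))`, take for `g` the product of the `θ_j⁻¹ (t j)` (induction over finite sets of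
indices).  For `inj`: `g` commutes with all `S j`, so with `N`, and `cent` applies. -/
theorem exists_coc {T : Type} [Group T] {G : Type v} [Group G] {N : Subgroup G} {I : Type v}
    [Finite I] [MulAction G I] (B : Blocks T N I) {m : ℕ} {A : Matrix (Fin m) (Fin m) ℤ}
    {Φ : MulAut T → Matrix (Fin m) (Fin m) ℤ} (hΦ : IsWS T A Φ) :
    ∃ M : G → I → Matrix (Fin m) (Fin m) ℤ, Coc N I A M := by
  refine ⟨fun g j => Φ (g3_φ B g j), ?_, ?_, ?_, ?_, ?_, ?_⟩
  · intro j
    show Φ (g3_φ B 1 j) = 1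
    rw [g3_φ_one, hΦ.one]
  · intro g h j
    show Φ (g3_φ B (g * h) j) = Φ (g3_φ B h j) * Φ (g3_φ B g (h • j))
    rw [g3_φ_mul, hΦ.mul]
  · intro g j
    exact hΦ.weyl _
  · intro g hg j
    obtain ⟨s, hs, h⟩ := g3_inner B g hg j
    refine ⟨B.fix g hg j, ?_⟩
    show Φ (g3_φ B g j) ∈ rotMat A
    rw [g3_φ_conj B g j (B.fix g hg j) s hs h]
    exact hΦ.rot _
  · intro R hR
    choose t ht using fun j => hΦ.onto (R j) (hR j)
    obtain ⟨g, hgN, hg⟩ := g3_exists B (fun j => ((B.θ j).symm (t j)).1)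
      (fun j => ((B.θ j).symm (t j)).2)
    refine ⟨g, hgN, fun j => ?_⟩
    show Φ (g3_φ B g j) = R j
    rw [g3_φ_conj B g j (B.fix g hgN j) _ ((B.θ j).symm (t j)).2 (hg j), ← ht j]
    congr 2
    exact (B.θ j).apply_symm_apply (t j)
  · intro g hg h1
    apply B.cent g hg
    have hcomm : ∀ j, ∀ x ∈ B.S j, g * x = x * g := by
      intro j x hx
      obtain ⟨s, hs, h⟩ := g3_inner B g hg j
      have h2 : Φ (g3_φ B g j) = 1 := h1 j
      rw [g3_φ_conj B g j (B.fix g hg j) s hs h] at h2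
      have h3 := hΦ.inj _ h2
      have h4 : s = 1 := by
        have h5 : (⟨s, hs⟩ : B.S j) = 1 := (MulEquiv.map_eq_one_iff (B.θ j)).1 h3
        exact congrArg Subtype.val h5
      have h6 := h x hx
      rw [h4] at h6
      have h7 : g * x * g⁻¹ = x := by
        rw [h6]
        group
      calc g * x = (g * x * g⁻¹) * g := by group
        _ = x * g := by rw [h7]
    intro y hy
    have hy' : y ∈ ⨆ j, B.S j := by
      rw [← B.gen]
      exact hy
    refine Subgroup.iSup_induction B.S (C := fun y => g * y = y * g) hy' ?_ ?_ ?_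
    · intro i x hx
      exact hcomm i x hx
    · rw [mul_one, one_mul]
    · intro a b ha hb
      rw [← mul_assoc, ha, mul_assoc, hb, mul_assoc]

end NR83
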