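import Pool.Agent.H.MP_83e36b_nt.nr.Defs

/-! Automorphisms of `A_n` which preserve the 3-cycles come from permutations. -/

set_option autoImplicit false

namespace NR83

open Equiv Equiv.Perm

section general

variable {α : Type*} [Fintype α] [DecidableEq α]

/-- the 3-cycle `x ↦ y ↦ z ↦ x` -/
private def AutA2_cyc (x y z : α) : Perm α := swap x y * swap y z

private theorem AutA2_cyc1 {x y z : α} (hxy : x ≠ y) (hxz : x ≠ z) :
    AutA2_cyc x y z x = y := by
  unfold AutA2_cyc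
  rw [Perm.mul_apply, swap_apply_of_ne_of_ne hxy hxz, swap_apply_left]

private theorem AutA2_cyc2 {x y z : α} (hxz : x ≠ z) (hyz : y ≠ z) :
    AutA2_cyc x y z y = z := by
  unfold AutA2_cyc
  rw [Perm.mul_apply, swap_apply_left, swap_apply_of_ne_of_ne hxz.symm hyz.symm]

private theorem AutA2_cyc3 (x y z : α) : AutA2_cyc x y z z = x := by
  unfold AutA2_cyc
  rw [Perm.mul_apply, swap_apply_right, swap_apply_right]

private theorem AutA2_cyc4 {x y z w : α} (h1 : w ≠ x) (h2 : w ≠ y) (h3 : w ≠ z) :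
    AutA2_cyc x y z w = w := by
  unfold AutA2_cyc
  rw [Perm.mul_apply, swap_apply_of_ne_of_ne h2 h3, swap_apply_of_ne_of_ne h1 h2]

private theorem AutA2_three {x y z : α} (hxy : x ≠ y) (hxz : x ≠ z) (hyz : y ≠ z) :
    (AutA2_cyc x y z).IsThreeCycle := by
  unfold AutA2_cyc
  rw [swap_comm x y]
  exact isThreeCycle_swap_mul_swap_same hxy.symm hyz hxz

private theorem AutA2_c3 {g : Perm α} (h : g.IsThreeCycle) {p : α} (hp : g p ≠ p) :
    g (g p) ≠ p ∧ g (g p) ≠ g p ∧ g (g (g p)) = p ∧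
      ∀ x, x ≠ p → x ≠ g p → x ≠ g (g p) → g x = x := by
  have h3 : g (g (g p)) = p := by
    have h4 : g ^ 3 = 1 := by rw [← h.orderOf]; exact pow_orderOf_eq_one g
    have h5 := congrArg (fun f : Perm α => f p) h4
    simpa [pow_succ] using h5
  have hs := h.support_eq_iff_mem_support.2 (mem_support.2 hp)
  refine ⟨fun h2 => hp (by rw [h2] at h3; exact h3), fun h2 => hp (g.injective h2), h3, ?_⟩
  intro x h1 h2 h4
  by_contra h5
  have h6 : x ∈ g.support := mem_support.2 h5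
  rw [hs, Finset.mem_insert, Finset.mem_insert, Finset.mem_singleton] at h6
  rcases h6 with h6 | h6 | h6
  · exact h1 h6
  · exact h2 h6
  · exact h4 h6

private theorem AutA2_eq {g : Perm α} (hg : g.IsThreeCycle) {a : α} (hne : g a ≠ a) :
    g = AutA2_cyc a (g a) (g (g a)) :=
  hg.eq_swap_mul_swap_iff_mem_support.2 (mem_support.2 hne)

/-- Two 3-cycles whose product has order two share exactly one arrow. -/
private theorem AutA2_arrow {f g : Perm α} (hf : f.IsThreeCycle) (hg : g.IsThreeCycle)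
    (h2 : (f * g) ^ 2 = 1) (h1 : f * g ≠ 1) :
    ∃ a, f a ≠ a ∧ g a = f a ∧ f (f a) ≠ g (f a) := by
  have hfg : ∀ x, f (g (f (g x))) = x := by
    intro x
    have := congrArg (fun e : Perm α => e x) h2
    simpa [pow_two] using this
  by_cases hc : ∃ p, f p ≠ p ∧ g p ≠ p
  · obtain ⟨p, hp, hp'⟩ := hc
    obtain ⟨f1, f2, f3, f4⟩ := AutA2_c3 hf hp
    obtain ⟨g1, g2, g3, g4⟩ := AutA2_c3 hg hp'
    have e1 : f (g (f p)) = g (g p) := by
      have := hfg (g (g p))
      rwa [g3] at this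
    by_cases hqu : f p = g p
    · refine ⟨p, hp, hqu.symm, fun hrv => ?_⟩
      rw [← hrv, f3] at e1
      exact g1 e1.symm
    by_cases hqv : f p = g (g p)
    · exfalso
      by_cases hur : g p = f (f p)
      · apply h1
        ext x
        show f (g x) = x
        by_cases x1 : x = p
        · rw [x1, hur, f3]
        by_cases x2 : x = g p
        · rw [x2, ← hqv, ← hur]
        by_cases x3 : x = g (g p)
        · rw [x3, g3, hqv]
        · rw [g4 x x1 x2 x3]
          exact f4 x x1 (by rw [hqv]; exact x3) (by rw [← hur]; exact x2)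
      · have hu : f (g p) = g p := f4 _ hp' (fun h => hqu h.symm) hur
        have h5 := hfg p
        rw [hu, ← hqv] at h5
        exact f1 h5
    · have gq : g (f p) = f p := g4 _ hp hqu hqv
      rw [gq] at e1
      refine ⟨f (f p), ?_, ?_, ?_⟩
      · rw [f3]
        exact fun h => f1 h.symm
      · rw [f3, e1, g3]
      · rw [f3]
        exact hqu
  · exfalso
    obtain ⟨p, hp⟩ : ∃ p, f p ≠ p := by
      by_contra hcon
      push Not at hcon
      exact hf.ne_one (Equiv.ext hcon)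
    obtain ⟨f1, f2, f3, f4⟩ := AutA2_c3 hf hp
    have e1 : g p = p := by
      by_contra h
      exact hc ⟨p, hp, h⟩
    have e2 : g (f p) = f p := by
      by_contra h
      exact hc ⟨f p, f2, h⟩
    have e3 := hfg p
    rw [e1, e2] at e3
    exact f1 e3

/-- Three of them share the same arrow. -/
private theorem AutA2_triple {f g k : Perm α} (hf : f.IsThreeCycle) (hg : g.IsThreeCycle)
    (hk : k.IsThreeCycle) {a : α} (ha : f a ≠ a) (hfg : g a = f a) (hne : f (f a) ≠ g (f a))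
    (h1 : ∃ c, f c ≠ c ∧ k c = f c ∧ f (f c) ≠ k (f c))
    (h2 : ∃ c, g c ≠ c ∧ k c = g c ∧ g (g c) ≠ k (g c)) : k a = f a := by
  obtain ⟨c1, u1, u2, -⟩ := h1
  obtain ⟨c2, v1, v2, -⟩ := h2
  have ha' : g a ≠ a := by rw [hfg]; exact ha
  obtain ⟨f1, f2, f3, f4⟩ := AutA2_c3 hf ha
  obtain ⟨g1, g2, g3, g4⟩ := AutA2_c3 hg ha'
  rw [hfg] at g1 g2 g3 g4
  by_cases w1 : c1 = a
  · rw [← w1, u2]
  by_cases w2 : c2 = a
  · rw [w2] at v2
    rw [v2, hfg]
  have hc1 : c1 = f a ∨ c1 = f (f a) := by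
    by_contra h
    push Not at h
    exact u1 (f4 c1 w1 h.1 h.2)
  have hc2 : c2 = f a ∨ c2 = g (f a) := by
    by_contra h
    push Not at h
    exact v1 (g4 c2 w2 h.1 h.2)
  rcases hc1 with rfl | rfl <;> rcases hc2 with rfl | rfl
  · exact absurd (u2.symm.trans v2) hne
  · exfalso
    -- `k b = x`, `k y = a`
    rw [g3] at v2
    have hkb : k (f a) ≠ f a := by rw [u2]; exact f2
    obtain ⟨k1, k2, k3, k4⟩ := AutA2_c3 hk hkb
    rw [u2] at k1 k2 k3 k4
    by_cases hy : g (f a) = k (f (f a))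
    · rw [hy, k3] at v2
      exact ha v2
    · have h5 := k4 _ g2 (fun h => hne h.symm) hy
      rw [v2] at h5
      exact g1 h5.symm
  · -- `k x = a`, `k b = y`
    rw [f3] at u2
    have hkx : k (f (f a)) ≠ f (f a) := by rw [u2]; exact fun h => f1 h.symm
    obtain ⟨k1, k2, k3, k4⟩ := AutA2_c3 hk hkx
    rw [u2] at k1 k2 k3 k4
    by_contra hcon
    have h5 := k4 (f a) (fun h => f2 h.symm) ha (fun h => hcon h.symm)
    rw [v2] at h5
    exact g2 h5
  · exfalso
    rw [f3] at u2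
    rw [g3] at v2
    exact hne (k.injective (u2.trans v2.symm))

private theorem AutA2_conj (π : Perm α) (x y z : α) :
    π * AutA2_cyc x y z * π⁻¹ = AutA2_cyc (π x) (π y) (π z) := by
  have h1 := mul_swap_eq_swap_mul π x y
  have h2 := mul_swap_eq_swap_mul π y z
  unfold AutA2_cyc
  calc π * (swap x y * swap y z) * π⁻¹ = (π * swap x y) * swap y z * π⁻¹ := by rw [← mul_assoc π]
    _ = swap (π x) (π y) * (π * swap y z) * π⁻¹ := by rw [h1, mul_assoc (swap (π x) (π y)) π]
    _ = swap (π x) (π y) * swap (π y) (π z) := by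
      rw [h2, mul_assoc, mul_assoc, mul_inv_cancel, mul_one]

private theorem AutA2_rot {x y z : α} (hxy : x ≠ y) (hxz : x ≠ z) (hyz : y ≠ z) :
    AutA2_cyc x y z = AutA2_cyc y z x := by
  have h1 := AutA2_three hxy hxz hyz
  have h2 : AutA2_cyc x y z y = z := AutA2_cyc2 hxz hyz
  have h3 := AutA2_eq h1 (a := y) (by rw [h2]; exact hyz.symm)
  rw [h2, AutA2_cyc3] at h3
  exact h3

private theorem AutA2_inv {x y z : α} (hxy : x ≠ y) (hxz : x ≠ z) (hyz : y ≠ z) :
    (AutA2_cyc x y z)⁻¹ = AutA2_cyc x z y := by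
  have h1 := (AutA2_three hxy hxz hyz).inv
  have h2 : (AutA2_cyc x y z)⁻¹ x = z := by
    rw [Perm.inv_eq_iff_eq, AutA2_cyc3]
  have h4 : (AutA2_cyc x y z)⁻¹ z = y := by
    rw [Perm.inv_eq_iff_eq, AutA2_cyc2 hxz hyz]
  have h3 := AutA2_eq h1 (a := x) (by rw [h2]; exact hxz.symm)
  rw [h2, h4] at h3
  exact h3

private theorem AutA2_mul {o i c d : α} (hoi : o ≠ i) (hoc : o ≠ c) (hod : o ≠ d) (hic : i ≠ c)
    (hid : i ≠ d) (hcd : c ≠ d) : (AutA2_cyc o i c * AutA2_cyc o i d) ^ 2 = 1 := by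
  have e : ∀ x, (AutA2_cyc o i c * AutA2_cyc o i d) ((AutA2_cyc o i c * AutA2_cyc o i d) x) = x := by
    intro x
    simp only [Perm.mul_apply]
    by_cases x1 : x = o
    · rw [x1, AutA2_cyc1 hoi hod, AutA2_cyc2 hoc hic, AutA2_cyc4 hoc.symm hic.symm hcd, AutA2_cyc3]
    by_cases x2 : x = i
    · rw [x2, AutA2_cyc2 hod hid, AutA2_cyc4 hod.symm hid.symm hcd.symm, AutA2_cyc3,
        AutA2_cyc1 hoi hoc]
    by_cases x3 : x = c
    · rw [x3, AutA2_cyc4 hoc.symm hic.symm hcd, AutA2_cyc3, AutA2_cyc1 hoi hod,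
        AutA2_cyc2 hoc hic]
    by_cases x4 : x = d
    · rw [x4, AutA2_cyc3, AutA2_cyc1 hoi hoc, AutA2_cyc2 hod hid,
        AutA2_cyc4 hod.symm hid.symm hcd.symm]
    · rw [AutA2_cyc4 x1 x2 x4, AutA2_cyc4 x1 x2 x3, AutA2_cyc4 x1 x2 x4, AutA2_cyc4 x1 x2 x3]
  rw [pow_two]
  exact Equiv.ext e

/-- The 3-cycles `(o i c)` generate all 3-cycles. -/
private theorem AutA2_gen {o i : α} (hoi : o ≠ i) (K : Subgroup (Perm α))
    (h0 : ∀ c, c ≠ o → c ≠ i → AutA2_cyc o i c ∈ K) {g : Perm α} (hg : g.IsThreeCycle) :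
    g ∈ K := by
  have m1 : ∀ a b, a ≠ o → a ≠ i → b ≠ o → b ≠ i → a ≠ b → AutA2_cyc i a b ∈ K := by
    intro a b ao ai bo bi ab
    have h1 := AutA2_conj (AutA2_cyc o i a) o i b
    rw [AutA2_cyc1 hoi ao.symm, AutA2_cyc2 ao.symm ai.symm, AutA2_cyc4 bo bi ab.symm] at h1
    rw [← h1]
    exact K.mul_mem (K.mul_mem (h0 a ao ai) (h0 b bo bi)) (K.inv_mem (h0 a ao ai))
  have m2 : ∀ a b, a ≠ o → a ≠ i → b ≠ o → b ≠ i → a ≠ b → AutA2_cyc o b a ∈ K := by
    intro a b ao ai bo bi ab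
    have h1 := AutA2_conj (AutA2_cyc o i a)⁻¹ o i b
    have e1 : (AutA2_cyc o i a)⁻¹ o = a := by rw [Perm.inv_eq_iff_eq, AutA2_cyc3]
    have e2 : (AutA2_cyc o i a)⁻¹ i = o := by
      rw [Perm.inv_eq_iff_eq, AutA2_cyc1 hoi ao.symm]
    have e3 : (AutA2_cyc o i a)⁻¹ b = b := by
      rw [Perm.inv_eq_iff_eq, AutA2_cyc4 bo bi ab.symm]
    rw [e1, e2, e3, AutA2_rot ao ab bo.symm] at h1
    rw [← h1]
    exact K.mul_mem (K.mul_mem (K.inv_mem (h0 a ao ai)) (h0 b bo bi))
      (K.inv_mem (K.inv_mem (h0 a ao ai)))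
  have m3 : ∀ a b c, a ≠ o → a ≠ i → b ≠ o → b ≠ i → c ≠ o → c ≠ i → a ≠ b → a ≠ c → b ≠ c →
      AutA2_cyc a b c ∈ K := by
    intro a b c ao ai bo bi co ci ab ac bc
    have h1 := AutA2_conj (AutA2_cyc o i a)⁻¹ o b c
    have e1 : (AutA2_cyc o i a)⁻¹ o = a := by rw [Perm.inv_eq_iff_eq, AutA2_cyc3]
    have e2 : (AutA2_cyc o i a)⁻¹ b = b := by
      rw [Perm.inv_eq_iff_eq, AutA2_cyc4 bo bi ab.symm]
    have e3 : (AutA2_cyc o i a)⁻¹ c = c := by
      rw [Perm.inv_eq_iff_eq, AutA2_cyc4 co ci ac.symm]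
    rw [e1, e2, e3] at h1
    rw [← h1]
    exact K.mul_mem (K.mul_mem (K.inv_mem (h0 a ao ai)) (m2 c b co ci bo bi bc.symm))
      (K.inv_mem (K.inv_mem (h0 a ao ai)))
  by_cases go : g o = o
  · by_cases gi : g i = i
    · obtain ⟨x, hx⟩ : ∃ x, g x ≠ x := by
        by_contra hcon
        push Not at hcon
        exact hg.ne_one (Equiv.ext hcon)
      obtain ⟨g1, g2, g3, g4⟩ := AutA2_c3 hg hx
      have xo : x ≠ o := by rintro rfl; exact hx go
      have xi : x ≠ i := by rintro rfl; exact hx gi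
      have yo : g x ≠ o := fun h => xo (g.injective (h.trans go.symm))
      have yi : g x ≠ i := fun h => xi (g.injective (h.trans gi.symm))
      have zo : g (g x) ≠ o := fun h => yo (g.injective (h.trans go.symm))
      have zi : g (g x) ≠ i := fun h => yi (g.injective (h.trans gi.symm))
      rw [AutA2_eq hg hx]
      exact m3 _ _ _ xo xi yo yi zo zi hx.symm g1.symm g2.symm
    · obtain ⟨g1, g2, g3, g4⟩ := AutA2_c3 hg gi
      have yo : g i ≠ o := fun h => hoi (g.injective (h.trans go.symm)).symm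
      have zo : g (g i) ≠ o := fun h => yo (g.injective (h.trans go.symm))
      rw [AutA2_eq hg gi]
      exact m1 _ _ yo gi zo g1 g2.symm
  · obtain ⟨g1, g2, g3, g4⟩ := AutA2_c3 hg go
    rw [AutA2_eq hg go]
    by_cases b1 : g o = i
    · rw [b1]
      rw [b1] at g1 g2
      exact h0 _ g1 g2
    by_cases b2 : g (g o) = i
    · rw [b2, ← AutA2_inv hoi (Ne.symm go) (Ne.symm b1)]
      exact K.inv_mem (h0 _ go b1)
    · exact m2 _ _ g1 b2 go b1 g2

private theorem AutA2_main {o i p q : α} (hoi : o ≠ i) (hop : p ≠ o) (hoq : q ≠ o) (hip : p ≠ i)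
    (hiq : q ≠ i) (hpq : p ≠ q) (φ : MulAut (alternatingGroup α))
    (h3 : ∀ t : alternatingGroup α, (t : Perm α).IsThreeCycle → (φ t : Perm α).IsThreeCycle) :
    ∃ π : Perm α, ∀ t : alternatingGroup α, (φ t : Perm α) = π * t * π⁻¹ := by
  classical
  have hT : ∀ c, c ≠ o → c ≠ i → (AutA2_cyc o i c).IsThreeCycle := fun c h1 h2 =>
    AutA2_three hoi h1.symm h2.symm
  set t : α → alternatingGroup α := fun c =>
    if h : AutA2_cyc o i c ∈ alternatingGroup α then ⟨AutA2_cyc o i c, h⟩ else 1 with ht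
  have htc : ∀ c, c ≠ o → c ≠ i → (t c : Perm α) = AutA2_cyc o i c := by
    intro c h1 h2
    have h4 : AutA2_cyc o i c ∈ alternatingGroup α := (hT c h1 h2).mem_alternatingGroup
    simp only [ht, dif_pos h4]
  set s : α → Perm α := fun c => (φ (t c) : Perm α) with hs
  have s3 : ∀ c, c ≠ o → c ≠ i → (s c).IsThreeCycle := fun c h1 h2 =>
    h3 (t c) (by rw [htc c h1 h2]; exact hT c h1 h2)
  have smul : ∀ c d, s c * s d = ((φ (t c * t d) : alternatingGroup α) : Perm α) := by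
    intro c d
    rw [map_mul]
    rfl
  have sp : ∀ c d, c ≠ o → c ≠ i → d ≠ o → d ≠ i → c ≠ d → (s c * s d) ^ 2 = 1 := by
    intro c d co ci dd di cd
    have h4 : (t c * t d) ^ 2 = 1 := by
      apply Subtype.ext
      show ((t c : Perm α) * (t d : Perm α)) ^ 2 = 1
      rw [htc c co ci, htc d dd di]
      exact AutA2_mul hoi co.symm dd.symm ci.symm di.symm cd
    rw [smul]
    have h5 := congrArg (fun z => ((φ z : alternatingGroup α) : Perm α)) h4
    simp only [map_pow, map_one] at h5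
    exact h5
  have sn : ∀ c d, c ≠ o → c ≠ i → d ≠ o → d ≠ i → s c * s d ≠ 1 := by
    intro c d co ci dd di h4
    rw [smul] at h4
    have h5 : φ (t c * t d) = 1 := Subtype.ext h4
    have h6 : t c * t d = 1 := φ.injective (by rw [h5, map_one])
    have h7 : (t c : Perm α) * (t d : Perm α) = 1 := congrArg Subtype.val h6
    rw [htc c co ci, htc d dd di] at h7
    have h8 := congrArg (fun z : Perm α => z o) h7
    simp only [Perm.mul_apply, Perm.one_apply] at h8
    rw [AutA2_cyc1 hoi dd.symm, AutA2_cyc2 co.symm ci.symm] at h8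
    exact co h8
  have sinj : ∀ c d, c ≠ o → c ≠ i → d ≠ o → d ≠ i → s c = s d → c = d := by
    intro c d co ci dd di h4
    have h5 : t c = t d := φ.injective (Subtype.ext h4)
    have h6 : (t c : Perm α) = (t d : Perm α) := congrArg Subtype.val h5
    rw [htc c co ci, htc d dd di] at h6
    have h8 : AutA2_cyc o i c i = AutA2_cyc o i d i := congrArg (fun z : Perm α => z i) h6
    rw [AutA2_cyc2 co.symm ci.symm, AutA2_cyc2 dd.symm di.symm] at h8
    exact h8
  obtain ⟨a, ha, hab, hne⟩ := AutA2_arrow (s3 p hop hip) (s3 q hoq hiq)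
    (sp p q hop hip hoq hiq hpq) (sn p q hop hip hoq hiq)
  have harr : ∀ c, c ≠ o → c ≠ i → s c a = s p a := by
    intro c co ci
    by_cases c1 : c = p
    · rw [c1]
    by_cases c2 : c = q
    · rw [c2, hab]
    exact AutA2_triple (s3 p hop hip) (s3 q hoq hiq) (s3 c co ci) ha hab hne
      (AutA2_arrow (s3 p hop hip) (s3 c co ci) (sp p c hop hip co ci (Ne.symm c1))
        (sn p c hop hip co ci))
      (AutA2_arrow (s3 q hoq hiq) (s3 c co ci) (sp q c hoq hiq co ci (Ne.symm c2))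
        (sn q c hoq hiq co ci))
  set b : α := s p a with hb
  have hsb : ∀ c, c ≠ o → c ≠ i → s c b ≠ a ∧ s c b ≠ b ∧ s c = AutA2_cyc a b (s c b) := by
    intro c co ci
    have h4 := harr c co ci
    have h5 : s c a ≠ a := by rw [h4]; exact ha
    obtain ⟨k1, k2, -, -⟩ := AutA2_c3 (s3 c co ci) h5
    have h6 := AutA2_eq (s3 c co ci) h5
    rw [h4] at k1 k2 h6
    exact ⟨k1, k2, h6⟩
  set F : α → α := fun c => if c = o then a else if c = i then b else s c b with hF
  have F1 : F o = a := by simp only [hF, if_true]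
  have F2 : F i = b := by simp only [hF, if_neg hoi.symm, if_true]
  have F3 : ∀ c, c ≠ o → c ≠ i → F c = s c b := by
    intro c co ci
    simp only [hF, if_neg co, if_neg ci]
  have hinj : Function.Injective F := by
    intro c d hcd
    by_cases c1 : c = o
    · by_cases d1 : d = o
      · rw [c1, d1]
      by_cases d2 : d = i
      · rw [c1, d2, F1, F2] at hcd
        exact absurd hcd.symm ha
      · rw [c1, F1, F3 d d1 d2] at hcd
        exact absurd hcd.symm (hsb d d1 d2).1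
    by_cases c2 : c = i
    · by_cases d1 : d = o
      · rw [c2, d1, F1, F2] at hcd
        exact absurd hcd ha
      by_cases d2 : d = i
      · rw [c2, d2]
      · rw [c2, F2, F3 d d1 d2] at hcd
        exact absurd hcd.symm (hsb d d1 d2).2.1
    · rw [F3 c c1 c2] at hcd
      by_cases d1 : d = o
      · rw [d1, F1] at hcd
        exact absurd hcd (hsb c c1 c2).1
      by_cases d2 : d = i
      · rw [d2, F2] at hcd
        exact absurd hcd (hsb c c1 c2).2.1
      · rw [F3 d d1 d2] at hcd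
        apply sinj c d c1 c2 d1 d2
        rw [(hsb c c1 c2).2.2, (hsb d d1 d2).2.2, hcd]
  set π : Perm α := Equiv.ofBijective F (Finite.injective_iff_bijective.1 hinj) with hπ
  have hπF : ∀ x, π x = F x := fun x => rfl
  have hconj : ∀ c, c ≠ o → c ≠ i → s c = π * AutA2_cyc o i c * π⁻¹ := by
    intro c co ci
    rw [AutA2_conj, hπF, hπF, hπF, F1, F2, F3 c co ci]
    exact (hsb c co ci).2.2
  let K : Subgroup (Perm α) :=
    { carrier := {x | ∃ h : x ∈ alternatingGroup α, (φ ⟨x, h⟩ : Perm α) = π * x * π⁻¹}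
      mul_mem' := by
        rintro x y ⟨hx, hx'⟩ ⟨hy, hy'⟩
        refine ⟨Subgroup.mul_mem _ hx hy, ?_⟩
        have h4 : (⟨x * y, Subgroup.mul_mem _ hx hy⟩ : alternatingGroup α) = ⟨x, hx⟩ * ⟨y, hy⟩ := rfl
        rw [h4, map_mul]
        show (φ ⟨x, hx⟩ : Perm α) * (φ ⟨y, hy⟩ : Perm α) = _
        rw [hx', hy']
        group
      one_mem' := by
        refine ⟨Subgroup.one_mem _, ?_⟩
        have h4 : (⟨1, Subgroup.one_mem _⟩ : alternatingGroup α) = 1 := rfl
        rw [h4, map_one, mul_one, mul_inv_cancel]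
        rfl
      inv_mem' := by
        rintro x ⟨hx, hx'⟩
        refine ⟨Subgroup.inv_mem _ hx, ?_⟩
        have h4 : (⟨x⁻¹, Subgroup.inv_mem _ hx⟩ : alternatingGroup α) = ⟨x, hx⟩⁻¹ := rfl
        rw [h4, map_inv]
        show ((φ ⟨x, hx⟩ : Perm α))⁻¹ = _
        rw [hx']
        group }
  have hK0 : ∀ c, c ≠ o → c ≠ i → AutA2_cyc o i c ∈ K := by
    intro c co ci
    have h4 : AutA2_cyc o i c ∈ alternatingGroup α := (hT c co ci).mem_alternatingGroup
    refine ⟨h4, ?_⟩
    rw [← hconj c co ci]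
    simp only [hs, ht, dif_pos h4]
  have hK : alternatingGroup α ≤ K := by
    rw [← closure_three_cycles_eq_alternating, Subgroup.closure_le]
    intro g hg
    exact AutA2_gen hoi K hK0 hg
  refine ⟨π, fun x => ?_⟩
  obtain ⟨h4, h5⟩ := hK x.2
  exact h5

end general

/-- Proof: for `c ≠ 0, 1` let `s_c` be the image of the 3-cycle `(0 1 c)`.  For `c ≠ d` the product
`(0 1 c)(0 1 d) = (0 c)(1 d)` has order 2, so `(s_c s_d)^2 = 1 ≠ s_c s_d`; for two 3-cycles this
means that their supports share exactly two points `a, b` and that both map `a` to `b` (or both `b`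
to `a`).  For three of them (`n ≥ 5`) it is the same arrow `a → b`.  So `s_c = (a b π(c))`; put
`π(0) = a`, `π(1) = b`.  The `(0 1 c)` generate `A_n`: `(1 a b) = (0 1 a)(0 1 b)(0 1 a)⁻¹`,
`(0 b a) = (0 1 a)⁻¹(0 1 b)(0 1 a)`, `(a b c) = (0 1 a)⁻¹(0 b c)(0 1 a)` and
`Equiv.Perm.closure_three_cycles_eq_alternating`. -/
theorem autA_perm {n : ℕ} (hn : 5 ≤ n) (φ : MulAut (alternatingGroup (Fin n)))
    (h3 : ∀ t : alternatingGroup (Fin n), (t : Equiv.Perm (Fin n)).IsThreeCycle →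
      (φ t : Equiv.Perm (Fin n)).IsThreeCycle) :
    ∃ π : Equiv.Perm (Fin n), ∀ t : alternatingGroup (Fin n),
      (φ t : Equiv.Perm (Fin n)) = π * t * π⁻¹ := by
  have hne : ∀ a b : ℕ, (ha : a < n) → (hb : b < n) → a ≠ b →
      (⟨a, ha⟩ : Fin n) ≠ ⟨b, hb⟩ := by
    intro a b ha hb hab h
    exact hab (congrArg Fin.val h)
  exact AutA2_main (o := ⟨0, by omega⟩) (i := ⟨1, by omega⟩) (p := ⟨2, by omega⟩)
    (q := ⟨3, by omega⟩) (hne _ _ _ _ (by norm_num)) (hne _ _ _ _ (by norm_num))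
    (hne _ _ _ _ (by norm_num)) (hne _ _ _ _ (by norm_num)) (hne _ _ _ _ (by norm_num))
    (hne _ _ _ _ (by norm_num)) φ h3

end NR83
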