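import Pool.Agent.H.MP_83e36b_nt.nr.Base

/-! The reflection representation of the symmetric group in the basis of simple roots. -/

set_option autoImplicit false

namespace NR83

open CM83

/-- the matrix of `π` on the simple roots `α_i = e_i - e_{i+1}`: `π α_i = ∑ P(π)_{il} α_l` -/
def pm {m : ℕ} (π : Equiv.Perm (Fin (m + 1))) : Matrix (Fin m) (Fin m) ℤ :=
  Matrix.of fun i l => (if π i.castSucc ≤ l.castSucc then 1 else 0) -
    (if π i.succ ≤ l.castSucc then 1 else 0)

private theorem PM_apply {m : ℕ} (π : Equiv.Perm (Fin (m + 1))) (i l : Fin m) :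
    pm π i l = (if π i.castSucc ≤ l.castSucc then 1 else 0) -
      (if π i.succ ≤ l.castSucc then 1 else 0) := rfl

private theorem PM_tele {m : ℕ} (f : Fin (m + 1) → ℤ) (a : Fin (m + 1)) :
    ∑ j : Fin m, (if a ≤ j.castSucc then 1 else 0) * (f j.castSucc - f j.succ)
      = f a - f (Fin.last m) := by
  induction m with
  | zero =>
    rw [Finset.univ_eq_empty, Finset.sum_empty, Subsingleton.elim (α := Fin 1) a (Fin.last 0), sub_self]
  | succ m ih =>
    rw [Fin.sum_univ_castSucc]
    induction a using Fin.lastCases with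
    | last =>
      rw [Finset.sum_eq_zero, if_neg, sub_self, zero_mul, zero_add]
      · exact not_le.2 (Fin.castSucc_lt_last _)
      · intro j _
        rw [if_neg (not_le.2 (Fin.castSucc_lt_last _)), zero_mul]
    | cast b =>
      have h1 := ih (fun x => f x.castSucc) b
      have h2 : ∑ j : Fin m, (if b.castSucc ≤ j.castSucc.castSucc then (1 : ℤ) else 0)
          * (f j.castSucc.castSucc - f j.castSucc.succ)
          = ∑ j : Fin m, (if b ≤ j.castSucc then 1 else 0)
            * (f j.castSucc.castSucc - f j.succ.castSucc) := by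
        refine Finset.sum_congr rfl fun j _ => ?_
        rw [Fin.succ_castSucc]
        simp only [Fin.castSucc_le_castSucc_iff]
      rw [h2, h1, if_pos (Fin.castSucc_le_castSucc_iff.2 (Fin.le_last _)), one_mul,
        Fin.succ_last]
      ring

theorem pm_one {m : ℕ} : pm (1 : Equiv.Perm (Fin (m + 1))) = 1 := by
  ext i l
  rw [PM_apply, Matrix.one_apply, Equiv.Perm.one_apply, Equiv.Perm.one_apply]
  simp only [Fin.le_def, Fin.ext_iff, Fin.val_castSucc, Fin.val_succ]
  split_ifs <;> omega

theorem pm_mul {m : ℕ} (π τ : Equiv.Perm (Fin (m + 1))) : pm (π * τ) = pm τ * pm π := by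
  ext i l
  rw [Matrix.mul_apply, PM_apply, Equiv.Perm.mul_apply, Equiv.Perm.mul_apply]
  have h : ∀ a : Fin (m + 1), ∑ j : Fin m, (if a ≤ j.castSucc then 1 else 0) * pm π j l
      = (if π a ≤ l.castSucc then 1 else 0) -
        (if π (Fin.last m) ≤ l.castSucc then 1 else 0) := fun a =>
    PM_tele (fun x => if π x ≤ l.castSucc then 1 else 0) a
  have h2 : ∑ j, pm τ i j * pm π j l
      = ∑ j : Fin m, (if τ i.castSucc ≤ j.castSucc then 1 else 0) * pm π j l
        - ∑ j : Fin m, (if τ i.succ ≤ j.castSucc then 1 else 0) * pm π j l := by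
    rw [← Finset.sum_sub_distrib]
    refine Finset.sum_congr rfl fun j _ => ?_
    rw [PM_apply τ, sub_mul]
  rw [h2, h, h]
  ring

private theorem PM_row {m : ℕ} {a b : Fin (m + 1)} {i : Fin m}
    (h : ∀ l : Fin m, ((if a ≤ l.castSucc then 1 else 0) - (if b ≤ l.castSucc then 1 else 0) : ℤ)
      = if i = l then 1 else 0) : a = i.castSucc ∧ b = i.succ := by
  have ha := a.isLt
  have hb := b.isLt
  have hi := i.isLt
  have h0 := h i
  simp only [Fin.le_def, Fin.val_castSucc, if_true] at h0
  have h1 : a.val ≤ i.val ∧ i.val < b.val := by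
    split_ifs at h0 <;> omega
  have h2 : a.val = i.val := by
    by_contra hne
    have h3 := h ⟨a.val, by omega⟩
    simp only [Fin.le_def, Fin.val_castSucc, Fin.ext_iff] at h3
    split_ifs at h3 <;> omega
  have h4 : b.val = i.val + 1 := by
    by_contra hne
    have h3 := h ⟨i.val + 1, by omega⟩
    simp only [Fin.le_def, Fin.val_castSucc, Fin.ext_iff] at h3
    split_ifs at h3 <;> omega
  exact ⟨Fin.ext h2, Fin.ext h4⟩

/-- for `m ≥ 2` (also for `m = 1`, false for none) the representation is faithful -/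
theorem pm_inj {m : ℕ} (hm : 2 ≤ m) (π : Equiv.Perm (Fin (m + 1))) (h : pm π = 1) : π = 1 := by
  have key : ∀ i : Fin m, π i.castSucc = i.castSucc ∧ π i.succ = i.succ := by
    intro i
    refine PM_row fun l => ?_
    have := congrFun (congrFun h i) l
    rwa [PM_apply, Matrix.one_apply] at this
  obtain ⟨k, rfl⟩ : ∃ k, m = k + 1 := ⟨m - 1, by omega⟩
  refine Equiv.ext fun x => ?_
  rw [Equiv.Perm.one_apply]
  induction x using Fin.lastCases with
  | last =>
    have := (key (Fin.last k)).2
    rwa [Fin.succ_last] at this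
  | cast x => exact (key x).1

theorem pm_refl {m : ℕ} (l : Fin m) :
    pm (Equiv.swap l.castSucc l.succ) = reflMat (CartanMatrix.A m) l := by
  ext i j
  rw [PM_apply]
  simp only [reflMat, CartanMatrix.A, Matrix.of_apply, Equiv.swap_apply_def, Fin.le_def,
    Fin.ext_iff, Fin.val_castSucc, Fin.val_succ, apply_ite Fin.val]
  split_ifs <;> omega

/-- by `Equiv.Perm.mclosure_swap_castSucc_succ` -/
theorem pm_weyl {m : ℕ} (π : Equiv.Perm (Fin (m + 1))) : pm π ∈ weylMat (CartanMatrix.A m) := by
  have h : π ∈ Submonoid.closure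
      (Set.range fun i : Fin m => Equiv.swap i.castSucc i.succ) := by
    rw [Equiv.Perm.mclosure_swap_castSucc_succ]
    exact Submonoid.mem_top π
  induction h using Submonoid.closure_induction with
  | mem x hx =>
    obtain ⟨l, rfl⟩ := hx
    change pm (Equiv.swap l.castSucc l.succ) ∈ _
    rw [pm_refl]
    exact Submonoid.subset_closure ⟨l, rfl⟩
  | one =>
    rw [pm_one]
    exact one_mem _
  | mul x y _ _ hx hy =>
    rw [pm_mul]
    exact mul_mem hy hx

private theorem PM_sign {m : ℕ} (l : Fin m) :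
    Equiv.Perm.sign (Equiv.swap l.castSucc l.succ) = -1 :=
  Equiv.Perm.sign_swap (Fin.castSucc_lt_succ).ne

theorem pm_rot {m : ℕ} (π : Equiv.Perm (Fin (m + 1))) (h : Equiv.Perm.sign π = 1) :
    pm π ∈ rotMat (CartanMatrix.A m) := by
  have hπ : π ∈ Submonoid.closure
      (Set.range fun i : Fin m => Equiv.swap i.castSucc i.succ) := by
    rw [Equiv.Perm.mclosure_swap_castSucc_succ]
    exact Submonoid.mem_top π
  have key : (Equiv.Perm.sign π = 1 → pm π ∈ rotMat (CartanMatrix.A m)) ∧
      (Equiv.Perm.sign π = -1 → ∀ k, pm π * reflMat (CartanMatrix.A m) k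
        ∈ rotMat (CartanMatrix.A m)) := by
    clear h
    induction hπ using Submonoid.closure_induction_left with
    | one =>
      refine ⟨fun _ => ?_, fun h => ?_⟩
      · rw [pm_one]
        exact one_mem _
      · rw [Equiv.Perm.sign_one] at h
        exact absurd h (by decide)
    | mul_left x hx y hy ih =>
      obtain ⟨l, rfl⟩ := hx
      change (Equiv.Perm.sign (Equiv.swap l.castSucc l.succ * y) = 1 →
          pm (Equiv.swap l.castSucc l.succ * y) ∈ rotMat (CartanMatrix.A m)) ∧
        (Equiv.Perm.sign (Equiv.swap l.castSucc l.succ * y) = -1 →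
          ∀ k, pm (Equiv.swap l.castSucc l.succ * y) * reflMat (CartanMatrix.A m) k
            ∈ rotMat (CartanMatrix.A m))
      rw [Equiv.Perm.sign_mul, PM_sign, pm_mul, pm_refl]
      refine ⟨fun h => ?_, fun h k => ?_⟩
      · refine ih.2 ?_ l
        rw [neg_one_mul] at h
        exact neg_eq_iff_eq_neg.1 h
      · rw [neg_one_mul] at h
        rw [mul_assoc]
        exact mul_mem (ih.1 (neg_injective h)) (Submonoid.subset_closure ⟨l, k, rfl⟩)
  exact key.1 h

theorem pm_onto {m : ℕ} (R : Matrix (Fin m) (Fin m) ℤ) (hR : R ∈ rotMat (CartanMatrix.A m)) :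
    ∃ π : Equiv.Perm (Fin (m + 1)), Equiv.Perm.sign π = 1 ∧ pm π = R := by
  unfold rotMat at hR
  induction hR using Submonoid.closure_induction with
  | mem x hx =>
    obtain ⟨i, j, rfl⟩ := hx
    refine ⟨Equiv.swap j.castSucc j.succ * Equiv.swap i.castSucc i.succ, ?_, ?_⟩
    · rw [Equiv.Perm.sign_mul, PM_sign, PM_sign]
      decide
    · rw [pm_mul, pm_refl, pm_refl]
  | one => exact ⟨1, Equiv.Perm.sign_one, pm_one⟩
  | mul x y _ _ hx hy =>
    obtain ⟨π, h1, rfl⟩ := hx
    obtain ⟨τ, h2, rfl⟩ := hy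
    refine ⟨τ * π, ?_, pm_mul τ π⟩
    rw [Equiv.Perm.sign_mul, h1, h2, one_mul]

end NR83
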