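import Pool.Agent.H.MP_83e36b_nt.nr.AutA1
import Pool.Agent.H.MP_83e36b_nt.nr.AutA2
import Pool.Agent.H.MP_83e36b_nt.nr.PM
import Pool.Agent.H.MP_83e36b_nt.cm.Final

/-! The action of the automorphisms of `A_n` through the Weyl group `S_n`. -/

set_option autoImplicit false

namespace NR83

open CM83

theorem phi_cent {n : ℕ} (hn : 5 ≤ n) (σ : Equiv.Perm (Fin n))
    (h : ∀ t : alternatingGroup (Fin n), σ * t = t * σ) : σ = 1 := by
  classical
  by_contra hne
  obtain ⟨a, ha⟩ : ∃ a, σ a ≠ a := by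
    by_contra hc
    push Not at hc
    exact hne (Equiv.ext hc)
  obtain ⟨c, hc⟩ : ∃ c, c ∉ ({a, σ a} : Finset (Fin n)) := by
    by_contra hc
    push Not at hc
    have := Finset.card_le_card (fun x _ => hc x : (Finset.univ : Finset (Fin n)) ⊆ {a, σ a})
    have h2 := Finset.card_le_two (a := a) (b := σ a)
    rw [Finset.card_univ, Fintype.card_fin] at this
    omega
  obtain ⟨d, hd⟩ : ∃ d, d ∉ ({a, σ a, c} : Finset (Fin n)) := by
    by_contra hc
    push Not at hc
    have := Finset.card_le_card (fun x _ => hc x : (Finset.univ : Finset (Fin n)) ⊆ {a, σ a, c})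
    have h2 := Finset.card_le_three (a := a) (b := σ a) (c := c)
    rw [Finset.card_univ, Fintype.card_fin] at this
    omega
  simp only [Finset.mem_insert, Finset.mem_singleton, not_or] at hc hd
  have h3 : (Equiv.swap (σ a) c * Equiv.swap (σ a) d).IsThreeCycle :=
    Equiv.Perm.isThreeCycle_swap_mul_swap_same (Ne.symm hc.2) (Ne.symm hd.2.1) (Ne.symm hd.2.2)
  have h4 := h ⟨_, h3.mem_alternatingGroup⟩
  have h5 := congrArg (fun f : Equiv.Perm (Fin n) => f a) h4
  simp only [Equiv.Perm.mul_apply] at h5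
  rw [Equiv.swap_apply_of_ne_of_ne (Ne.symm ha) (Ne.symm hd.1),
    Equiv.swap_apply_of_ne_of_ne (Ne.symm ha) (Ne.symm hc.1), Equiv.swap_apply_left,
    Equiv.swap_apply_of_ne_of_ne hd.2.1 hd.2.2] at h5
  exact hd.2.1 h5.symm

theorem exists_Phi {n : ℕ} (hn : 5 ≤ n) (h6 : n ≠ 6) :
    ∃ (m : ℕ) (A : Matrix (Fin m) (Fin m) ℤ)
      (Φ : MulAut (alternatingGroup (Fin n)) → Matrix (Fin m) (Fin m) ℤ),
      NoE8 A ∧ IsWS (alternatingGroup (Fin n)) A Φ := by
  obtain ⟨m, rfl⟩ : ∃ m, n = m + 1 := ⟨n - 1, by omega⟩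
  have hex : ∀ φ : MulAut (alternatingGroup (Fin (m + 1))), ∃ π : Equiv.Perm (Fin (m + 1)),
      ∀ t : alternatingGroup (Fin (m + 1)), (φ t : Equiv.Perm (Fin (m + 1))) = π * t * π⁻¹ :=
    fun φ => autA_perm hn φ (autA_three hn h6 φ)
  choose pp hpp using hex
  have huniq : ∀ (φ : MulAut (alternatingGroup (Fin (m + 1)))) (π : Equiv.Perm (Fin (m + 1))),
      (∀ t : alternatingGroup (Fin (m + 1)), (φ t : Equiv.Perm (Fin (m + 1))) = π * t * π⁻¹) →
      pp φ = π := by
    intro φ π hπ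
    have h1 : π⁻¹ * pp φ = 1 := by
      apply phi_cent hn
      intro t
      have h2 := (hpp φ t).symm.trans (hπ t)
      calc π⁻¹ * pp φ * t = π⁻¹ * (pp φ * t * (pp φ)⁻¹) * pp φ := by group
        _ = π⁻¹ * (π * t * π⁻¹) * pp φ := by rw [h2]
        _ = t * (π⁻¹ * pp φ) := by group
    rw [inv_mul_eq_one] at h1
    exact h1.symm
  have hconj : ∀ t, pp (MulAut.conj t) = t := by
    intro t
    apply huniq
    intro s
    rfl
  refine ⟨m, CartanMatrix.A m, fun φ => pm (pp φ), NoE8.A (by omega), ?_, ?_, ?_, ?_, ?_, ?_⟩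
  · change pm (pp 1) = 1
    rw [huniq 1 1 (fun t => by simp), pm_one]
  · intro φ ψ
    rw [huniq (φ * ψ) (pp φ * pp ψ) (fun t => by
      rw [MulAut.mul_apply, hpp φ, hpp ψ]
      group), pm_mul]
  · intro φ
    exact pm_weyl _
  · intro t
    rw [hconj]
    exact pm_rot _ t.2
  · intro R hR
    obtain ⟨π, hπ, hπR⟩ := pm_onto R hR
    refine ⟨⟨π, hπ⟩, ?_⟩
    rw [hconj, hπR]
  · intro t ht
    change pm (pp (MulAut.conj t)) = 1 at ht
    rw [hconj] at ht
    exact Subtype.ext (pm_inj (by omega) _ ht)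

end NR83
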