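import Pool.Agent.H.MP_83e36b_nt.nr.SCore
import Pool.Agent.H.MP_83e36b_nt.nr.TDefs
import Pool.Agent.H.MP_83e36b_nt.nr.Phi
import Pool.Agent.H.MP_83e36b_nt.nr.Grp2
import Pool.Agent.H.MP_83e36b_nt.nr.Grp3

/-! Semilinear actions modulo the normal subgroups of Weyl towers. -/

set_option autoImplicit false

namespace NR83

open CM83

universe u v w

theorem fixF_comp {k : Type u} [Field k] {E : Type w} [Field E] [Algebra k E] {G : Type v}
    [Group G] {H : Type v} [Group H] (α : G →* (E ≃ₐ[k] E)) (f : H →* G)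
    (hf : Function.Surjective f) : fixF (α.comp f) = fixF α := by
  ext x
  rw [mem_fixF, mem_fixF]
  constructor
  · intro h g
    obtain ⟨g', rfl⟩ := hf g
    exact h g'
  · intro h g
    exact h _

theorem SemiLin.comp {k : Type u} [Field k] {K : Type w} [Field K] [Algebra k K]
    {G : Type v} [Group G] {H : Type v} [Group H] {α : G →* (K ≃ₐ[k] K)} {d : ℕ}
    {β : G →* (RF K d ≃ₐ[k] RF K d)} (hβ : SemiLin α β) (f : H →* G)
    (hf : Function.Injective f) : SemiLin (α.comp f) (β.comp f) :=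
  ⟨fun g a => hβ.coeff (f g) a, fun g i => hβ.lin (f g) i, hβ.inj.comp hf⟩

/-- the statement of the reduction theorem for `G` and `N` -/
def Red (k : Type u) [Field k] (K : Type w) [Field K] [Algebra k K] (G : Type v) [Group G]
    (N : Subgroup G) [N.Normal] : Prop :=
  ∀ (α : G ⧸ N →* (K ≃ₐ[k] K)) (d e : ℕ) (β : G →* (RF K d ≃ₐ[k] RF K d))
    (_ : SemiLin (α.comp (QuotientGroup.mk' N)) β) (γ : G ⧸ N →* (RF K e ≃ₐ[k] RF K e))
    (_ : SemiLin α γ), StablyIso k (fixF β) (fixF γ)

/-- the case of the trivial normal subgroup -/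
theorem red_bot {k : Type u} [Field k] [CharZero k] {K : Type w} [Field K] [Algebra k K]
    {G : Type v} [Group G] [Finite G] (N : Subgroup G) [N.Normal] (hN : N = ⊥) : Red k K G N := by
  let _inst : MulAction G PEmpty.{v+1} :=
    { smul := fun _ x => x
      one_smul := fun x => rfl
      mul_smul := fun _ _ x => rfl }
  intro α d e β hβ γ hγ
  refine semi_step N (I := PEmpty.{v+1}) (NoE8.A (n := 1) le_rfl)
    (M := fun _ _ => 1) ⟨fun j => j.elim, fun _ _ j => j.elim, fun _ j => j.elim,
      fun _ _ j => j.elim, fun R _ => ⟨1, N.one_mem, fun j => j.elim⟩, fun g hg _ => ?_⟩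
    α β hβ γ hγ
  rw [hN] at hg
  exact hg

/-- two steps -/
theorem red_chain {k : Type u} [Field k] [CharZero k] {K : Type w} [Field K] [Algebra k K]
    {G : Type v} [Group G] [Finite G] (N N₁ : Subgroup G) [N.Normal] [N₁.Normal] (hle : N₁ ≤ N)
    [hNn' : (N.map (QuotientGroup.mk' N₁)).Normal]
    (h1 : Red k K G N₁) (h2 : Red k K (G ⧸ N₁) (N.map (QuotientGroup.mk' N₁))) :
    Red k K G N := by
  intro α d e β hβ γ hγ
  let ε : (G ⧸ N₁) ⧸ (N.map (QuotientGroup.mk' N₁)) ≃* G ⧸ N :=
    QuotientGroup.quotientQuotientEquivQuotient N₁ N hle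
  let α₂ : (G ⧸ N₁) ⧸ (N.map (QuotientGroup.mk' N₁)) →* (K ≃ₐ[k] K) :=
    α.comp ε.toMonoidHom
  let α₁ : G ⧸ N₁ →* (K ≃ₐ[k] K) :=
    α₂.comp (QuotientGroup.mk' (N.map (QuotientGroup.mk' N₁)))
  have hα₁ : α₁.comp (QuotientGroup.mk' N₁) = α.comp (QuotientGroup.mk' N) := by
    ext g a
    rfl
  obtain ⟨f, δ, hδ⟩ := exists_semi α₁
  have h3 := h1 α₁ d f β (by rw [hα₁]; exact hβ) δ hδ
  have h4 := h2 α₂ f e δ hδ (γ.comp ε.toMonoidHom) (hγ.comp ε.toMonoidHom ε.injective)
  rw [fixF_comp γ ε.toMonoidHom ε.surjective] at h4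
  exact h3.trans h4

theorem red_alt_aux {k : Type u} [Field k] [CharZero k] {K : Type w} [Field K] [Algebra k K]
    (c : ℕ) : ∀ {G : Type v} [Group G] [Finite G] (N : Subgroup G) [N.Normal]
    (_ : Nat.card N = c) (_ : AltSeries N), Red k K G N := by
  induction c using Nat.strong_induction_on with
  | _ c ih =>
    intro G _ _ N hNn hc hN
    by_cases hN0 : N = ⊥
    · exact red_bot N hN0
    obtain ⟨N₁, n, I, hI, hGI, hN₁, hle, hN₁0, hn5, hn6, ⟨B⟩⟩ := exists_blocks N hNn hN0 hN
    obtain ⟨m, A, Φ, hA, hΦ⟩ := exists_Phi hn5 hn6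
    obtain ⟨M, hM⟩ := exists_coc B hΦ
    -- the quotient
    have hNn' : (N.map (QuotientGroup.mk' N₁)).Normal :=
      hNn.map _ (QuotientGroup.mk'_surjective N₁)
    have hsurj := (QuotientGroup.mk' N₁).subgroupMap_surjective N
    have hN' : AltSeries (N.map (QuotientGroup.mk' N₁)) :=
      hN.of_surjective ((QuotientGroup.mk' N₁).subgroupMap N) hsurj
    have hcard : Nat.card (N.map (QuotientGroup.mk' N₁)) < c := by
      rw [← hc]
      by_contra hlt
      push Not at hlt
      have hbij := hsurj.bijective_of_nat_card_le hlt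
      obtain ⟨⟨x, hx⟩, hx1⟩ := Subgroup.ne_bot_iff_exists_ne_one.1 hN₁0
      have h2 : (QuotientGroup.mk' N₁).subgroupMap N ⟨x, hle hx⟩ = 1 := by
        apply Subtype.ext
        exact (QuotientGroup.eq_one_iff x).2 hx
      have h3 : (⟨x, hle hx⟩ : N) = 1 := hbij.1 (by rw [h2, map_one])
      have h4 : x = 1 := congrArg (fun z : N => (z : G)) h3
      apply hx1
      apply Subtype.ext
      exact h4
    exact red_chain N N₁ hle (fun α d e β hβ γ hγ => semi_step N₁ hA hM α β hβ γ hγ)
      (ih _ hcard (N.map (QuotientGroup.mk' N₁)) rfl hN')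

/-- **Reduction modulo normal subgroups with alternating composition factors.** -/
theorem red_alt {k : Type u} [Field k] [CharZero k] {K : Type w} [Field K] [Algebra k K]
    {G : Type v} [Group G] [Finite G] (N : Subgroup G) [N.Normal] (hN : AltSeries N) :
    Red k K G N :=
  red_alt_aux _ N rfl hN

/-- **Reduction modulo the normal subgroups of Weyl towers.** -/
theorem red_tower {k : Type u} [Field k] [CharZero k] {K : Type w} [Field K] [Algebra k K]
    {G : Type v} [Group G] {N : Subgroup G} (h : Tower G N) :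
    ∀ [Finite G] [N.Normal], Red k K G N := by
  induction h with
  | bot G =>
    intro _ _
    exact red_bot ⊥ rfl
  | alt G N N₁ hle h hT ih =>
    intro hG hN
    have hN' : (N.map (QuotientGroup.mk' N₁)).Normal :=
      hN.map _ (QuotientGroup.mk'_surjective N₁)
    exact red_chain N N₁ hle (red_alt N₁ h) ih
  | weyl G N N₁ hle I m A hA M hM hT ih =>
    intro hG hN
    have hN' : (N.map (QuotientGroup.mk' N₁)).Normal :=
      hN.map _ (QuotientGroup.mk'_surjective N₁)
    exact red_chain N N₁ hle (fun α d e β hβ γ hγ => semi_step N₁ hA hM α β hβ γ hγ) ih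

/-- a group with alternating composition factors is a tower -/
theorem Tower.of_alt {G : Type v} [Group G] (N : Subgroup G) [N.Normal] (h : AltSeries N) :
    Tower G N := by
  refine Tower.alt G N N le_rfl h ?_
  have h1 : N.map (QuotientGroup.mk' N) = ⊥ := by
    rw [Subgroup.map_eq_bot_iff, QuotientGroup.ker_mk']
  rw [h1]
  exact Tower.bot _

end NR83
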