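import Pool.Agent.H.MP_83e36b_nt.nr.Base

/-! Semilinear actions: definition. -/

set_option autoImplicit false

namespace NR83

open CM83

universe u v w

/-- The group `G` acts by `β` on the field `K(x_1, ..., x_d)`, over its action `α` on the field
`K` of coefficients, semilinearly (each variable is mapped to a linear combination of the
variables with coefficients in `K`) and faithfully. -/
structure SemiLin {k : Type u} [Field k] {K : Type v} [Field K] [Algebra k K] {G : Type w}
    [Group G] (α : G →* (K ≃ₐ[k] K)) {d : ℕ} (β : G →* (RF K d ≃ₐ[k] RF K d)) : Prop where
  coeff : ∀ g a, β g (algebraMap K (RF K d) a) = algebraMap K (RF K d) (α g a)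
  lin : ∀ g i, β g (xv K i) ∈ Submodule.span K (Set.range (xv K : Fin d → RF K d))
  inj : Function.Injective β

end NR83
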