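import Pool.Agent.H.MP_83e36b_nt.nr.PT
import Pool.Agent.H.MP_83e36b_nt.nr.SDefs

/-! Semilinear actions on rational function fields. -/

set_option autoImplicit false

namespace NR83

open CM83

universe u v w x y z

/-- coefficients of linear combinations of the variables are unique -/
theorem semi_uniq {K : Type v} [Field K] {d : ℕ} {c c' : Fin d → K}
    (h : ∑ j, algebraMap K (RF K d) (c j) * xv K j =
      ∑ j, algebraMap K (RF K d) (c' j) * xv K j) : c = c' := by
  have hli := (xv_algInd (k := K) (n := d)).linearIndependent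
  have h1 : ∑ j, (c j - c' j) • xv K j = 0 := by
    simp only [Algebra.smul_def, map_sub, sub_mul, Finset.sum_sub_distrib]
    rw [h, sub_self]
  funext j
  exact sub_eq_zero.1 (Fintype.linearIndependent_iff.1 hli _ h1 j)

theorem SemiLin.exists_coeff {k : Type u} [Field k] {K : Type v} [Field K] [Algebra k K]
    {G : Type w} [Group G] {α : G →* (K ≃ₐ[k] K)} {d : ℕ} {β : G →* (RF K d ≃ₐ[k] RF K d)}
    (h : SemiLin α β) : ∃ c : G → Fin d → Fin d → K, ∀ g i,
      β g (xv K i) = ∑ j, algebraMap K (RF K d) (c g i j) * xv K j := by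
  have h1 : ∀ g i, ∃ c : Fin d → K, β g (xv K i) =
      ∑ j, algebraMap K (RF K d) (c j) * xv K j := by
    intro g i
    obtain ⟨c, hc⟩ := (Submodule.mem_span_range_iff_exists_fun K).1 (h.lin g i)
    refine ⟨c, ?_⟩
    rw [← hc]
    exact Finset.sum_congr rfl fun j _ => Algebra.smul_def _ _
  choose c hc using h1
  exact ⟨c, hc⟩

/-- every action on `K` extends to a faithful semilinear one -/
theorem exists_semi {k : Type u} [Field k] {K : Type v} [Field K] [Algebra k K]
    {G : Type w} [Group G] [Finite G] (α : G →* (K ≃ₐ[k] K)) :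
    ∃ (d : ℕ) (β : G →* (RF K d ≃ₐ[k] RF K d)), SemiLin α β := by
  obtain ⟨d, ρ, hρ⟩ := exists_faithful k G
  obtain ⟨β, h1, h2⟩ := exists_repAct α ρ
  have h2' : ∀ g i, β g (xv K i) = ∑ j, algebraMap K (RF K d)
      (algebraMap k K ((ρ g : Matrix (Fin d) (Fin d) k) j i)) * xv K j := by
    intro g i
    rw [h2]
    refine Finset.sum_congr rfl fun j _ => ?_
    rw [← IsScalarTower.algebraMap_apply k K]
  refine ⟨d, β, h1, ?_, ?_⟩
  · intro g i
    rw [h2']
    refine Submodule.sum_mem _ fun j _ => ?_
    rw [← Algebra.smul_def]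
    exact Submodule.smul_mem _ _ (Submodule.subset_span ⟨j, rfl⟩)
  · intro g g' hgg
    apply hρ
    apply Units.ext
    apply Matrix.ext
    intro j i
    have h3 : β g (xv K i) = β g' (xv K i) := by rw [hgg]
    rw [h2', h2'] at h3
    exact (algebraMap k K).injective (congrFun (semi_uniq h3) j)

section ext

variable {k : Type u} [Field k] {K : Type v} [Field K] [Algebra k K] {G : Type w} [Group G]
  {E : Type x} [Field E] [Algebra k E] [Algebra K E] {d : ℕ}

/-- the action on polynomials -/
private noncomputable def semi_pol (ε : G →* (E ≃ₐ[k] E)) (c : G → Fin d → Fin d → K) (g : G) :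
    MvPolynomial (Fin d) E →+* MvPolynomial (Fin d) E :=
  MvPolynomial.eval₂Hom (MvPolynomial.C.comp ((ε g : E ≃ₐ[k] E) : E →+* E))
    (fun i => ∑ j, MvPolynomial.C (algebraMap K E (c g i j)) * MvPolynomial.X j)

private theorem semi_C (ε : G →* (E ≃ₐ[k] E)) (c : G → Fin d → Fin d → K) (g : G) (a : E) :
    semi_pol ε c g (MvPolynomial.C a) = MvPolynomial.C (ε g a) := by
  unfold semi_pol
  rw [MvPolynomial.coe_eval₂Hom, MvPolynomial.eval₂_C]
  rfl

private theorem semi_X (ε : G →* (E ≃ₐ[k] E)) (c : G → Fin d → Fin d → K) (g : G) (i : Fin d) :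
    semi_pol ε c g (MvPolynomial.X i) =
      ∑ j, MvPolynomial.C (algebraMap K E (c g i j)) * MvPolynomial.X j := by
  unfold semi_pol
  rw [MvPolynomial.coe_eval₂Hom, MvPolynomial.eval₂_X]

private theorem semi_one (ε : G →* (E ≃ₐ[k] E)) (c : G → Fin d → Fin d → K)
    (hc : ∀ i j, c 1 i j = if i = j then 1 else 0) : semi_pol ε c 1 = RingHom.id _ := by
  apply MvPolynomial.ringHom_ext
  · intro a
    rw [semi_C, map_one, AlgEquiv.one_apply, RingHom.id_apply]
  · intro i
    rw [semi_X, RingHom.id_apply]
    rw [Finset.sum_eq_single i]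
    · rw [hc, if_pos rfl, map_one, map_one, one_mul]
    · intro j _ hj
      rw [hc, if_neg (Ne.symm hj), map_zero, map_zero, zero_mul]
    · intro h
      exact absurd (Finset.mem_univ i) h

private theorem semi_mul (α : G →* (K ≃ₐ[k] K)) (ε : G →* (E ≃ₐ[k] E))
    (hε : ∀ g a, ε g (algebraMap K E a) = algebraMap K E (α g a)) (c : G → Fin d → Fin d → K)
    (hc : ∀ g h i l, c (g * h) i l = ∑ j, α g (c h i j) * c g j l) (g h : G) :
    semi_pol ε c (g * h) = (semi_pol ε c g).comp (semi_pol ε c h) := by
  apply MvPolynomial.ringHom_ext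
  · intro a
    rw [RingHom.comp_apply, semi_C, semi_C, semi_C, map_mul, AlgEquiv.mul_apply]
  · intro i
    rw [RingHom.comp_apply, semi_X, semi_X, map_sum]
    have h1 : ∀ j, semi_pol ε c g (MvPolynomial.C (algebraMap K E (c h i j)) *
        MvPolynomial.X j) =
        ∑ l, MvPolynomial.C (algebraMap K E (α g (c h i j) * c g j l)) * MvPolynomial.X l := by
      intro j
      rw [map_mul, semi_C, semi_X, hε, Finset.mul_sum]
      refine Finset.sum_congr rfl fun l _ => ?_
      rw [map_mul, map_mul]
      ring
    rw [Finset.sum_congr rfl fun j _ => h1 j, Finset.sum_comm]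
    refine Finset.sum_congr rfl fun l _ => ?_
    rw [hc, map_sum, map_sum, Finset.sum_mul]

private theorem semi_algE (a : E) : algebraMap E (RF E d) a =
    algebraMap (MvPolynomial (Fin d) E) (RF E d) (MvPolynomial.C a) := by
  rw [IsScalarTower.algebraMap_apply E (MvPolynomial (Fin d) E) (RF E d)]
  rfl

/-- extension of a semilinear action to a larger field of coefficients -/
theorem exists_semi_ext [IsScalarTower k K E] (α : G →* (K ≃ₐ[k] K))
    (β : G →* (RF K d ≃ₐ[k] RF K d)) (hβ : SemiLin α β) (ε : G →* (E ≃ₐ[k] E))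
    (hε : ∀ g a, ε g (algebraMap K E a) = algebraMap K E (α g a)) :
    ∃ γ : G →* (RF E d ≃ₐ[k] RF E d),
      (∀ g (a : E), γ g (algebraMap E (RF E d) a) = algebraMap E (RF E d) (ε g a)) ∧
      ∀ g i (c : Fin d → K), β g (xv K i) = ∑ j, algebraMap K (RF K d) (c j) * xv K j →
        γ g (xv E i) = ∑ j, algebraMap K (RF E d) (c j) * xv E j := by
  classical
  obtain ⟨c, hc⟩ := hβ.exists_coeff
  have hc1 : ∀ i j, c 1 i j = if i = j then 1 else 0 := by
    intro i j
    have h1 : c 1 i = fun j => if i = j then (1 : K) else 0 := by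
      apply semi_uniq
      rw [← hc, map_one, AlgEquiv.one_apply]
      simp
    rw [h1]
  have hcm : ∀ g h i l, c (g * h) i l = ∑ j, α g (c h i j) * c g j l := by
    intro g h i l
    have h1 : c (g * h) i = fun l => ∑ j, α g (c h i j) * c g j l := by
      apply semi_uniq
      rw [← hc, map_mul, AlgEquiv.mul_apply, hc, map_sum]
      have h2 : ∀ j, β g (algebraMap K (RF K d) (c h i j) * xv K j) =
          ∑ l, algebraMap K (RF K d) (α g (c h i j) * c g j l) * xv K l := by
        intro j
        rw [map_mul, hβ.coeff, hc, Finset.mul_sum]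
        refine Finset.sum_congr rfl fun l _ => ?_
        rw [map_mul]
        ring
      rw [Finset.sum_congr rfl fun j _ => h2 j, Finset.sum_comm]
      refine Finset.sum_congr rfl fun l _ => ?_
      rw [map_sum, Finset.sum_mul]
    rw [h1]
  let inst0 : MulSemiringAction G (MvPolynomial (Fin d) E) :=
    { smul := fun g f => semi_pol ε c g f
      one_smul := fun f => by
        change semi_pol ε c 1 f = f
        rw [semi_one ε c hc1, RingHom.id_apply]
      mul_smul := fun g h f => by
        change semi_pol ε c (g * h) f = semi_pol ε c g (semi_pol ε c h f)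
        rw [semi_mul α ε hε c hcm, RingHom.comp_apply]
      smul_zero := fun g => map_zero (semi_pol ε c g)
      smul_add := fun g => map_add (semi_pol ε c g)
      smul_one := fun g => map_one (semi_pol ε c g)
      smul_mul := fun g => map_mul (semi_pol ε c g) }
  let inst1 : MulSemiringAction G (RF E d) :=
    IsFractionRing.mulSemiringAction G (MvPolynomial (Fin d) E) (RF E d)
  have hpol : ∀ (g : G) (f : MvPolynomial (Fin d) E),
      g • (algebraMap (MvPolynomial (Fin d) E) (RF E d) f) =
        algebraMap (MvPolynomial (Fin d) E) (RF E d) (semi_pol ε c g f) := by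
    intro g f
    change IsFractionRing.ringEquivOfRingEquiv
      (MulSemiringAction.toRingEquiv G (MvPolynomial (Fin d) E) g) _ = _
    rw [IsFractionRing.ringEquivOfRingEquiv_algebraMap]
    rfl
  have hE : ∀ (g : G) (a : E), g • algebraMap E (RF E d) a = algebraMap E (RF E d) (ε g a) := by
    intro g a
    rw [semi_algE, hpol, semi_C, semi_algE]
  have hk : ∀ (g : G) (c : k), g • algebraMap k (RF E d) c = algebraMap k (RF E d) c := by
    intro g c
    rw [IsScalarTower.algebraMap_apply k E (RF E d), hE, AlgEquiv.commutes]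
  have : SMulCommClass G k (RF E d) := ⟨fun g c x => by
    rw [Algebra.smul_def, Algebra.smul_def, smul_mul', hk]⟩
  refine ⟨MulSemiringAction.toAlgAut G k (RF E d), ?_, ?_⟩
  · intro g a
    exact hE g a
  · intro g i c' hc'
    have h1 : c' = c g i := by
      apply semi_uniq
      rw [← hc', hc]
    rw [h1]
    change g • xv E i = _
    unfold xv
    rw [hpol, semi_X, map_sum]
    refine Finset.sum_congr rfl fun j _ => ?_
    rw [map_mul, IsScalarTower.algebraMap_apply K E (RF E d), semi_algE]

end ext

end NR83
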