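import Pool.Agent.H.MP_83e36b_nt.nr.Base

/-! Stable isomorphism of fields. -/

set_option autoImplicit false

namespace NR83

open CM83

universe u v w x

variable {k : Type u} [Field k]

private theorem si_core {P : Type v} [Field P] [Algebra k P] {E : Type w} [Field E] [Algebra k E]
    [Algebra P E] [IsScalarTower k P E] {a : ℕ} (u : Fin a → E)
    (hu : AlgebraicIndependent P u) (htop : IntermediateField.adjoin P (Set.range u) = ⊤) :
    Nonempty (RF P a ≃ₐ[k] E) := by
  let f : RF P a →ₐ[P] E := IsFractionRing.liftAlgHom (K := RF P a) (g := MvPolynomial.aeval u) hu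
  have hf : ∀ i, f (xv P i) = u i := by
    intro i
    show IsFractionRing.liftAlgHom (K := RF P a) (g := MvPolynomial.aeval u) hu
      (algebraMap (MvPolynomial (Fin a) P) (RF P a) (MvPolynomial.X i)) = u i
    rw [IsFractionRing.liftAlgHom_apply, IsFractionRing.lift_algebraMap]
    exact MvPolynomial.aeval_X u i
  have hs : Function.Surjective f := by
    have h1 : IntermediateField.adjoin P (Set.range u) ≤ f.fieldRange := by
      rw [IntermediateField.adjoin_le_iff]
      rintro _ ⟨i, rfl⟩
      exact ⟨xv P i, hf i⟩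
    intro z
    have h2 : z ∈ f.fieldRange := h1 (by rw [htop]; exact IntermediateField.mem_top)
    exact h2
  exact ⟨(AlgEquiv.ofBijective f ⟨f.toRingHom.injective, hs⟩).restrictScalars k⟩

private theorem si_xv (K : Type v) [Field K] (a : ℕ) :
    AlgebraicIndependent K (fun i : Fin a => xv K i) :=
  (MvPolynomial.algebraicIndependent_X (Fin a) K).map'
    (f := IsScalarTower.toAlgHom K (MvPolynomial (Fin a) K) (RF K a))
    (IsFractionRing.injective (MvPolynomial (Fin a) K) (RF K a))

/-- `K(x_1, ..., x_a)(y_1, ..., y_b) ≅ K(x_1, ..., x_{a+b})` -/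
theorem rf_rf (K : Type v) [Field K] [Algebra k K] (a b : ℕ) :
    Nonempty (RF (RF K a) b ≃ₐ[k] RF K (a + b)) := by
  let y : Fin b → RF (RF K a) b := fun j => xv (RF K a) j
  let x : Fin a → RF K a := fun i => xv K i
  have hx : AlgebraicIndependent K x := si_xv K a
  have hy : AlgebraicIndependent (RF K a) y := si_xv (RF K a) b
  have hu := AlgebraicIndependent.sumElim_comp hx hy
  let e : Fin (a + b) ≃ Fin b ⊕ Fin a := finSumFinEquiv.symm.trans (Equiv.sumComm _ _)
  obtain ⟨e1⟩ := si_core (k := k) (P := K) (E := RF (RF K a) b)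
    (Sum.elim y (algebraMap (RF K a) (RF (RF K a) b) ∘ x) ∘ e) (hu.comp _ e.injective) (by
      rw [Set.range_comp, e.range_eq_univ, Set.image_univ, Set.Sum.elim_range, eq_top_iff]
      intro z _
      set F := IntermediateField.adjoin K
        (Set.range y ∪ Set.range (algebraMap (RF K a) (RF (RF K a) b) ∘ x)) with hF
      have h1 : ∀ p : MvPolynomial (Fin a) K,
          algebraMap (RF K a) (RF (RF K a) b) (algebraMap (MvPolynomial (Fin a) K) (RF K a) p) ∈ F := by
        intro p
        induction p using MvPolynomial.induction_on with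
        | C c =>
          have h2 : algebraMap (RF K a) (RF (RF K a) b)
              (algebraMap (MvPolynomial (Fin a) K) (RF K a) (MvPolynomial.C c)) =
              algebraMap K (RF (RF K a) b) c := by
            rw [IsScalarTower.algebraMap_apply K (RF K a) (RF (RF K a) b),
              IsScalarTower.algebraMap_apply K (MvPolynomial (Fin a) K) (RF K a)]
            rfl
          rw [h2]
          exact F.algebraMap_mem c
        | add p q hp hq =>
          rw [map_add, map_add]
          exact F.add_mem hp hq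
        | mul_X p i hp =>
          rw [map_mul, map_mul]
          exact F.mul_mem hp (IntermediateField.subset_adjoin K _ (Or.inr ⟨i, rfl⟩))
      have h2 : ∀ c : RF K a, algebraMap (RF K a) (RF (RF K a) b) c ∈ F := by
        intro c
        obtain ⟨p, q, _, rfl⟩ := IsFractionRing.div_surjective (MvPolynomial (Fin a) K) c
        rw [map_div₀]
        exact F.div_mem (h1 p) (h1 q)
      have h3 : ∀ p : MvPolynomial (Fin b) (RF K a),
          algebraMap (MvPolynomial (Fin b) (RF K a)) (RF (RF K a) b) p ∈ F := by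
        intro p
        induction p using MvPolynomial.induction_on with
        | C c =>
          have h4 : algebraMap (MvPolynomial (Fin b) (RF K a)) (RF (RF K a) b) (MvPolynomial.C c) =
              algebraMap (RF K a) (RF (RF K a) b) c := by
            rw [IsScalarTower.algebraMap_apply (RF K a) (MvPolynomial (Fin b) (RF K a)) (RF (RF K a) b)]
            rfl
          rw [h4]
          exact h2 c
        | add p q hp hq =>
          rw [map_add]
          exact F.add_mem hp hq
        | mul_X p i hp =>
          rw [map_mul]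
          exact F.mul_mem hp (IntermediateField.subset_adjoin K _ (Or.inl ⟨i, rfl⟩))
      obtain ⟨p, q, _, rfl⟩ := IsFractionRing.div_surjective (MvPolynomial (Fin b) (RF K a)) z
      exact F.div_mem (h3 p) (h3 q))
  exact ⟨e1.symm⟩

theorem rf_congr {K : Type v} [Field K] [Algebra k K] {L : Type w} [Field L] [Algebra k L]
    (e : K ≃ₐ[k] L) (a : ℕ) : Nonempty (RF K a ≃ₐ[k] RF L a) :=
  ⟨IsFractionRing.fieldEquivOfAlgEquiv k (RF K a) (RF L a) (MvPolynomial.mapAlgEquiv (Fin a) e)⟩

/-- a field generated over `P` by finitely many algebraically independent elements -/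
theorem rf_of_algInd {P : Type v} [Field P] [Algebra k P] {E : Type w} [Field E] [Algebra k E]
    [Algebra P E] [IsScalarTower k P E] {κ : Type x} [Finite κ] (u : κ → E)
    (hu : AlgebraicIndependent P u) (htop : IntermediateField.adjoin P (Set.range u) = ⊤) :
    ∃ a : ℕ, Nonempty (RF P a ≃ₐ[k] E) := by
  obtain ⟨a, ⟨e⟩⟩ := Finite.exists_equiv_fin κ
  refine ⟨a, si_core (k := k) (u ∘ e.symm) (hu.comp _ e.symm.injective) ?_⟩
  rw [Set.range_comp, e.symm.range_eq_univ, Set.image_univ]
  exact htop

theorem StablyIso.of_equiv {K : Type v} [Field K] [Algebra k K] {L : Type w} [Field L]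
    [Algebra k L] (e : K ≃ₐ[k] L) : StablyIso k K L :=
  ⟨0, 0, rf_congr e 0⟩

theorem StablyIso.symm {K : Type v} [Field K] [Algebra k K] {L : Type w} [Field L] [Algebra k L]
    (h : StablyIso k K L) : StablyIso k L K := by
  obtain ⟨a, b, ⟨e⟩⟩ := h
  exact ⟨b, a, ⟨e.symm⟩⟩

theorem StablyIso.trans {K : Type v} [Field K] [Algebra k K] {L : Type w} [Field L] [Algebra k L]
    {M : Type x} [Field M] [Algebra k M] (h : StablyIso k K L) (h' : StablyIso k L M) :
    StablyIso k K M := by
  obtain ⟨a, b, ⟨e⟩⟩ := h
  obtain ⟨c, d, ⟨e'⟩⟩ := h'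
  obtain ⟨e1⟩ := rf_rf (k := k) K a c
  obtain ⟨e2⟩ := rf_congr e c
  obtain ⟨e3⟩ := rf_rf (k := k) L b c
  obtain ⟨e4⟩ := rf_rf (k := k) L c b
  obtain ⟨e5⟩ := rf_congr e' b
  obtain ⟨e6⟩ := rf_rf (k := k) M d b
  obtain ⟨e7⟩ : Nonempty (RF L (b + c) ≃ₐ[k] RF L (c + b)) := by
    rw [add_comm]
    exact ⟨AlgEquiv.refl⟩
  exact ⟨a + c, d + b, ⟨e1.symm.trans (e2.trans (e3.trans (e7.trans (e4.symm.trans (e5.trans e6)))))⟩⟩

theorem StablyIso.of_algInd {P : Type v} [Field P] [Algebra k P] {E : Type w} [Field E]
    [Algebra k E] [Algebra P E] [IsScalarTower k P E] {κ : Type x} [Finite κ] (u : κ → E)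
    (hu : AlgebraicIndependent P u) (htop : IntermediateField.adjoin P (Set.range u) = ⊤) :
    StablyIso k P E := by
  obtain ⟨a, ⟨e⟩⟩ := rf_of_algInd (k := k) u hu htop
  obtain ⟨e0⟩ : Nonempty (RF E 0 ≃ₐ[k] E) := by
    refine si_core (k := k) (P := E) (E := E) (fun i : Fin 0 => i.elim0) ?_ ?_
    · rw [algebraicIndependent_empty_type_iff]
      exact (algebraMap E E).injective
    · rw [eq_top_iff]
      intro z _
      exact (IntermediateField.adjoin E (Set.range fun i : Fin 0 => (i.elim0 : E))).algebraMap_mem z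
  exact ⟨a, 0, ⟨e.trans e0.symm⟩⟩

end NR83
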