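import Pool.Agent.H.MP_83e36b_nt.cm.WDefs

/-! Noether's problem modulo normal subgroups with alternating composition factors: definitions. -/

set_option autoImplicit false

namespace NR83

open CM83

universe u v w

/-- `G` has a subnormal series whose factors are alternating groups `A_n`, `n ≥ 5`, `n ≠ 6`:
the trivial group, and every extension `1 → H → G → A_n → 1` of such a group `H` by `A_n`. -/
inductive AltSeries : (G : Type v) → [Group G] → Prop
  | one (G : Type v) [Group G] [Subsingleton G] : AltSeries G
  | ext (G H : Type v) [Group G] [Group H] (n : ℕ) (hn : 5 ≤ n) (h6 : n ≠ 6) (f : H →* G)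
      (p : G →* alternatingGroup (Fin n)) (hf : Function.Injective f)
      (hp : Function.Surjective p) (hfp : f.range = p.ker) (hH : AltSeries H) : AltSeries G

/-- the automorphisms of `k(x_1, ..., x_d)` which act on the variables through a matrix
`ρ g`: `x_i ↦ ∑_j (ρ g)_{ji} x_j` -/
noncomputable def repGroup {k : Type u} [Field k] {G : Type v} [Group G] {d : ℕ}
    (ρ : G →* Matrix.GeneralLinearGroup (Fin d) k) : Subgroup (RF k d ≃ₐ[k] RF k d) :=
  Subgroup.closure {τ | ∃ g : G, ∀ i, τ (xv k i) =
    ∑ j, algebraMap k (RF k d) ((ρ g : Matrix (Fin d) (Fin d) k) j i) * xv k j}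

/-- the field of invariants `k(V)^G` of the linear representation `ρ` -/
noncomputable def invF {k : Type u} [Field k] {G : Type v} [Group G] {d : ℕ}
    (ρ : G →* Matrix.GeneralLinearGroup (Fin d) k) : IntermediateField k (RF k d) :=
  IntermediateField.fixedField (repGroup ρ)

/-- the fields `K` and `L` over `k` are stably isomorphic: `K(x_1, ..., x_a) ≅ L(x_1, ..., x_b)` -/
def StablyIso (k : Type u) [Field k] (K : Type v) [Field K] [Algebra k K] (L : Type w) [Field L]
    [Algebra k L] : Prop :=
  ∃ a b : ℕ, Nonempty (RF K a ≃ₐ[k] RF L b)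

end NR83
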