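import Pool.Agent.H.MP_83e36b_nt.nr.PT
import Pool.Agent.H.MP_83e36b_nt.cm.Final
import Pool.Agent.H.MP_83e36b_nt.cm.XF
import Pool.Agent.H.MP_83e36b_nt.cm.XG

/-! The reduction for one minimal normal subgroup. -/

set_option autoImplicit false

namespace NR83

open CM83

universe u v w x y

/-- from an action by ring automorphisms over `k` to a homomorphism to the `k`-automorphisms -/
theorem core_hom {k : Type u} [Field k] {E : Type w} [Field E] [Algebra k E] {G : Type v} [Group G]
    (inst : MulSemiringAction G E) (h : ∀ (g : G) (a : k), g • algebraMap k E a = algebraMap k E a) :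
    ∃ β : G →* (E ≃ₐ[k] E), ∀ g x, β g x = g • x := by
  refine ⟨{ toFun := fun g => AlgEquiv.ofRingEquiv (f := MulSemiringAction.toRingEquiv G E g) (h g)
            map_one' := ?_
            map_mul' := ?_ }, fun g x => rfl⟩
  · ext x
    exact one_smul G x
  · intro g g'
    ext x
    exact mul_smul g g' x

theorem core_fix {k : Type u} [Field k] {L : Type v} [Field L] {E : Type w}
    [Field E] [Algebra k L] [Algebra k E] [Algebra L E] [IsScalarTower k L E] {G : Type x}
    [Group G] (α : G →* (L ≃ₐ[k] L)) (β : G →* (E ≃ₐ[k] E))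
    (hαβ : ∀ g a, β g (algebraMap L E a) = algebraMap L E (α g a))
    {κ : Type y} [Finite κ] (u : κ → E) (P : Subfield L)
    (hP : P = (fixF α).toSubfield) (h : AlgebraicIndependent P u)
    (h2 : ∀ f : E, f ∈ IntermediateField.adjoin P (Set.range u) ↔ ∀ g : G, β g f = f) :
    StablyIso k (fixF α) (fixF β) := by
  subst hP
  refine stably_of_fixed α β hαβ u ?_ h ?_
  · intro p g
    exact (h2 (u p)).1 (IntermediateField.subset_adjoin _ _ ⟨p, rfl⟩) g
  · intro f hf
    exact (h2 f).2 hf

theorem core_ext {k : Type u} [Field k] [CharZero k] {G : Type v} [Group G] [Finite G]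
    (N : Subgroup G) {I : Type v} [Finite I] [MulAction G I] {m : ℕ}
    {A : Matrix (Fin m) (Fin m) ℤ} (hA : NoE8 A) {M : G → I → Matrix (Fin m) (Fin m) ℤ}
    (hM : Coc N I A M) {L : Type w} [Field L] [Algebra k L] [CharZero L] (α : G →* (L ≃ₐ[k] L))
    (hα : ∀ g, (∀ a, α g a = a) ↔ g ∈ N) :
    ∃ β : G →* (RFL L I m ≃ₐ[k] RFL L I m),
      (∀ g a, β g (algebraMap L (RFL L I m) a) = algebraMap L (RFL L I m) (α g a)) ∧
      (∀ g j i, β g (xl L j i) = ∑ l, (M g j i l : RFL L I m) * xl L (g • j) l) ∧
      StablyIso k (fixF α) (fixF β) := by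
  let instL : MulSemiringAction G L := MulSemiringAction.compHom L α
  have hsm : ∀ (g : G) (a : L), g • a = α g a := fun g a => rfl
  obtain ⟨inst, hW, h1, h2⟩ := exists_weylAct (L := L) (A := A) M hM.one hM.mul hM.weyl
    (fun g hg j => hM.fix g ((hα g).1 hg) j) (fun R hR => by
      obtain ⟨g, hg, hgR⟩ := hM.rot R hR
      exact ⟨g, (hα g).2 hg, hgR⟩)
  obtain ⟨β, hβ⟩ := core_hom (k := k) inst (fun g a => by
    rw [IsScalarTower.algebraMap_apply k L (RFL L I m), h1, hsm, (α g).commutes])
  have hβ1 : ∀ g a, β g (algebraMap L (RFL L I m) a) = algebraMap L (RFL L I m) (α g a) := by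
    intro g a
    rw [hβ, h1, hsm]
  refine ⟨β, hβ1, fun g j i => ?_, ?_⟩
  · rw [hβ, h2]
  · obtain ⟨u, hu, hu2⟩ := ext_rational hA.diag (hA.good) hW
    refine core_fix α β hβ1 u _ ?_ hu (fun f => ?_)
    · ext a
      change (∀ g : G, g • algebraMap L (RFL L I m) a = algebraMap L (RFL L I m) a) ↔ a ∈ fixF α
      rw [mem_fixF]
      refine forall_congr' fun g => ?_
      rw [h1, hsm]
      exact (algebraMap L (RFL L I m)).injective.eq_iff
    · exact (hu2 f).trans (forall_congr' fun g => by rw [hβ])

theorem core_top {k : Type u} [Field k] {S : Type v} [Field S] {A : Type w} [Field A]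
    [Algebra k S] [Algebra k A] [Algebra S A] [IsScalarTower k S A] {ι : Type x} {κ : Type y}
    {x : ι → S} {y : κ → A} (hx : IntermediateField.adjoin k (Set.range x) = ⊤)
    (hy : IntermediateField.adjoin S (Set.range y) = ⊤) :
    IntermediateField.adjoin k (Set.range (Sum.elim y (algebraMap S A ∘ x))) = ⊤ := by
  rw [eq_top_iff]
  have h1 : ∀ s : S, algebraMap S A s ∈
      IntermediateField.adjoin k (Set.range (Sum.elim y (algebraMap S A ∘ x))) := by
    intro s
    have hs : s ∈ IntermediateField.adjoin k (Set.range x) := by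
      rw [hx]
      exact IntermediateField.mem_top
    induction hs using IntermediateField.adjoin_induction with
    | mem z hz =>
      obtain ⟨i, rfl⟩ := hz
      exact IntermediateField.subset_adjoin _ _ ⟨Sum.inr i, rfl⟩
    | algebraMap a =>
      rw [← IsScalarTower.algebraMap_apply k S A]
      exact IntermediateField.algebraMap_mem _ _
    | add a b _ _ h3 h4 => rw [map_add]; exact add_mem h3 h4
    | inv a _ h3 => rw [map_inv₀]; exact inv_mem h3
    | mul a b _ _ h3 h4 => rw [map_mul]; exact mul_mem h3 h4
  intro a _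
  have ha : a ∈ IntermediateField.adjoin S (Set.range y) := by
    rw [hy]
    exact IntermediateField.mem_top
  induction ha using IntermediateField.adjoin_induction with
  | mem z hz =>
    obtain ⟨i, rfl⟩ := hz
    exact IntermediateField.subset_adjoin _ _ ⟨Sum.inl i, rfl⟩
  | algebraMap a => exact h1 a
  | add a b _ _ h3 h4 => exact add_mem (h3 trivial) (h4 trivial)
  | inv a _ h3 => exact inv_mem (h3 trivial)
  | mul a b _ _ h3 h4 => exact mul_mem (h3 trivial) (h4 trivial)

theorem core_mat {L : Type u} [Field L] [CharZero L] {I : Type v} {m : ℕ}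
    {M : Matrix (Fin m) (Fin m) ℤ} (j : I)
    (h : ∀ i, xl L j i = ∑ l, (M i l : RFL L I m) * xl L j l) : M = 1 := by
  classical
  have hli : LinearIndependent L (fun l : Fin m => xl L j l) :=
    ((xl_algInd (L := L) (ι := I) (n := m)).comp (fun l : Fin m => (j, l))
      (fun a b hab => (Prod.mk.inj hab).2)).linearIndependent
  ext i l
  have h1 : ∑ l, ((M i l : L) - (1 : Matrix (Fin m) (Fin m) L) i l) • xl L j l = 0 := by
    have h2 : ∀ l, ((M i l : L) - (1 : Matrix (Fin m) (Fin m) L) i l) • xl L j l =
        (M i l : RFL L I m) * xl L j l - (if i = l then xl L j l else 0) := by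
      intro l
      rw [sub_smul, Algebra.smul_def, map_intCast, Matrix.one_apply]
      congr 1
      split_ifs <;> simp
    rw [Finset.sum_congr rfl fun l _ => h2 l, Finset.sum_sub_distrib, ← h i]
    simp
  have h3 := (Fintype.linearIndependent_iff.1 hli) _ h1 l
  rw [sub_eq_zero] at h3
  by_cases hil : i = l
  · subst hil
    rw [Matrix.one_apply_eq] at h3 ⊢
    exact_mod_cast h3
  · rw [Matrix.one_apply_ne hil] at h3 ⊢
    exact_mod_cast h3

theorem core_step {k : Type u} [Field k] [CharZero k] {G : Type v} [Group G] [Finite G]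
    (N : Subgroup G) [N.Normal] {I : Type v} [Finite I] [MulAction G I] {m : ℕ}
    {A : Matrix (Fin m) (Fin m) ℤ} (hA : NoE8 A) {M : G → I → Matrix (Fin m) (Fin m) ℤ}
    (hM : Coc N I A M) {d e : ℕ} (ρ : G →* Matrix.GeneralLinearGroup (Fin d) k)
    (hρ : Function.Injective ρ) (σ : G ⧸ N →* Matrix.GeneralLinearGroup (Fin e) k)
    (hσ : Function.Injective σ) : StablyIso k (invF ρ) (invF σ) := by
  classical
  -- the action of `G` on `L = k(U)`
  let σ' : G →* Matrix.GeneralLinearGroup (Fin e) k := σ.comp (QuotientGroup.mk' N)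
  have hσr : σ'.range = σ.range := by
    rw [MonoidHom.range_comp, QuotientGroup.range_mk', ← MonoidHom.range_eq_map]
  obtain ⟨α, hα⟩ := exists_repAct' σ'
  have hinv : invF σ = fixF α := (invF_congr σ' σ hσr).symm.trans (invF_eq σ' α hα)
  have hcz : CharZero (RF k e) := charZero_of_injective_algebraMap (algebraMap k (RF k e)).injective
  have hαN : ∀ g, (∀ a, α g a = a) ↔ g ∈ N := by
    intro g
    constructor
    · intro hg
      have h1 : σ' g = 1 := by
        apply Units.ext
        ext j i
        have h2 := hg (xv k i)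
        rw [hα] at h2
        have h3 : ∑ j, ((σ' g : Matrix (Fin e) (Fin e) k) j i -
            (1 : Matrix (Fin e) (Fin e) k) j i) • xv k j = 0 := by
          have h4 : ∀ j, ((σ' g : Matrix (Fin e) (Fin e) k) j i -
            (1 : Matrix (Fin e) (Fin e) k) j i) • xv k j =
              algebraMap k (RF k e) ((σ' g : Matrix (Fin e) (Fin e) k) j i) * xv k j -
              (if j = i then xv k j else 0) := by
            intro j
            rw [sub_smul, Algebra.smul_def, Matrix.one_apply]
            congr 1
            split_ifs <;> simp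
          rw [Finset.sum_congr rfl fun j _ => h4 j, Finset.sum_sub_distrib, h2]
          simp
        have h5 := (Fintype.linearIndependent_iff.1
          (xv_algInd (k := k) (n := e)).linearIndependent) _ h3 j
        rw [sub_eq_zero] at h5
        exact h5
      have h2 : (QuotientGroup.mk' N g : G ⧸ N) = 1 := hσ (by rw [map_one]; exact h1)
      exact (QuotientGroup.eq_one_iff g).1 h2
    · intro hg
      have h2 : (QuotientGroup.mk' N g : G ⧸ N) = 1 := (QuotientGroup.eq_one_iff g).2 hg
      have h3 : σ' g = 1 := by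
        change σ (QuotientGroup.mk' N g) = 1
        rw [h2, map_one]
      have h4 : (α g : RF k e →ₐ[k] RF k e) = AlgHom.id k _ := by
        apply hom_ext
        intro i
        change α g (xv k i) = xv k i
        rw [hα, h3]
        simp [Matrix.one_apply]
      intro a
      exact DFunLike.congr_fun h4 a
  -- the action of `G` on `E`
  obtain ⟨β, hβ1, hβ2, hβ3⟩ := core_ext N hA hM α hαN
  -- faithful
  have hfaith : ∀ g, (∀ a, β g a = a) → g = 1 := by
    intro g hg
    have hgN : g ∈ N := by
      rw [← hαN]
      intro a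
      apply (algebraMap (RF k e) (RFL (RF k e) I m)).injective
      rw [← hβ1, hg]
    apply hM.inj g hgN
    intro j
    apply core_mat (L := RF k e) j
    intro i
    have h1 := hβ2 g j i
    rwa [hg, (hM.fix g hgN j).1] at h1
  -- the action of `G` on `F`
  obtain ⟨γ, hγ1, hγ2⟩ := exists_repAct β ρ
  have hEF : StablyIso k (fixF β) (fixF γ) := by
    refine noname β γ hγ1 (xv (RFL (RF k e) I m)) xv_algInd adjoin_xv ?_ ?_
    · intro g p
      rw [hγ2]
      refine Submodule.sum_mem _ fun j _ => ?_
      rw [IsScalarTower.algebraMap_apply k (RFL (RF k e) I m), ← Algebra.smul_def]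
      exact Submodule.smul_mem _ _ (Submodule.subset_span ⟨j, rfl⟩)
    · intro g hg p
      rw [hfaith g hg, map_one]
      rfl
  have hVF : StablyIso k (invF ρ) (fixF γ) := by
    have h1 := (xv_algInd (k := k) (n := e)).sumElim_comp
      (xl_algInd (L := RF k e) (ι := I) (n := m))
    have h2 := core_top (adjoin_xv (k := k) (n := e)) (adjoin_xl (L := RF k e) (ι := I) (n := m))
    refine linext ρ hρ γ (xv (RFL (RF k e) I m)) _ (h1.sumElim_comp xv_algInd)
      (core_top h2 adjoin_xv) hγ2 ?_
    rintro g (⟨j, i⟩ | i)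
    · have h3 : γ g (algebraMap (RFL (RF k e) I m) (RF (RFL (RF k e) I m) d)
          (xl (RF k e) j i)) = ∑ l, (M g j i l : k) •
            algebraMap (RFL (RF k e) I m) (RF (RFL (RF k e) I m) d) (xl (RF k e) (g • j) l) := by
        rw [hγ1, hβ2, map_sum]
        refine Finset.sum_congr rfl fun l _ => ?_
        rw [Algebra.smul_def, map_mul, map_intCast, map_intCast]
      change γ g (algebraMap (RFL (RF k e) I m) (RF (RFL (RF k e) I m) d)
          (xl (RF k e) j i)) ∈ _
      rw [h3]
      refine Submodule.sum_mem _ fun l _ => Submodule.smul_mem _ _ (Submodule.subset_span ?_)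
      exact ⟨Sum.inl (g • j, l), rfl⟩
    · have h3 : γ g (algebraMap (RFL (RF k e) I m) (RF (RFL (RF k e) I m) d)
          (algebraMap (RF k e) (RFL (RF k e) I m) (xv k i))) = ∑ j,
            ((σ' g : Matrix (Fin e) (Fin e) k) j i) •
            algebraMap (RFL (RF k e) I m) (RF (RFL (RF k e) I m) d)
              (algebraMap (RF k e) (RFL (RF k e) I m) (xv k j)) := by
        rw [hγ1, hβ1, hα, map_sum, map_sum]
        refine Finset.sum_congr rfl fun l _ => ?_
        rw [Algebra.smul_def, map_mul, map_mul, ← IsScalarTower.algebraMap_apply k (RF k e),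
          ← IsScalarTower.algebraMap_apply k (RFL (RF k e) I m)]
      change γ g (algebraMap (RFL (RF k e) I m) (RF (RFL (RF k e) I m) d)
          (algebraMap (RF k e) (RFL (RF k e) I m) (xv k i))) ∈ _
      rw [h3]
      refine Submodule.sum_mem _ fun j _ => Submodule.smul_mem _ _ (Submodule.subset_span ?_)
      exact ⟨Sum.inr j, rfl⟩
  rw [hinv]
  exact (hVF.trans hEF.symm).trans hβ3.symm

end NR83
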