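import Pool.Agent.H.MP_83e36b_nt.nr.Base
import Pool.Agent.H.MP_83e36b_nt.cm.WBasic

/-! Semilinear actions on rational function fields from linear representations. -/

set_option autoImplicit false

namespace NR83

open CM83

universe u v w

section

variable {k : Type u} [Field k] {E : Type w} [Field E] [Algebra k E] {G : Type v} [Group G]
  {d : ℕ}

/-- the action on polynomials -/
private noncomputable def RepAct_pol (α : G →* (E ≃ₐ[k] E))
    (ρ : G →* Matrix.GeneralLinearGroup (Fin d) k) (g : G) :
    MvPolynomial (Fin d) E →+* MvPolynomial (Fin d) E :=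
  MvPolynomial.eval₂Hom (MvPolynomial.C.comp ((α g : E ≃ₐ[k] E) : E →+* E))
    (fun i => ∑ j, MvPolynomial.C (algebraMap k E ((ρ g : Matrix (Fin d) (Fin d) k) j i)) *
      MvPolynomial.X j)

private theorem RepAct_C (α : G →* (E ≃ₐ[k] E)) (ρ : G →* Matrix.GeneralLinearGroup (Fin d) k)
    (g : G) (a : E) :
    RepAct_pol α ρ g (MvPolynomial.C a) = MvPolynomial.C (α g a) := by
  unfold RepAct_pol
  rw [MvPolynomial.coe_eval₂Hom, MvPolynomial.eval₂_C]
  rfl

private theorem RepAct_X (α : G →* (E ≃ₐ[k] E)) (ρ : G →* Matrix.GeneralLinearGroup (Fin d) k)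
    (g : G) (i : Fin d) :
    RepAct_pol α ρ g (MvPolynomial.X i) = ∑ j, MvPolynomial.C
      (algebraMap k E ((ρ g : Matrix (Fin d) (Fin d) k) j i)) * MvPolynomial.X j := by
  unfold RepAct_pol
  rw [MvPolynomial.coe_eval₂Hom, MvPolynomial.eval₂_X]

private theorem RepAct_one (α : G →* (E ≃ₐ[k] E)) (ρ : G →* Matrix.GeneralLinearGroup (Fin d) k) :
    RepAct_pol α ρ 1 = RingHom.id _ := by
  apply MvPolynomial.ringHom_ext
  · intro a
    rw [RepAct_C, map_one, AlgEquiv.one_apply, RingHom.id_apply]
  · intro i
    rw [RepAct_X, RingHom.id_apply, map_one]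
    rw [Finset.sum_eq_single i]
    · rw [Units.val_one, Matrix.one_apply_eq, map_one, map_one, one_mul]
    · intro j _ hj
      rw [Units.val_one, Matrix.one_apply_ne hj, map_zero, map_zero, zero_mul]
    · intro h
      exact absurd (Finset.mem_univ i) h

private theorem RepAct_mul (α : G →* (E ≃ₐ[k] E)) (ρ : G →* Matrix.GeneralLinearGroup (Fin d) k)
    (g h : G) : RepAct_pol α ρ (g * h) = (RepAct_pol α ρ g).comp (RepAct_pol α ρ h) := by
  apply MvPolynomial.ringHom_ext
  · intro a
    rw [RingHom.comp_apply, RepAct_C, RepAct_C, RepAct_C, map_mul, AlgEquiv.mul_apply]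
  · intro i
    rw [RingHom.comp_apply, RepAct_X, RepAct_X, map_sum, map_mul]
    have h1 : ∀ j, RepAct_pol α ρ g (MvPolynomial.C
        (algebraMap k E ((ρ h : Matrix (Fin d) (Fin d) k) j i)) * MvPolynomial.X j) =
        ∑ l, MvPolynomial.C (algebraMap k E ((ρ g : Matrix (Fin d) (Fin d) k) l j *
          (ρ h : Matrix (Fin d) (Fin d) k) j i)) * MvPolynomial.X l := by
      intro j
      rw [map_mul, RepAct_C, RepAct_X, AlgEquiv.commutes, Finset.mul_sum]
      refine Finset.sum_congr rfl fun l _ => ?_
      rw [map_mul, map_mul]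
      ring
    rw [Finset.sum_congr rfl fun j _ => h1 j, Finset.sum_comm]
    refine Finset.sum_congr rfl fun l _ => ?_
    rw [Units.val_mul, Matrix.mul_apply, map_sum, map_sum, Finset.sum_mul]

/-- the action on polynomials as an instance -/
@[instance_reducible]
private noncomputable def RepAct_inst (α : G →* (E ≃ₐ[k] E))
    (ρ : G →* Matrix.GeneralLinearGroup (Fin d) k) :
    MulSemiringAction G (MvPolynomial (Fin d) E) where
  smul g f := RepAct_pol α ρ g f
  one_smul f := by
    change RepAct_pol α ρ 1 f = f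
    rw [RepAct_one, RingHom.id_apply]
  mul_smul g h f := by
    change RepAct_pol α ρ (g * h) f = RepAct_pol α ρ g (RepAct_pol α ρ h f)
    rw [RepAct_mul, RingHom.comp_apply]
  smul_zero g := map_zero (RepAct_pol α ρ g)
  smul_add g := map_add (RepAct_pol α ρ g)
  smul_one g := map_one (RepAct_pol α ρ g)
  smul_mul g := map_mul (RepAct_pol α ρ g)

private theorem RepAct_alg (c : k) : algebraMap k (RF E d) c =
    algebraMap (MvPolynomial (Fin d) E) (RF E d) (MvPolynomial.C (algebraMap k E c)) := by
  rw [IsScalarTower.algebraMap_apply k (MvPolynomial (Fin d) E) (RF E d)]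
  rfl

private theorem RepAct_algE (a : E) : algebraMap E (RF E d) a =
    algebraMap (MvPolynomial (Fin d) E) (RF E d) (MvPolynomial.C a) := by
  rw [IsScalarTower.algebraMap_apply E (MvPolynomial (Fin d) E) (RF E d)]
  rfl

end

/-- Proof: as `CM83.exists_action` (module XG): `MvPolynomial.eval₂Hom` on polynomials, an action
by `IsFractionRing.mulSemiringAction`-like extension to the fraction field
(`IsFractionRing.ringEquivOfRingEquiv`), `AlgEquiv.ofRingEquiv`. -/
theorem exists_repAct {k : Type u} [Field k] {E : Type w} [Field E] [Algebra k E] {G : Type v}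
    [Group G] (α : G →* (E ≃ₐ[k] E)) {d : ℕ} (ρ : G →* Matrix.GeneralLinearGroup (Fin d) k) :
    ∃ β : G →* (RF E d ≃ₐ[k] RF E d),
      (∀ g (a : E), β g (algebraMap E (RF E d) a) = algebraMap E (RF E d) (α g a)) ∧
      ∀ g i, β g (xv E i) = ∑ j, algebraMap k (RF E d)
        ((ρ g : Matrix (Fin d) (Fin d) k) j i) * xv E j := by
  letI inst0 : MulSemiringAction G (MvPolynomial (Fin d) E) := RepAct_inst α ρ
  letI inst1 : MulSemiringAction G (RF E d) :=
    IsFractionRing.mulSemiringAction G (MvPolynomial (Fin d) E) (RF E d)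
  have hpol : ∀ (g : G) (f : MvPolynomial (Fin d) E),
      g • (algebraMap (MvPolynomial (Fin d) E) (RF E d) f) =
        algebraMap (MvPolynomial (Fin d) E) (RF E d) (RepAct_pol α ρ g f) := by
    intro g f
    change IsFractionRing.ringEquivOfRingEquiv
      (MulSemiringAction.toRingEquiv G (MvPolynomial (Fin d) E) g) _ = _
    rw [IsFractionRing.ringEquivOfRingEquiv_algebraMap]
    rfl
  have hk : ∀ (g : G) (c : k), g • algebraMap k (RF E d) c = algebraMap k (RF E d) c := by
    intro g c
    rw [RepAct_alg, hpol, RepAct_C, AlgEquiv.commutes]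
  haveI : SMulCommClass G k (RF E d) := ⟨fun g c x => by
    rw [Algebra.smul_def, Algebra.smul_def, smul_mul', hk]⟩
  refine ⟨MulSemiringAction.toAlgAut G k (RF E d), ?_, ?_⟩
  · intro g a
    change g • algebraMap E (RF E d) a = _
    rw [RepAct_algE, hpol, RepAct_C, RepAct_algE]
  · intro g i
    change g • xv E i = _
    unfold xv
    rw [hpol, RepAct_X, map_sum]
    refine Finset.sum_congr rfl fun j _ => ?_
    rw [map_mul, RepAct_alg]

/-- the case `E = k` -/
theorem exists_repAct' {k : Type u} [Field k] {G : Type v}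
    [Group G] {d : ℕ} (ρ : G →* Matrix.GeneralLinearGroup (Fin d) k) :
    ∃ β : G →* (RF k d ≃ₐ[k] RF k d),
      (∀ g i, β g (xv k i) = ∑ j, algebraMap k (RF k d)
        ((ρ g : Matrix (Fin d) (Fin d) k) j i) * xv k j) := by
  obtain ⟨β, -, h⟩ := exists_repAct (k := k) (E := k) (1 : G →* (k ≃ₐ[k] k)) ρ
  exact ⟨β, h⟩

/-- the invariants of `ρ` are the fixed field of this action -/
theorem invF_eq {k : Type u} [Field k] {G : Type v}
    [Group G] {d : ℕ} (ρ : G →* Matrix.GeneralLinearGroup (Fin d) k)
    (β : G →* (RF k d ≃ₐ[k] RF k d))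
    (hβ : ∀ g i, β g (xv k i) = ∑ j, algebraMap k (RF k d)
        ((ρ g : Matrix (Fin d) (Fin d) k) j i) * xv k j) :
    invF ρ = fixF β := by
  ext f
  rw [mem_fixF]
  unfold invF repGroup
  rw [wbasic_mem]
  constructor
  · intro h g
    exact h (β g) ⟨g, hβ g⟩
  · rintro h τ ⟨g, hτ⟩
    have : τ = β g := wbasic_ext fun i => by rw [hτ i, hβ g i]
    rw [this]
    exact h g

/-- the invariants depend only on the image of the representation -/
theorem invF_congr {k : Type u} [Field k] {G : Type v} [Group G] {H : Type w} [Group H] {d : ℕ}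
    (ρ : G →* Matrix.GeneralLinearGroup (Fin d) k) (σ : H →* Matrix.GeneralLinearGroup (Fin d) k)
    (h : ρ.range = σ.range) : invF ρ = invF σ := by
  unfold invF repGroup
  congr 2
  ext τ
  constructor
  · rintro ⟨g, hg⟩
    have h1 : ρ g ∈ σ.range := by
      rw [← h]
      exact ⟨g, rfl⟩
    obtain ⟨g', hg'⟩ := h1
    exact ⟨g', fun i => by rw [hg']; exact hg i⟩
  · rintro ⟨g, hg⟩
    have h1 : σ g ∈ ρ.range := by
      rw [h]
      exact ⟨g, rfl⟩
    obtain ⟨g', hg'⟩ := h1
    exact ⟨g', fun i => by rw [hg']; exact hg i⟩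

/-- every finite group has a faithful representation (permutation matrices of the regular
representation) -/
theorem exists_faithful (k : Type u) [Field k] (G : Type v) [Group G] [Finite G] :
    ∃ (d : ℕ) (ρ : G →* Matrix.GeneralLinearGroup (Fin d) k), Function.Injective ρ := by
  classical
  obtain ⟨d, ⟨e⟩⟩ := Finite.exists_equiv_fin G
  let ρ0 : G →* Matrix (Fin d) (Fin d) k :=
    { toFun := fun g i j => if e.symm i = g * e.symm j then 1 else 0
      map_one' := by
        ext i j
        rw [one_mul, Matrix.one_apply]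
        simp
      map_mul' := by
        intro g h
        ext i j
        rw [Matrix.mul_apply, Finset.sum_eq_single (e (h * e.symm j))]
        · simp [mul_assoc]
        · intro l _ hl
          have : ¬ (e.symm l = h * e.symm j) := fun h' => hl (by rw [← h', e.apply_symm_apply])
          simp [this]
        · intro h'
          exact absurd (Finset.mem_univ _) h' }
  have hρ0 : ∀ g i j, ρ0 g i j = if e.symm i = g * e.symm j then 1 else 0 := fun g i j => rfl
  refine ⟨d, MonoidHom.toHomUnits ρ0, fun g h hgh => ?_⟩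
  have h1 : ρ0 g = ρ0 h := by
    have h2 := congrArg (fun u : Matrix.GeneralLinearGroup (Fin d) k =>
      (u : Matrix (Fin d) (Fin d) k)) hgh
    simpa using h2
  have h2 := congrFun (congrFun h1 (e g)) (e 1)
  rw [hρ0, hρ0] at h2
  simp only [Equiv.symm_apply_apply, mul_one, if_true] at h2
  by_contra hne
  rw [if_neg hne] at h2
  exact one_ne_zero h2

end NR83
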