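import Pool.Agent.H.MP_83e36b_nt.nr.Semi
import Pool.Agent.H.MP_83e36b_nt.nr.Core

/-! The reduction for one minimal normal subgroup, semilinear actions. -/

set_option autoImplicit false

namespace NR83

open CM83

universe u v w x y z

/-- Algebraic independence over `K(y)`, identified with a field of rational functions. -/
private theorem score_algInd {K : Type u} [Field K] {F : Type w} [Field F] [Algebra K F] {d : ℕ}
    (y : Fin d → F) {κ : Type y} (s : κ → F) (hys : AlgebraicIndependent K (Sum.elim y s))
    [Algebra (RF K d) F] [IsScalarTower K (RF K d) F]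
    (hmap : ∀ i, algebraMap (RF K d) F (xv K i) = y i) :
    AlgebraicIndependent (RF K d) s := by
  have hy : AlgebraicIndependent K y := hys.comp Sum.inl Sum.inl_injective
  have hsy : AlgebraicIndependent K (Sum.elim s y) := by
    have h1 : Sum.elim s y = Sum.elim y s ∘ Sum.swap := by
      funext q
      rcases q with q | q <;> rfl
    rw [h1]
    exact hys.comp Sum.swap (Sum.swap_leftInverse.injective)
  have h1 : AlgebraicIndependent (Algebra.adjoin K (Set.range y)) s :=
    (AlgebraicIndependent.sumElim_iff.1 hsy).2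
  let a1 : Algebra (MvPolynomial (Fin d) K) (Algebra.adjoin K (Set.range y)) :=
    (hy.aevalEquiv : MvPolynomial (Fin d) K →+* Algebra.adjoin K (Set.range y)).toAlgebra
  let a2 : Algebra (MvPolynomial (Fin d) K) F :=
    ((algebraMap (RF K d) F).comp (algebraMap (MvPolynomial (Fin d) K) (RF K d))).toAlgebra
  have : IsScalarTower (MvPolynomial (Fin d) K) (RF K d) F :=
    IsScalarTower.of_algebraMap_eq fun p => rfl
  have hC : ∀ c : K, algebraMap (MvPolynomial (Fin d) K) F (MvPolynomial.C c) =
      algebraMap K F c := by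
    intro c
    rw [IsScalarTower.algebraMap_apply K (RF K d) F,
      IsScalarTower.algebraMap_apply K (MvPolynomial (Fin d) K) (RF K d)]
    rfl
  have hev : ∀ p : MvPolynomial (Fin d) K, algebraMap (MvPolynomial (Fin d) K) F p =
      MvPolynomial.aeval y p := by
    intro p
    induction p using MvPolynomial.induction_on with
    | C c => rw [hC, MvPolynomial.aeval_C]
    | add p q hp hq => rw [map_add, map_add, hp, hq]
    | mul_X p i hp =>
      rw [map_mul, map_mul, hp, MvPolynomial.aeval_X, ← hmap i]
      rfl
  have : IsScalarTower (MvPolynomial (Fin d) K) (Algebra.adjoin K (Set.range y)) F := by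
    refine IsScalarTower.of_algebraMap_eq fun p => ?_
    rw [hev]
    exact (hy.algebraMap_aevalEquiv p).symm
  have h2 : AlgebraicIndependent (MvPolynomial (Fin d) K) s :=
    h1.restrictScalars hy.aevalEquiv.injective
  have : Algebra.IsAlgebraic (MvPolynomial (Fin d) K) (RF K d) :=
    IsLocalization.isAlgebraic (RF K d) (nonZeroDivisors (MvPolynomial (Fin d) K))
  exact h2.extendScalars (RF K d)

/-- The no-name lemma for a faithful semilinear action and further variables on which `G` acts
semilinearly. -/
theorem semiext {k : Type u} [Field k] [CharZero k] {K : Type v} [Field K] [Algebra k K]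
    {F : Type w} [Field F] [Algebra k F] [Algebra K F] [IsScalarTower k K F]
    {G : Type x} [Group G] [Finite G] (α : G →* (K ≃ₐ[k] K)) {d : ℕ}
    (β : G →* (RF K d ≃ₐ[k] RF K d)) (hβ : SemiLin α β) (γ : G →* (F ≃ₐ[k] F))
    (hγ : ∀ g a, γ g (algebraMap K F a) = algebraMap K F (α g a)) (y : Fin d → F)
    {κ : Type y} [Finite κ] (s : κ → F) (hys : AlgebraicIndependent K (Sum.elim y s))
    (htop : IntermediateField.adjoin K (Set.range (Sum.elim y s)) = ⊤)
    (hy : ∀ g i (c : Fin d → K), β g (xv K i) = ∑ j, algebraMap K (RF K d) (c j) * xv K j →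
      γ g (y i) = ∑ j, algebraMap K F (c j) * y j)
    (hs : ∀ g p, γ g (s p) ∈ Submodule.span K (Set.range s)) :
    StablyIso k (fixF β) (fixF γ) := by
  obtain ⟨c, hc⟩ := hβ.exists_coeff
  have hyalg : AlgebraicIndependent K y := hys.comp Sum.inl Sum.inl_injective
  have hinj : Function.Injective (MvPolynomial.aeval y : MvPolynomial (Fin d) K →ₐ[K] F) := hyalg
  let φ : RF K d →ₐ[K] F := IsFractionRing.liftAlgHom (K := RF K d) hinj
  have hφ : ∀ i, φ (xv K i) = y i := by
    intro i
    show IsFractionRing.liftAlgHom (K := RF K d) hinj (xv K i) = y i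
    unfold xv
    rw [IsFractionRing.liftAlgHom_apply, IsFractionRing.lift_algebraMap]
    exact MvPolynomial.aeval_X y i
  let _ : Algebra (RF K d) F := φ.toRingHom.toAlgebra
  have hmapφ : ∀ a : RF K d, algebraMap (RF K d) F a = φ a := fun a => rfl
  have : IsScalarTower K (RF K d) F :=
    IsScalarTower.of_algebraMap_eq fun a => (φ.commutes a).symm
  have : IsScalarTower k (RF K d) F := by
    refine IsScalarTower.of_algebraMap_eq fun a => ?_
    rw [IsScalarTower.algebraMap_apply k K F, IsScalarTower.algebraMap_apply K (RF K d) F,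
      ← IsScalarTower.algebraMap_apply k K (RF K d)]
  have hind : AlgebraicIndependent (RF K d) s := score_algInd y s hys hφ
  have hαβ : ∀ (g : G) (a : RF K d), γ g (algebraMap (RF K d) F a) =
      algebraMap (RF K d) F (β g a) := by
    intro g
    have h1 : ((γ g : F ≃ₐ[k] F) : F →+* F).comp (φ : RF K d →+* F) =
        (φ : RF K d →+* F).comp ((β g : RF K d ≃ₐ[k] RF K d) : RF K d →+* RF K d) := by
      apply xb_ext
      · intro a
        change γ g (φ (algebraMap K (RF K d) a)) = φ (β g (algebraMap K (RF K d) a))
        rw [φ.commutes, hγ, hβ.coeff, φ.commutes]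
      · intro i
        change γ g (φ (xv K i)) = φ (β g (xv K i))
        rw [hφ, hy g i (c g i) (hc g i), hc, map_sum]
        refine Finset.sum_congr rfl fun j _ => ?_
        rw [map_mul, hφ, AlgHom.commutes]
    intro a
    exact DFunLike.congr_fun h1 a
  refine noname (L := RF K d) (E := F) β γ hαβ s hind ?_ ?_ ?_
  · rw [eq_top_iff]
    intro f _
    have h1 : f ∈ IntermediateField.adjoin K (Set.range (Sum.elim y s)) := by
      rw [htop]
      exact IntermediateField.mem_top
    have h2 : IntermediateField.adjoin K (Set.range (Sum.elim y s)) ≤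
        (IntermediateField.adjoin (RF K d) (Set.range s)).restrictScalars K := by
      rw [IntermediateField.adjoin_le_iff]
      rintro _ ⟨q, rfl⟩
      rcases q with i | p
      · have h3 : y i = algebraMap (RF K d) F (xv K i) := (hφ i).symm
        rw [Sum.elim_inl, h3]
        exact IntermediateField.algebraMap_mem (IntermediateField.adjoin (RF K d) (Set.range s)) _
      · exact IntermediateField.subset_adjoin (RF K d) (Set.range s) ⟨p, rfl⟩
    exact h2 h1
  · intro g p
    exact Submodule.span_le_restrictScalars K (RF K d) (Set.range s) (hs g p)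
  · intro g hg p
    have h1 : g = 1 := by
      apply hβ.inj
      rw [map_one]
      ext a
      exact hg a
    rw [h1, map_one]
    rfl

theorem semi_step {k : Type u} [Field k] [CharZero k] {K : Type w} [Field K] [Algebra k K]
    {G : Type v} [Group G] [Finite G]
    (N : Subgroup G) [N.Normal] {I : Type v} [Finite I] [MulAction G I] {m : ℕ}
    {A : Matrix (Fin m) (Fin m) ℤ} (hA : NoE8 A) {M : G → I → Matrix (Fin m) (Fin m) ℤ}
    (hM : Coc N I A M) (α : G ⧸ N →* (K ≃ₐ[k] K)) {d e : ℕ}
    (β : G →* (RF K d ≃ₐ[k] RF K d)) (hβ : SemiLin (α.comp (QuotientGroup.mk' N)) β)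
    (γ : G ⧸ N →* (RF K e ≃ₐ[k] RF K e)) (hγ : SemiLin α γ) :
    StablyIso k (fixF β) (fixF γ) := by
  classical
  -- the action of `G` on `L = K(U)`
  let αL : G →* (RF K e ≃ₐ[k] RF K e) := γ.comp (QuotientGroup.mk' N)
  have hinv : fixF γ = fixF αL := by
    ext x
    rw [mem_fixF, mem_fixF]
    constructor
    · intro h g
      exact h _
    · intro h g
      obtain ⟨g', rfl⟩ := QuotientGroup.mk'_surjective N g
      exact h g'
  have hczK : CharZero K := charZero_of_injective_algebraMap (algebraMap k K).injective
  have hcz : CharZero (RF K e) := charZero_of_injective_algebraMap (algebraMap K (RF K e)).injective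
  have hαN : ∀ g, (∀ a, αL g a = a) ↔ g ∈ N := by
    intro g
    constructor
    · intro hg
      have h2 : (QuotientGroup.mk' N g : G ⧸ N) = 1 := by
        apply hγ.inj
        rw [map_one]
        ext a
        exact hg a
      exact (QuotientGroup.eq_one_iff g).1 h2
    · intro hg a
      have h2 : (QuotientGroup.mk' N g : G ⧸ N) = 1 := (QuotientGroup.eq_one_iff g).2 hg
      change γ (QuotientGroup.mk' N g) a = a
      rw [h2, map_one]
      rfl
  -- the action of `G` on `E`
  obtain ⟨βE, hβ1, hβ2, hβ3⟩ := core_ext N hA hM αL hαN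
  have hβK : ∀ g (a : K), βE g (algebraMap K (RFL (RF K e) I m) a) =
      algebraMap K (RFL (RF K e) I m) ((α.comp (QuotientGroup.mk' N)) g a) := by
    intro g a
    rw [IsScalarTower.algebraMap_apply K (RF K e) (RFL (RF K e) I m), hβ1,
      IsScalarTower.algebraMap_apply K (RF K e) (RFL (RF K e) I m)]
    congr 1
    exact hγ.coeff _ a
  -- faithful
  have hfaith : ∀ g, (∀ a, βE g a = a) → g = 1 := by
    intro g hg
    have hgN : g ∈ N := by
      rw [← hαN]
      intro a
      apply (algebraMap (RF K e) (RFL (RF K e) I m)).injective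
      rw [← hβ1, hg]
    apply hM.inj g hgN
    intro j
    apply core_mat (L := RF K e) j
    intro i
    have h1 := hβ2 g j i
    rwa [hg, (hM.fix g hgN j).1] at h1
  -- the action of `G` on `F`
  obtain ⟨γF, hγ1, hγ2⟩ := exists_semi_ext (α.comp (QuotientGroup.mk' N)) β hβ βE hβK
  obtain ⟨c, hc⟩ := hβ.exists_coeff
  have hEF : StablyIso k (fixF βE) (fixF γF) := by
    refine noname βE γF hγ1 (xv (RFL (RF K e) I m)) xv_algInd adjoin_xv ?_ ?_
    · intro g p
      rw [hγ2 g p (c g p) (hc g p)]
      refine Submodule.sum_mem _ fun j _ => ?_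
      rw [IsScalarTower.algebraMap_apply K (RFL (RF K e) I m), ← Algebra.smul_def]
      exact Submodule.smul_mem _ _ (Submodule.subset_span ⟨j, rfl⟩)
    · intro g hg p
      rw [hfaith g hg, map_one]
      rfl
  have hVF : StablyIso k (fixF β) (fixF γF) := by
    have h1 := (xv_algInd (k := K) (n := e)).sumElim_comp
      (xl_algInd (L := RF K e) (ι := I) (n := m))
    have h2 := core_top (adjoin_xv (k := K) (n := e)) (adjoin_xl (L := RF K e) (ι := I) (n := m))
    refine semiext (α.comp (QuotientGroup.mk' N)) β hβ γF ?_ (xv (RFL (RF K e) I m)) _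
      (h1.sumElim_comp xv_algInd) (core_top h2 adjoin_xv) hγ2 ?_
    · intro g a
      rw [IsScalarTower.algebraMap_apply K (RFL (RF K e) I m), hγ1, hβK,
        ← IsScalarTower.algebraMap_apply K (RFL (RF K e) I m)]
    rintro g (⟨j, i⟩ | i)
    · have h3 : γF g (algebraMap (RFL (RF K e) I m) (RF (RFL (RF K e) I m) d)
          (xl (RF K e) j i)) = ∑ l, (M g j i l : K) •
            algebraMap (RFL (RF K e) I m) (RF (RFL (RF K e) I m) d) (xl (RF K e) (g • j) l) := by
        rw [hγ1, hβ2, map_sum]
        refine Finset.sum_congr rfl fun l _ => ?_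
        rw [Algebra.smul_def, map_mul, map_intCast, map_intCast]
      change γF g (algebraMap (RFL (RF K e) I m) (RF (RFL (RF K e) I m) d)
          (xl (RF K e) j i)) ∈ _
      rw [h3]
      refine Submodule.sum_mem _ fun l _ => Submodule.smul_mem _ _ (Submodule.subset_span ?_)
      exact ⟨Sum.inl (g • j, l), rfl⟩
    · obtain ⟨c', hc'⟩ := hγ.exists_coeff
      have h3 : γF g (algebraMap (RFL (RF K e) I m) (RF (RFL (RF K e) I m) d)
          (algebraMap (RF K e) (RFL (RF K e) I m) (xv K i))) = ∑ j,
            (c' (QuotientGroup.mk' N g) i j) •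
            algebraMap (RFL (RF K e) I m) (RF (RFL (RF K e) I m) d)
              (algebraMap (RF K e) (RFL (RF K e) I m) (xv K j)) := by
        have h4 : αL g (xv K i) = ∑ j, algebraMap K (RF K e) (c' (QuotientGroup.mk' N g) i j) *
            xv K j := hc' _ i
        rw [hγ1, hβ1, h4, map_sum, map_sum]
        refine Finset.sum_congr rfl fun l _ => ?_
        rw [Algebra.smul_def, map_mul, map_mul, ← IsScalarTower.algebraMap_apply K (RF K e),
          ← IsScalarTower.algebraMap_apply K (RFL (RF K e) I m)]
      change γF g (algebraMap (RFL (RF K e) I m) (RF (RFL (RF K e) I m) d)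
          (algebraMap (RF K e) (RFL (RF K e) I m) (xv K i))) ∈ _
      rw [h3]
      refine Submodule.sum_mem _ fun j _ => Submodule.smul_mem _ _ (Submodule.subset_span ?_)
      exact ⟨Sum.inr j, rfl⟩
  rw [hinv]
  exact (hVF.trans hEF.symm).trans hβ3.symm

end NR83
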