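import Pool.Agent.H.MP_83e36b_nt.nr.SMain

/-! The case of a faithful action of the quotient on the coefficients. -/

set_option autoImplicit false

namespace NR83

open CM83

universe u v w

/-- If `G / N` acts faithfully on `K`, with fixed field `k`, and `(G, N)` is a Weyl tower, then
`K(x_1, ..., x_d)^G` is stably rational over `k`. -/
theorem stably_rational {k : Type u} [Field k] [CharZero k] {K : Type w} [Field K] [Algebra k K]
    {G : Type v} [Group G] [Finite G] {N : Subgroup G} [N.Normal] (h : Tower G N)
    (α : G ⧸ N →* (K ≃ₐ[k] K)) (hα : Function.Injective α) (hfix : fixF α = ⊥) {d : ℕ}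
    (β : G →* (RF K d ≃ₐ[k] RF K d)) (hβ : SemiLin (α.comp (QuotientGroup.mk' N)) β) :
    StablyIso k (fixF β) k := by
  -- the action of `G / N` on `K(y_1, ..., y_0) = K`
  let ρ : G ⧸ N →* Matrix.GeneralLinearGroup (Fin 0) k := 1
  obtain ⟨γ, hγ1, -⟩ := exists_repAct α ρ
  have hγ : SemiLin α γ := by
    refine ⟨hγ1, fun g i => i.elim0, ?_⟩
    intro g g' hgg
    apply hα
    ext a
    apply (algebraMap K (RF K 0)).injective
    rw [← hγ1, ← hγ1, hgg]
  have h1 : StablyIso k (fixF β) (fixF γ) := red_tower h α d 0 β hβ γ hγ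
  have h2 : StablyIso k (fixF α) (fixF γ) := by
    refine noname α γ hγ1 (xv K : Fin 0 → RF K 0) xv_algInd adjoin_xv (fun g p => p.elim0)
      (fun g _ p => p.elim0)
  have h3 : StablyIso k (fixF α) k := by
    rw [hfix]
    exact StablyIso.of_equiv (IntermediateField.botEquiv k K)
  exact (h1.trans h2.symm).trans h3

end NR83
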