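import Pool.Agent.H.MP_83e36b_nt.nr.Defs

/-! Automorphisms of `A_n`, `n ≠ 6`, preserve the 3-cycles. -/

set_option autoImplicit false

namespace NR83

private theorem autA1_zero (j : ℕ) (hj : 3 ≤ j) :
    2 * (3 ^ j * j.factorial) < 3 * (3 * j - 3).factorial := by
  induction j, hj using Nat.le_induction with
  | base => decide
  | succ j hj ih =>
    obtain ⟨m, hm⟩ : ∃ m, m = 3 * j - 3 := ⟨_, rfl⟩
    have h1 : 3 * (j + 1) - 3 = m + 3 := by omega
    have h2 : m + 6 = 3 * (j + 1) := by omega
    rw [← hm] at ih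
    rw [h1, Nat.factorial_succ, Nat.factorial_succ, Nat.factorial_succ, Nat.factorial_succ]
    have h3 : 2 * (3 ^ (j + 1) * ((j + 1) * j.factorial)) =
        3 * (j + 1) * (2 * (3 ^ j * j.factorial)) := by ring
    have h4 : 3 * ((m + 2 + 1) * ((m + 1 + 1) * ((m + 1) * m.factorial))) =
        ((m + 3) * ((m + 2) * (m + 1))) * (3 * m.factorial) := by ring
    rw [h3, h4, ← h2]
    have h5 : m + 6 ≤ (m + 3) * ((m + 2) * (m + 1)) := by
      calc m + 6 ≤ (m + 3) * 2 := by omega
        _ ≤ (m + 3) * ((m + 2) * (m + 1)) :=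
          Nat.mul_le_mul_left _ (Nat.mul_le_mul (by omega : 2 ≤ m + 2) (by omega : 1 ≤ m + 1))
    calc (m + 6) * (2 * (3 ^ j * j.factorial)) < (m + 6) * (3 * m.factorial) :=
          Nat.mul_lt_mul_of_pos_left ih (by omega)
      _ ≤ _ := Nat.mul_le_mul_right _ h5

private theorem autA1_step (j m : ℕ) (hj : 2 ≤ j)
    (h : 2 * (3 ^ j * j.factorial * m.factorial) < 3 * (3 * j + m - 3).factorial) :
    2 * (3 ^ j * j.factorial * (m + 1).factorial) < 3 * (3 * j + (m + 1) - 3).factorial := by
  have h1 : 3 * j + (m + 1) - 3 = (3 * j + m - 3) + 1 := by omega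
  rw [h1, Nat.factorial_succ, Nat.factorial_succ]
  have h2 : 2 * (3 ^ j * j.factorial * ((m + 1) * m.factorial)) =
      (m + 1) * (2 * (3 ^ j * j.factorial * m.factorial)) := by ring
  have h3 : 3 * ((3 * j + m - 3 + 1) * (3 * j + m - 3).factorial) =
      (3 * j + m - 3 + 1) * (3 * (3 * j + m - 3).factorial) := by ring
  rw [h2, h3]
  calc (m + 1) * (2 * (3 ^ j * j.factorial * m.factorial)) <
        (m + 1) * (3 * (3 * j + m - 3).factorial) := Nat.mul_lt_mul_of_pos_left h (by omega)
    _ ≤ _ := Nat.mul_le_mul_right _ (by omega)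

private theorem autA1_fac (j m : ℕ) (hj : 2 ≤ j) (hm : 7 ≤ 3 * j + m) :
    2 * (3 ^ j * j.factorial * m.factorial) < 3 * (3 * j + m - 3).factorial := by
  by_cases h3 : 3 ≤ j
  · clear hm
    induction m with
    | zero =>
      have := autA1_zero j h3
      simpa using this
    | succ m ih => exact autA1_step j m hj ih
  · have h2 : j = 2 := by omega
    subst h2
    have h1 : 1 ≤ m := by omega
    clear hm
    induction m, h1 using Nat.le_induction with
    | base => decide
    | succ m _ ih => exact autA1_step 2 m hj ih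

/-- the centralizer in the symmetric group is at most twice as large -/
private theorem autA1_two {n : ℕ} (hn : 5 ≤ n) (t : alternatingGroup (Fin n)) :
    Nat.card (Subgroup.centralizer {(t : Equiv.Perm (Fin n))}) ≤
      2 * Nat.card (Subgroup.centralizer {t}) := by
  classical
  have hnt : Nontrivial (Fin n) := Fin.nontrivial_iff_two_le.2 (by omega)
  have hidx : (alternatingGroup (Fin n)).index = 2 := alternatingGroup.index_eq_two
  set H := Subgroup.centralizer {(t : Equiv.Perm (Fin n))} with hH
  have h1 : ((alternatingGroup (Fin n)).subgroupOf H).index ≤ 2 := by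
    have h2 : (alternatingGroup (Fin n)).relIndex H ∣ (alternatingGroup (Fin n)).index :=
      Subgroup.relIndex_dvd_index_of_normal _ _
    rw [hidx] at h2
    exact Nat.le_of_dvd (by norm_num) h2
  have h2 : Nat.card ((alternatingGroup (Fin n)).subgroupOf H) ≤
      Nat.card (Subgroup.centralizer {t}) := by
    refine Nat.card_le_card_of_injective (fun x => (⟨⟨(x : H), Subgroup.mem_subgroupOf.1 x.2⟩, ?_⟩ :
      Subgroup.centralizer {t})) ?_
    · rw [Subgroup.mem_centralizer_singleton_iff]
      have h3 := Subgroup.mem_centralizer_singleton_iff.1 (x : H).2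
      exact Subtype.ext h3
    · intro x y hxy
      have h3 := congrArg (fun z : Subgroup.centralizer {t} =>
        ((z : alternatingGroup (Fin n)) : Equiv.Perm (Fin n))) hxy
      exact Subtype.ext (Subtype.ext h3)
  have h3 := Subgroup.card_mul_index ((alternatingGroup (Fin n)).subgroupOf H)
  calc Nat.card H = Nat.card ((alternatingGroup (Fin n)).subgroupOf H) *
        ((alternatingGroup (Fin n)).subgroupOf H).index := h3.symm
    _ ≤ Nat.card (Subgroup.centralizer {t}) * 2 := Nat.mul_le_mul h2 h1
    _ = _ := mul_comm _ _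

private theorem autA1_le {n : ℕ} (s : alternatingGroup (Fin n)) :
    Nat.card (Subgroup.centralizer {s}) ≤
      Nat.card (Subgroup.centralizer {(s : Equiv.Perm (Fin n))}) := by
  refine Nat.card_le_card_of_injective (fun x =>
    (⟨((x : alternatingGroup (Fin n)) : Equiv.Perm (Fin n)), ?_⟩ :
      Subgroup.centralizer {(s : Equiv.Perm (Fin n))})) ?_
  · rw [Subgroup.mem_centralizer_singleton_iff]
    have h3 := Subgroup.mem_centralizer_singleton_iff.1 x.2
    exact congrArg Subtype.val h3
  · intro x y hxy
    have h3 := congrArg Subtype.val hxy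
    exact Subtype.ext (Subtype.ext h3)

private theorem autA1_map {A : Type*} [Group A] [Finite A] (φ : MulAut A) (t : A) :
    Nat.card (Subgroup.centralizer {t}) ≤ Nat.card (Subgroup.centralizer {φ t}) := by
  refine Nat.card_le_card_of_injective (fun x => (⟨φ x, ?_⟩ : Subgroup.centralizer {φ t})) ?_
  · rw [Subgroup.mem_centralizer_singleton_iff]
    have h3 := Subgroup.mem_centralizer_singleton_iff.1 x.2
    rw [← map_mul, h3, map_mul]
  · intro x y hxy
    exact Subtype.ext (φ.injective (congrArg Subtype.val hxy))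

/-- Proof: `s = φ t` has order 3, so its cycle type is `3^j`, `1 ≤ j ≤ n/3`.  The centralizers of
`t` and `s` in `A_n` have the same order; that of `t` is at least half of its centralizer in
`S_n`, of order `3 (n-3)!` (`Equiv.Perm.nat_card_centralizer`), that of `s` is at most
`3^j j! (n-3j)!`.  So `3 (n-3)! ≤ 2 * 3^j j! (n-3j)!`, which is false for `j ≥ 2`, `n ≥ 7`. -/
theorem autA_three {n : ℕ} (hn : 5 ≤ n) (h6 : n ≠ 6) (φ : MulAut (alternatingGroup (Fin n)))
    (t : alternatingGroup (Fin n)) (ht : (t : Equiv.Perm (Fin n)).IsThreeCycle) :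
    (φ t : Equiv.Perm (Fin n)).IsThreeCycle := by
  classical
  have hord : orderOf (φ t : Equiv.Perm (Fin n)) = 3 := by
    rw [Subgroup.orderOf_coe, MulEquiv.orderOf_eq, ← Subgroup.orderOf_coe]
    exact ht.orderOf
  obtain ⟨j, hj⟩ := Equiv.Perm.cycleType_prime_order
    (σ := (φ t : Equiv.Perm (Fin n))) (by rw [hord]; exact Nat.prime_three)
  rw [hord] at hj
  by_cases hj0 : j = 0
  · rw [hj0] at hj
    exact hj
  exfalso
  have hsum : (j + 1) * 3 ≤ n := by
    have h1 := Equiv.Perm.sum_cycleType (φ t : Equiv.Perm (Fin n))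
    rw [hj, Multiset.sum_replicate, smul_eq_mul] at h1
    have h2 : (φ t : Equiv.Perm (Fin n)).support.card ≤ Fintype.card (Fin n) := Finset.card_le_univ _
    rw [Fintype.card_fin] at h2
    omega
  have hs := Equiv.Perm.nat_card_centralizer (φ t : Equiv.Perm (Fin n))
  rw [hj, Multiset.sum_replicate, Multiset.prod_replicate, smul_eq_mul,
    Multiset.toFinset_replicate, if_neg (by omega), Finset.prod_singleton,
    Multiset.count_replicate_self, Fintype.card_fin] at hs
  have ht' := Equiv.Perm.nat_card_centralizer (t : Equiv.Perm (Fin n))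
  have htc : (t : Equiv.Perm (Fin n)).cycleType = {3} := ht
  rw [htc, Multiset.sum_singleton, Multiset.prod_singleton, Multiset.toFinset_singleton,
    Finset.prod_singleton, Multiset.count_singleton_self, Fintype.card_fin] at ht'
  have h1 := autA1_two hn t
  have h2 := autA1_map φ t
  have h3 := autA1_le (φ t)
  rw [ht'] at h1
  rw [hs] at h3
  have h4 := autA1_fac (j + 1) (n - (j + 1) * 3) (by omega) (by omega)
  have h5 : 3 * (j + 1) + (n - (j + 1) * 3) - 3 = n - 3 := by omega
  rw [h5] at h4
  have h6 : (n - (j + 1) * 3).factorial * 3 ^ (j + 1) * (j + 1).factorial =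
      3 ^ (j + 1) * (j + 1).factorial * (n - (j + 1) * 3).factorial := by ring
  rw [h6] at h3
  simp only [Nat.factorial_one, mul_one] at h1
  omega

end NR83
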