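import Pool.Agent.H.MP_83e36b_nt.nr.Core
import Pool.Agent.H.MP_83e36b_nt.nr.Phi
import Pool.Agent.H.MP_83e36b_nt.nr.Grp2
import Pool.Agent.H.MP_83e36b_nt.nr.Grp3

/-! Noether's problem modulo normal subgroups with alternating composition factors. -/

set_option autoImplicit false

namespace NR83

open CM83

universe u v

/-- the case of the trivial normal subgroup -/
theorem main_bot {k : Type u} [Field k] [CharZero k] {G : Type v} [Group G] [Finite G]
    (N : Subgroup G) [N.Normal] (hN : N = ⊥) {d e : ℕ}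
    (ρ : G →* Matrix.GeneralLinearGroup (Fin d) k) (hρ : Function.Injective ρ)
    (σ : G ⧸ N →* Matrix.GeneralLinearGroup (Fin e) k) (hσ : Function.Injective σ) :
    StablyIso k (invF ρ) (invF σ) := by
  let _inst : MulAction G PEmpty.{v+1} :=
    { smul := fun _ x => x
      one_smul := fun x => rfl
      mul_smul := fun _ _ x => rfl }
  refine core_step N (I := PEmpty.{v+1}) (NoE8.A (n := 1) le_rfl)
    (M := fun _ _ => 1) ⟨fun j => j.elim, fun _ _ j => j.elim, fun _ j => j.elim,
      fun _ _ j => j.elim, fun R _ => ⟨1, N.one_mem, fun j => j.elim⟩, fun g hg _ => ?_⟩ ρ hρ σ hσ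
  rw [hN] at hg
  exact hg

theorem main_aux {k : Type u} [Field k] [CharZero k] (c : ℕ) :
    ∀ {G : Type v} [Group G] [Finite G]
    (N : Subgroup G) [N.Normal] (_ : Nat.card N = c) (_ : AltSeries N) {d e : ℕ}
    (ρ : G →* Matrix.GeneralLinearGroup (Fin d) k) (_ : Function.Injective ρ)
    (σ : G ⧸ N →* Matrix.GeneralLinearGroup (Fin e) k) (_ : Function.Injective σ),
    StablyIso k (invF ρ) (invF σ) := by
  induction c using Nat.strong_induction_on with
  | _ c ih =>
    intro G _ _ N hNn hc hN d e ρ hρ σ hσ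
    by_cases hN0 : N = ⊥
    · exact main_bot N hN0 ρ hρ σ hσ
    obtain ⟨N₁, n, I, hI, hGI, hN₁, hle, hN₁0, hn5, hn6, ⟨B⟩⟩ := exists_blocks N hNn hN0 hN
    obtain ⟨m, A, Φ, hA, hΦ⟩ := exists_Phi hn5 hn6
    obtain ⟨M, hM⟩ := exists_coc B hΦ
    obtain ⟨f, τ, hτ⟩ := exists_faithful k (G ⧸ N₁)
    have h1 := core_step N₁ hA hM ρ hρ τ hτ
    -- the quotient
    have hNn' : (N.map (QuotientGroup.mk' N₁)).Normal :=
      hNn.map _ (QuotientGroup.mk'_surjective N₁)
    have hN' : AltSeries (N.map (QuotientGroup.mk' N₁)) :=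
      hN.of_surjective ((QuotientGroup.mk' N₁).subgroupMap N)
        ((QuotientGroup.mk' N₁).subgroupMap_surjective N)
    have hsurj := (QuotientGroup.mk' N₁).subgroupMap_surjective N
    have hcard : Nat.card (N.map (QuotientGroup.mk' N₁)) < c := by
      rw [← hc]
      by_contra hlt
      push Not at hlt
      have hbij := hsurj.bijective_of_nat_card_le hlt
      obtain ⟨⟨x, hx⟩, hx1⟩ := Subgroup.ne_bot_iff_exists_ne_one.1 hN₁0
      have h2 : (QuotientGroup.mk' N₁).subgroupMap N ⟨x, hle hx⟩ = 1 := by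
        apply Subtype.ext
        exact (QuotientGroup.eq_one_iff x).2 hx
      have h3 : (⟨x, hle hx⟩ : N) = 1 := hbij.1 (by rw [h2, map_one])
      have h4 : x = 1 := congrArg (fun z : N => (z : G)) h3
      apply hx1
      apply Subtype.ext
      exact h4
    let ε : (G ⧸ N₁) ⧸ (N.map (QuotientGroup.mk' N₁)) ≃* G ⧸ N :=
      QuotientGroup.quotientQuotientEquivQuotient N₁ N hle
    have h2 := ih _ hcard (N.map (QuotientGroup.mk' N₁)) rfl hN' τ hτ
      (σ.comp ε.toMonoidHom) (hσ.comp ε.injective)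
    have h3 : invF (σ.comp ε.toMonoidHom) = invF σ := by
      apply invF_congr
      have h4 : ε.toMonoidHom.range = ⊤ := MonoidHom.range_eq_top.2 ε.surjective
      rw [MonoidHom.range_comp, h4, ← MonoidHom.range_eq_map]
    rw [h3] at h2
    exact h1.trans h2

theorem main {k : Type u} [Field k] [CharZero k] {G : Type v} [Group G] [Finite G]
    (N : Subgroup G) [N.Normal] (hN : AltSeries N) {d e : ℕ}
    (ρ : G →* Matrix.GeneralLinearGroup (Fin d) k) (hρ : Function.Injective ρ)
    (σ : G ⧸ N →* Matrix.GeneralLinearGroup (Fin e) k) (hσ : Function.Injective σ) :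
    StablyIso k (invF ρ) (invF σ) :=
  main_aux _ N rfl hN ρ hρ σ hσ

end NR83
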