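import Pool.Agent.H.MP_83e36b_nt.nr.SI
import Pool.Agent.H.MP_83e36b_nt.nr.RepAct
import Pool.Agent.H.MP_83e36b_nt.cm.XC
import Pool.Agent.H.MP_83e36b_nt.cm.XD
import Pool.Agent.H.MP_83e36b_nt.cm.XE

/-! The no-name lemma. -/

set_option autoImplicit false

namespace NR83

open CM83

universe u v w x y

/-- The common situation: `G` acts on `E` and on the subfield `L`, the invariants of `E` are
generated over the invariants of `L` by algebraically independent elements. -/
theorem stably_of_fixed {k : Type u} [Field k] {L : Type v} [Field L] {E : Type w}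
    [Field E] [Algebra k L] [Algebra k E] [Algebra L E] [IsScalarTower k L E] {G : Type x}
    [Group G] (α : G →* (L ≃ₐ[k] L)) (β : G →* (E ≃ₐ[k] E))
    (hαβ : ∀ g a, β g (algebraMap L E a) = algebraMap L E (α g a))
    {κ : Type y} [Finite κ] (u : κ → E) (hu : ∀ p g, β g (u p) = u p)
    (halg : AlgebraicIndependent (fixF α) u)
    (hgen : ∀ f : E, (∀ g, β g f = f) →
      f ∈ IntermediateField.adjoin (fixF α) (Set.range u)) :
    StablyIso k (fixF α) (fixF β) := by
  have hmem : ∀ a : fixF α, algebraMap L E (a : L) ∈ fixF β := by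
    intro a
    rw [mem_fixF]
    intro g
    rw [hαβ, (mem_fixF α _).1 a.2 g]
  let ι : fixF α →+* fixF β :=
    { toFun := fun a => ⟨algebraMap L E (a : L), hmem a⟩
      map_one' := Subtype.ext (map_one (algebraMap L E))
      map_zero' := Subtype.ext (map_zero (algebraMap L E))
      map_add' := fun a b => Subtype.ext (map_add (algebraMap L E) (a : L) (b : L))
      map_mul' := fun a b => Subtype.ext (map_mul (algebraMap L E) (a : L) (b : L)) }
  letI : Algebra (fixF α) (fixF β) := ι.toAlgebra
  have hst : IsScalarTower k (fixF α) (fixF β) := by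
    refine IsScalarTower.of_algebraMap_eq fun a => Subtype.ext ?_
    show algebraMap k E a = algebraMap L E (algebraMap k L a)
    exact IsScalarTower.algebraMap_apply k L E a
  have hst2 : IsScalarTower (fixF α) (fixF β) E := IsScalarTower.of_algebraMap_eq fun a => rfl
  have hu' : ∀ p, u p ∈ fixF β := fun p => (mem_fixF β _).2 fun g => hu p g
  obtain ⟨u', hu'1⟩ : ∃ u' : κ → fixF β, ∀ p, ((u' p : fixF β) : E) = u p :=
    ⟨fun p => ⟨u p, hu' p⟩, fun p => rfl⟩
  let f : fixF β →ₐ[fixF α] E := IsScalarTower.toAlgHom (fixF α) (fixF β) E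
  have hf : ∀ z : fixF β, f z = (z : E) := fun z => rfl
  have hcomp : (f ∘ u') = u := funext fun p => by
    rw [Function.comp_apply, hf, hu'1]
  have h2 : AlgebraicIndependent (fixF α) u' := by
    refine AlgebraicIndependent.of_comp f ?_
    rw [hcomp]
    exact halg
  refine StablyIso.of_algInd (P := fixF α) (E := fixF β) u' h2 ?_
  rw [eq_top_iff]
  intro z _
  have h3 : (z : E) ∈ IntermediateField.adjoin (fixF α) (Set.range u) :=
    hgen z fun g => (mem_fixF β _).1 z.2 g
  have h4 : (IntermediateField.adjoin (fixF α) (Set.range u')).map f =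
      IntermediateField.adjoin (fixF α) (Set.range u) := by
    rw [IntermediateField.adjoin_map, ← Set.range_comp, hcomp]
  rw [← h4] at h3
  obtain ⟨z', hz', hzz⟩ := h3
  have h5 : z' = z := Subtype.ext hzz
  rw [← h5]
  exact hz'

/-- Proof: `CM83.exists_fixed_basis` (with `MulSemiringAction.compHom E β`), `CM83.descent` and
`stably_of_fixed`. -/
theorem noname {k : Type u} [Field k] [CharZero k] {L : Type v} [Field L] {E : Type w}
    [Field E] [Algebra k L] [Algebra k E] [Algebra L E] [IsScalarTower k L E] {G : Type x}
    [Group G] [Finite G] (α : G →* (L ≃ₐ[k] L)) (β : G →* (E ≃ₐ[k] E))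
    (hαβ : ∀ g a, β g (algebraMap L E a) = algebraMap L E (α g a))
    {κ : Type y} [Finite κ] (S : κ → E) (hS : AlgebraicIndependent L S)
    (htop : IntermediateField.adjoin L (Set.range S) = ⊤)
    (hspan : ∀ g p, β g (S p) ∈ Submodule.span L (Set.range S))
    (hker : ∀ g, (∀ a : L, α g a = a) → ∀ p, β g (S p) = S p) :
    StablyIso k (fixF α) (fixF β) := by
  letI : MulSemiringAction G E := MulSemiringAction.compHom E β
  have hsmul : ∀ (g : G) (x : E), g • x = β g x := fun g x => rfl
  have : CharZero L := charZero_of_injective_algebraMap (algebraMap k L).injective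
  have hcoeff : ∀ (g : G) (a : L), ∃ b : L, g • algebraMap L E a = algebraMap L E b :=
    fun g a => ⟨α g a, by rw [hsmul, hαβ]⟩
  obtain ⟨u, hu, hsp⟩ := exists_fixed_basis (L := L) (E := E) (G := G) hcoeff
    hS.linearIndependent (fun g p => by rw [hsmul]; exact hspan g p)
    (fun g hg p => by
      rw [hsmul]
      refine hker g (fun a => (algebraMap L E).injective ?_) p
      rw [← hαβ, ← hsmul]
      exact hg a)
  have hle : ∀ X Y : κ → E, Submodule.span L (Set.range X) = Submodule.span L (Set.range Y) →
      IntermediateField.adjoin L (Set.range X) ≤ IntermediateField.adjoin L (Set.range Y) := by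
    intro X Y hXY
    rw [IntermediateField.adjoin_le_iff]
    rintro _ ⟨p, rfl⟩
    have h1 : Submodule.span L (Set.range Y) ≤
        Subalgebra.toSubmodule (IntermediateField.adjoin L (Set.range Y)).toSubalgebra :=
      Submodule.span_le.2 (IntermediateField.subset_adjoin L (Set.range Y))
    apply h1
    rw [← hXY]
    exact Submodule.subset_span ⟨p, rfl⟩
  have hadj : IntermediateField.adjoin L (Set.range u) = ⊤ := by
    rw [← htop]
    exact le_antisymm (hle u S hsp) (hle S u hsp.symm)
  have hualg : AlgebraicIndependent L u := by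
    refine algInd_of_fin hS fun p => ?_
    rw [hadj]
    exact isAlgebraic_algebraMap (R := (⊤ : IntermediateField L E))
      (⟨S p, IntermediateField.mem_top⟩ : (⊤ : IntermediateField L E))
  have key : ∀ f : E, f ∈ IntermediateField.adjoin (fixedCoeff L E G) (Set.range u) →
      f ∈ IntermediateField.adjoin (fixF α) (Set.range u) := by
    intro f hf
    induction hf using IntermediateField.adjoin_induction with
    | mem x hx => exact IntermediateField.subset_adjoin _ _ hx
    | algebraMap x =>
      have hx : (x : L) ∈ fixF α := by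
        rw [mem_fixF]
        intro g
        apply (algebraMap L E).injective
        rw [← hαβ]
        exact x.2 g
      exact IntermediateField.algebraMap_mem (IntermediateField.adjoin (fixF α) (Set.range u))
        (⟨(x : L), hx⟩ : fixF α)
    | add x y _ _ h3 h4 => exact add_mem h3 h4
    | inv x _ h3 => exact inv_mem h3
    | mul x y _ _ h3 h4 => exact mul_mem h3 h4
  refine stably_of_fixed α β hαβ u (fun p g => hu p g)
    (hualg.restrictScalars (algebraMap (fixF α) L).injective) fun f hf => key f ?_
  exact descent (L := L) (E := E) (G := G) hcoeff hu f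
    (by rw [hadj]; exact IntermediateField.mem_top) (fun g => hf g)

/-- Algebraic independence over `k(y)`, identified with a field of rational functions. -/
private theorem pt_algInd {k : Type u} [Field k] {F : Type w} [Field F] [Algebra k F] {d : ℕ}
    (y : Fin d → F) {κ : Type y} (s : κ → F) (hys : AlgebraicIndependent k (Sum.elim y s))
    [Algebra (RF k d) F] [IsScalarTower k (RF k d) F]
    (hmap : ∀ i, algebraMap (RF k d) F (xv k i) = y i) :
    AlgebraicIndependent (RF k d) s := by
  have hy : AlgebraicIndependent k y := hys.comp Sum.inl Sum.inl_injective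
  have hsy : AlgebraicIndependent k (Sum.elim s y) := by
    have h1 : Sum.elim s y = Sum.elim y s ∘ Sum.swap := by
      funext q
      rcases q with q | q <;> rfl
    rw [h1]
    exact hys.comp Sum.swap (Sum.swap_leftInverse.injective)
  have h1 : AlgebraicIndependent (Algebra.adjoin k (Set.range y)) s :=
    (AlgebraicIndependent.sumElim_iff.1 hsy).2
  letI a1 : Algebra (MvPolynomial (Fin d) k) (Algebra.adjoin k (Set.range y)) :=
    (hy.aevalEquiv : MvPolynomial (Fin d) k →+* Algebra.adjoin k (Set.range y)).toAlgebra
  letI a2 : Algebra (MvPolynomial (Fin d) k) F :=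
    ((algebraMap (RF k d) F).comp (algebraMap (MvPolynomial (Fin d) k) (RF k d))).toAlgebra
  have : IsScalarTower (MvPolynomial (Fin d) k) (RF k d) F :=
    IsScalarTower.of_algebraMap_eq fun p => rfl
  have hC : ∀ c : k, algebraMap (MvPolynomial (Fin d) k) F (MvPolynomial.C c) =
      algebraMap k F c := by
    intro c
    rw [IsScalarTower.algebraMap_apply k (RF k d) F,
      IsScalarTower.algebraMap_apply k (MvPolynomial (Fin d) k) (RF k d)]
    rfl
  have hev : ∀ p : MvPolynomial (Fin d) k, algebraMap (MvPolynomial (Fin d) k) F p =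
      MvPolynomial.aeval y p := by
    intro p
    induction p using MvPolynomial.induction_on with
    | C c => rw [hC, MvPolynomial.aeval_C]
    | add p q hp hq => rw [map_add, map_add, hp, hq]
    | mul_X p i hp =>
      rw [map_mul, map_mul, hp, MvPolynomial.aeval_X, ← hmap i]
      rfl
  have : IsScalarTower (MvPolynomial (Fin d) k) (Algebra.adjoin k (Set.range y)) F := by
    refine IsScalarTower.of_algebraMap_eq fun p => ?_
    rw [hev]
    exact (hy.algebraMap_aevalEquiv p).symm
  have h2 : AlgebraicIndependent (MvPolynomial (Fin d) k) s :=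
    h1.restrictScalars hy.aevalEquiv.injective
  have : Algebra.IsAlgebraic (MvPolynomial (Fin d) k) (RF k d) :=
    IsLocalization.isAlgebraic (RF k d) (nonZeroDivisors (MvPolynomial (Fin d) k))
  exact h2.extendScalars (RF k d)

/-- The no-name lemma for a faithful linear representation and further variables on which `G` acts
linearly. -/
theorem linext {k : Type u} [Field k] [CharZero k] {F : Type w} [Field F] [Algebra k F]
    {G : Type x} [Group G] [Finite G] {d : ℕ} (ρ : G →* Matrix.GeneralLinearGroup (Fin d) k)
    (hρ : Function.Injective ρ) (γ : G →* (F ≃ₐ[k] F)) (y : Fin d → F) {κ : Type y} [Finite κ]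
    (s : κ → F) (hys : AlgebraicIndependent k (Sum.elim y s))
    (htop : IntermediateField.adjoin k (Set.range (Sum.elim y s)) = ⊤)
    (hy : ∀ g i, γ g (y i) = ∑ j, algebraMap k F ((ρ g : Matrix (Fin d) (Fin d) k) j i) * y j)
    (hs : ∀ g p, γ g (s p) ∈ Submodule.span k (Set.range s)) :
    StablyIso k (invF ρ) (fixF γ) := by
  obtain ⟨β, hβ⟩ := exists_repAct' ρ
  rw [invF_eq ρ β hβ]
  have hyalg : AlgebraicIndependent k y := hys.comp Sum.inl Sum.inl_injective
  have hinj : Function.Injective (MvPolynomial.aeval y : MvPolynomial (Fin d) k →ₐ[k] F) := hyalg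
  let φ : RF k d →ₐ[k] F := IsFractionRing.liftAlgHom (K := RF k d) hinj
  have hφ : ∀ i, φ (xv k i) = y i := by
    intro i
    show IsFractionRing.liftAlgHom (K := RF k d) hinj (xv k i) = y i
    unfold xv
    rw [IsFractionRing.liftAlgHom_apply, IsFractionRing.lift_algebraMap]
    exact MvPolynomial.aeval_X y i
  letI : Algebra (RF k d) F := φ.toRingHom.toAlgebra
  have hmapφ : ∀ a : RF k d, algebraMap (RF k d) F a = φ a := fun a => rfl
  have : IsScalarTower k (RF k d) F :=
    IsScalarTower.of_algebraMap_eq fun a => (φ.commutes a).symm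
  have hind : AlgebraicIndependent (RF k d) s := pt_algInd y s hys hφ
  have hαβ : ∀ (g : G) (a : RF k d), γ g (algebraMap (RF k d) F a) =
      algebraMap (RF k d) F (β g a) := by
    intro g
    have h1 : ((γ g : F ≃ₐ[k] F) : F →ₐ[k] F).comp φ =
        φ.comp ((β g : RF k d ≃ₐ[k] RF k d) : RF k d →ₐ[k] RF k d) := by
      apply hom_ext
      intro i
      show γ g (φ (xv k i)) = φ (β g (xv k i))
      rw [hφ, hy, hβ, map_sum]
      refine Finset.sum_congr rfl fun j _ => ?_
      rw [map_mul, hφ, AlgHom.commutes]
    intro a
    exact DFunLike.congr_fun h1 a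
  refine noname (L := RF k d) (E := F) β γ hαβ s hind ?_ ?_ ?_
  · rw [eq_top_iff]
    intro f _
    have h1 : f ∈ IntermediateField.adjoin k (Set.range (Sum.elim y s)) := by
      rw [htop]
      exact IntermediateField.mem_top
    have h2 : IntermediateField.adjoin k (Set.range (Sum.elim y s)) ≤
        (IntermediateField.adjoin (RF k d) (Set.range s)).restrictScalars k := by
      rw [IntermediateField.adjoin_le_iff]
      rintro _ ⟨q, rfl⟩
      rcases q with i | p
      · have h3 : y i = algebraMap (RF k d) F (xv k i) := (hφ i).symm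
        rw [Sum.elim_inl, h3]
        exact IntermediateField.algebraMap_mem (IntermediateField.adjoin (RF k d) (Set.range s)) _
      · exact IntermediateField.subset_adjoin (RF k d) (Set.range s) ⟨p, rfl⟩
    exact h2 h1
  · intro g p
    exact Submodule.span_le_restrictScalars k (RF k d) (Set.range s) (hs g p)
  · intro g hg p
    have h1 : g = 1 := by
      apply hρ
      rw [map_one]
      apply Units.ext
      apply Matrix.ext
      intro j i
      have h2 := hg (xv k i)
      rw [hβ] at h2
      have hli := (xv_algInd (k := k) (n := d)).linearIndependent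
      have h3 : ∑ j, ((ρ g : Matrix (Fin d) (Fin d) k) j i) • xv k j =
          ∑ j, ((1 : Matrix (Fin d) (Fin d) k) j i) • xv k j := by
        have h4 : ∀ c : Fin d → k, ∑ j, c j • xv k j =
            ∑ j, algebraMap k (RF k d) (c j) * xv k j := fun c =>
          Finset.sum_congr rfl fun j _ => Algebra.smul_def _ _
        rw [h4, h2]
        simp [Matrix.one_apply]
      have h5 := Fintype.linearIndependent_iff.1 hli
        (fun j => (ρ g : Matrix (Fin d) (Fin d) k) j i - (1 : Matrix (Fin d) (Fin d) k) j i)
        (by simp only [sub_smul, Finset.sum_sub_distrib]; rw [h3, sub_self]) j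
      exact sub_eq_zero.1 h5
    rw [h1, map_one]
    rfl

end NR83
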